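import Pool.Agent.P.MP_3e99c6_gt.Point

/-! The curvature of the conformal Kaehler metric. -/

open scoped ContDiff Topology
open Complex Filter

set_option maxSynthPendingDepth 3

noncomputable section

namespace Pool.Agent.P.MP_3e99c6_gt

variable {n : ℕ} {G : V n → Bil n} {U : Set (V n)} {φ : V n → ℝ} {y : V n}

theorem HermOn.smul (hG : HermOn G U) (hφ : ContDiffOn ℝ ∞ φ U) (hp : ∀ y ∈ U, 0 < φ y) :
    HermOn (fun z => φ z • G z) U where
  op := hG.op
  smooth := hφ.smul hG.smooth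
  symm y hy v w := by simp [hG.symm y hy v w]
  cx y hy v w := by simp [hG.cx y hy v w]
  pos y hy v hv := by simpa using mul_pos (hp y hy) (hG.pos y hy v hv)

theorem fderiv_conf (hG : DifferentiableAt ℝ G y) (hφ : DifferentiableAt ℝ φ y) (u a b : V n) :
    fderiv ℝ (fun z => φ z • G z) y u a b =
      fderiv ℝ φ y u * G y a b + φ y * fderiv ℝ G y u a b := by
  rw [fderiv_fun_smul hφ hG]
  simp
  ring

theorem fderiv2_conf (hG : HermOn G U) (hφ : ContDiffOn ℝ ∞ φ U) (hp : ∀ y ∈ U, 0 < φ y)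
    (hy : y ∈ U) (t u a b : V n) :
    fderiv ℝ (fderiv ℝ fun z => φ z • G z) y t u a b =
      fderiv ℝ (fderiv ℝ φ) y t u * G y a b + fderiv ℝ φ y u * fderiv ℝ G y t a b +
      fderiv ℝ φ y t * fderiv ℝ G y u a b + φ y * fderiv ℝ (fderiv ℝ G) y t u a b := by
  have hU := hG.op.mem_nhds hy
  have h0 := hφ.contDiffAt hU
  have h1 : DifferentiableAt ℝ φ y := h0.differentiableAt (by simp)
  have h2 : DifferentiableAt ℝ (fderiv ℝ φ) y :=
    (h0.fderiv_right (m := 1) two_le_inf).differentiableAt (by simp)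
  have h3 : DifferentiableAt ℝ (fun z => fderiv ℝ φ z u) y :=
    h2.clm_apply (differentiableAt_const _)
  have h4 : DifferentiableAt ℝ (fun z => G z a b) y :=
    ((hG.diff hy).clm_apply (differentiableAt_const _)).clm_apply (differentiableAt_const _)
  have h5 : DifferentiableAt ℝ (fun z => fderiv ℝ G z u a b) y :=
    (((hG.diff2 hy).clm_apply (differentiableAt_const _)).clm_apply
      (differentiableAt_const _)).clm_apply (differentiableAt_const _)
  have e : (fun z => fderiv ℝ (fun z => φ z • G z) z u a b) =ᶠ[𝓝 y]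
      fun z => fderiv ℝ φ z u * G z a b + φ z * fderiv ℝ G z u a b := by
    filter_upwards [hU] with z hz
    exact fderiv_conf (hG.diff hz)
      ((hφ.contDiffAt (hG.op.mem_nhds hz)).differentiableAt (by simp)) u a b
  rw [← fderiv_app3 ((hG.smul hφ hp).diff2 hy), e.fderiv_eq, fderiv_fun_add (h3.fun_mul h4)
    (h1.fun_mul h5), fderiv_fun_mul h3 h4, fderiv_fun_mul h1 h5]
  simp only [add_apply, smul_apply, smul_eq_mul, fderiv_app3 (hG.diff2 hy),
    fderiv_app (hG.diff hy), fderiv_clm_apply h2 (differentiableAt_const _)]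
  simp
  ring

theorem conf_eq (hG : HermOn G U) {Γ : V n → Chr n} (hB : IsBismut G Γ U)
    (hφ : ContDiffOn ℝ ∞ φ U) (hp : ∀ y ∈ U, 0 < φ y) (hy : y ∈ U)
    (hK : ∀ u v w, dOmega (fun z => φ z • G z) y u v w = 0) {c : ℝ} {v z σ₀ : V n}
    (hc : G y (curv Γ y v (I • v) (I • v)) v = c * G y v v ^ 2)
    (hz : ∀ w, φ y * G y z w = fderiv ℝ φ y w)
    (hσ : ∀ w, φ y * G y σ₀ w = fderiv ℝ (fun z => φ z • G z) y v v w -
      fderiv ℝ (fun z => φ z • G z) y (I • v) (I • v) w) :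
    -(fderiv ℝ (fderiv ℝ fun z => φ z • G z) y v v v v +
        fderiv ℝ (fderiv ℝ fun z => φ z • G z) y (I • v) (I • v) v v) + φ y * G y σ₀ σ₀ =
      (2 * c * φ y + φ y * G y z z) * G y v v ^ 2 -
        G y v v * (fderiv ℝ (fderiv ℝ φ) y v v + fderiv ℝ (fderiv ℝ φ) y (I • v) (I • v)) := by
  have h1 : DifferentiableAt ℝ φ y :=
    (hφ.contDiffAt (hG.op.mem_nhds hy)).differentiableAt (by simp)
  have c0 := cx_left (hG.cx y hy)
  have s := hG.symm y hy
  have c1 := fun u => cx_left (hG.cx1 hy u)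
  have s1 := hG.symm1 hy
  have hφ0 := (hp y hy).ne'
  rw [hG.hsc_eq hB hy] at hc
  rw [fderiv2_conf hG hφ hp hy, fderiv2_conf hG hφ hp hy]
  simp only [fderiv_conf (hG.diff hy) h1] at hσ
  set a := Γ y v v with ha
  set b := Γ y (I • v) v with hb
  set σ := a - I • b with hσ'
  set τ := a + I • b with hτ'
  have hvI : G y v (I • v) = 0 := by linarith [c0 v v, s (I • v) v]
  have hIv : G y (I • v) v = 0 := by rw [s, hvI]
  have hτ : ∀ w, φ y * G y τ w = fderiv ℝ φ y w * G y v v - fderiv ℝ φ y v * G y v w -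
      fderiv ℝ φ y (I • v) * G y (I • v) w := by
    intro w
    have e := hK v (I • v) w
    have e2 := hG.tau_eq hB hy v w
    simp only [dOmega, fderiv_conf (hG.diff hy) h1, II_smul, map_neg, neg_apply,
      hG.cx y hy] at e e2
    rw [e2]
    linear_combination -e + fderiv ℝ φ y (I • v) * (c0 w v - s w (I • v))
  have hs : ∀ w, G y σ w = fderiv ℝ G y v v w - fderiv ℝ G y (I • v) (I • v) w := by
    intro w
    have e1 := hG.a_eq hB hy v w
    have e2 := hG.tau_eq hB hy v w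
    simp only [dOmega, II_smul, map_neg, neg_apply, hG.cx1 hy, map_add, add_apply] at e2
    simp only [hσ', map_sub, sub_apply]
    linarith [c1 (I • v) w v, s1 (I • v) w (I • v)]
  have h2 : 4 * G y (I • a) b = G y σ σ - G y τ τ := by
    simp only [hσ', hτ', map_sub, map_add, sub_apply, add_apply]
    linarith [c0 a b, s (I • b) a]
  have g1 : fderiv ℝ G y (I • v) (I • v) v = 0 := by
    linarith [c1 (I • v) v v, s1 (I • v) (I • v) v]
  have g2 : fderiv ℝ G y v v (I • v) = 0 := by linarith [c1 v v v, s1 v (I • v) v]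
  have t1 : G y τ v = 0 := by
    apply mul_left_cancel₀ hφ0
    rw [hτ, hIv]; ring
  have t2 : G y τ (I • v) = 0 := by
    apply mul_left_cancel₀ hφ0
    rw [hτ, hvI, hG.cx y hy]; ring
  have t3 := hτ τ
  have t4 := hτ z
  rw [s v τ, s (I • v) τ, t1, t2, ← hz τ, s z τ] at t3
  rw [s v z, s (I • v) z, ← hz z] at t4
  have z1 := hz v
  have z2 := hz (I • v)
  have u1 := hσ σ₀
  have u2 := hσ v
  have u3 := hσ (I • v)
  have u4 := hσ σ
  have u5 := hs σ₀
  have u6 := hs σ
  have u7 := hs v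
  have u8 := hs (I • v)
  rw [s v σ₀, s (I • v) σ₀] at u1
  rw [s σ σ₀] at u5
  rw [s v σ, s (I • v) σ] at u4
  rw [hIv, g1] at u2
  rw [hvI, g2, hG.cx y hy, hG.cx1 hy] at u3
  rw [g1] at u7
  rw [g2, hG.cx1 hy] at u8
  apply mul_left_cancel₀ hφ0
  linear_combination φ y * u1 + fderiv ℝ φ y v * u2 - fderiv ℝ φ y (I • v) * u3 +
    φ y * u4 - φ y ^ 2 * u5 - φ y ^ 2 * u6 + φ y * fderiv ℝ φ y v * u7 -
    φ y * fderiv ℝ φ y (I • v) * u8 + 2 * φ y ^ 2 * hc - φ y ^ 2 * h2 + φ y * t3 +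
    φ y * G y v v * t4 - G y v v * fderiv ℝ φ y v * z1 - G y v v * fderiv ℝ φ y (I • v) * z2

end Pool.Agent.P.MP_3e99c6_gt
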