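import Pool.Agent.P.MP_3e99c6_gt.Frame3

/-! The coordinate description, its symmetry, and the local theorem over a differential ring. -/

noncomputable section

namespace Pool.Agent.P.MP_3e99c6_gt

open Finset

variable {ι A : Type} [Fintype ι] [DecidableEq ι] [CommRing A] [Algebra ℂ A]

/-- Kaehler metric `h` with inverse `k` and conformal factor `φ` in holomorphic coordinates. -/
structure Dat (ι A : Type) [Fintype ι] [DecidableEq ι] [CommRing A] [Algebra ℂ A] where
  h : ι → ι → A
  k : ι → ι → A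
  D : ι → Derivation ℂ A A
  Db : ι → Derivation ℂ A A
  φ : A
  φi : A
  c : A
  w : A
  hφ : φ * φi = 1
  hw : ∑ a, ∑ m, k a m * D m φ * Db a φ = w
  hk : ∀ i m, ∑ l, h i l * k l m = dl A i m
  kh : ∀ a j, ∑ m, k a m * h m j = dl A a j
  DD : ∀ a b f, D a (D b f) = D b (D a f)
  BB : ∀ a b f, Db a (Db b f) = Db b (Db a f)
  DB : ∀ a b f, D a (Db b f) = Db b (D a f)
  Dc : ∀ a, D a c = 0
  Bc : ∀ a, Db a c = 0
  K1 : ∀ m i j, D m (h i j) = D i (h m j)
  K2 : ∀ l i j, Db l (h i j) = Db j (h i l)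
  curv : ∀ i j m l,
    4 * (-D i (Db j (h m l)) + ∑ q, ∑ p, D i (h m q) * k q p * Db j (h p l)) =
      ((c * φi + w * φi ^ 2) * h i j - φi * D i (Db j φ)) * h m l +
      ((c * φi + w * φi ^ 2) * h m l - φi * D m (Db l φ)) * h i j +
      ((c * φi + w * φi ^ 2) * h i l - φi * D i (Db l φ)) * h m j +
      ((c * φi + w * φi ^ 2) * h m j - φi * D m (Db j φ)) * h i l

omit [Fintype ι] in
theorem der_prod (X : Derivation ℂ A A) (s : Finset ι) (x : ι → A) :
    X (∏ i ∈ s, x i) = ∑ i ∈ s, X (x i) * ∏ j ∈ s.erase i, x j := by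
  induction s using Finset.induction_on with
  | empty => simp
  | insert a s ha ih =>
    rw [prod_insert ha, sum_insert ha, Derivation.leibniz, ih, erase_insert ha, smul_eq_mul,
      smul_eq_mul, mul_sum, add_comm, mul_comm]
    congr 1
    refine sum_congr rfl fun i hi => ?_
    rw [erase_insert_of_ne (by rintro rfl; exact ha hi),
      prod_insert (fun h => ha (mem_of_mem_erase h))]
    ring

namespace Dat

variable (d : Dat ι A)

/-- exchange of holomorphic and antiholomorphic directions -/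
def swap : Dat ι A where
  h i j := d.h j i
  k a m := d.k m a
  D := d.Db
  Db := d.D
  φ := d.φ
  φi := d.φi
  c := d.c
  w := d.w
  hφ := d.hφ
  hw := by
    rw [← d.hw, sum_comm]
    exact sum_congr rfl fun a _ => sum_congr rfl fun m _ => by ring
  hk i m := by rw [dl_comm, ← d.kh]; exact sum_congr rfl fun l _ => mul_comm _ _
  kh a j := by rw [dl_comm, ← d.hk]; exact sum_congr rfl fun l _ => mul_comm _ _
  DD := d.BB
  BB := d.DD
  DB a b f := (d.DB b a f).symm
  Dc := d.Bc
  Bc := d.Dc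
  K1 m i j := d.K2 m j i
  K2 l i j := d.K1 l j i
  curv i j m l := by
    have e := d.curv j i l m
    have e2 : ∑ q, ∑ p, d.Db i (d.h q m) * d.k p q * d.D j (d.h l p) =
        ∑ q, ∑ p, d.D j (d.h l q) * d.k q p * d.Db i (d.h p m) := by
      rw [sum_comm]
      exact sum_congr rfl fun a _ => sum_congr rfl fun m _ => by ring
    simp only [← d.DB]
    rw [e2]
    linear_combination e

theorem der_k (X : Derivation ℂ A A) (a m : ι) :
    X (d.k a m) = -∑ b, (∑ s, d.k a s * X (d.h s b)) * d.k b m := by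
  have e1 : ∀ l, ∑ s, X (d.k a s) * d.h s l = -∑ s, d.k a s * X (d.h s l) := by
    intro l
    have e := congrArg X (d.kh a l)
    rw [der_dl, map_sum] at e
    rw [eq_neg_iff_add_eq_zero, ← sum_add_distrib, ← e]
    exact sum_congr rfl fun s _ => by rw [Derivation.leibniz, smul_eq_mul, smul_eq_mul]; ring
  have e2 : ∑ l, (∑ s, X (d.k a s) * d.h s l) * d.k l m = ∑ s, X (d.k a s) * dl A s m := by
    simp only [sum_mul, ← d.hk, mul_sum]
    rw [sum_comm]
    exact sum_congr rfl fun s _ => sum_congr rfl fun l _ => by ring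
  rw [sum_mul_dl] at e2
  rw [← e2, ← sum_neg_distrib]
  exact sum_congr rfl fun l _ => by rw [e1]; ring

/-- the frame dual to the antiholomorphic coordinate fields -/
def E (a : ι) : Derivation ℂ A A := ∑ m, d.k a m • d.D m

theorem E_apply (a : ι) (f : A) : d.E a f = ∑ m, d.k a m * d.D m f := by
  simp only [E, der_sum_apply, Derivation.smul_apply, smul_eq_mul]

theorem h_E (i : ι) (f : A) : ∑ a, d.h i a * d.E a f = d.D i f := by
  have e : ∑ a, d.h i a * d.E a f = ∑ m, d.D m f * dl A i m := by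
    simp only [E_apply, mul_sum, ← d.hk]
    rw [sum_comm]
    exact sum_congr rfl fun s _ => sum_congr rfl fun l _ => by ring
  rw [e, sum_mul_dl']

theorem E_E (a b : ι) (f : A) : d.E a (d.E b f) =
    ∑ i, ∑ m, d.k a i * d.k b m * d.D i (d.D m f) -
      ∑ i, ∑ s, d.k a i * d.k b s * ∑ m, ∑ l, d.D i (d.h s l) * d.k l m * d.D m f := by
  rw [d.E_apply a, ← sum_sub_distrib]
  refine sum_congr rfl fun i _ => ?_
  rw [d.E_apply b, map_sum]
  simp only [Derivation.leibniz, smul_eq_mul, d.der_k (d.D i), sum_add_distrib, mul_add, mul_neg,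
    sum_neg_distrib, mul_sum, sum_mul, sub_eq_add_neg]
  congr 1
  · exact sum_congr rfl fun m _ => by ring
  · congr 1
    rw [sum_comm (s := univ) (t := univ) (f := fun s m => ∑ l, d.k a i * d.k b s *
      (d.D i (d.h s l) * d.k l m * d.D m f))]
    refine sum_congr rfl fun m _ => ?_
    rw [sum_comm]
    exact sum_congr rfl fun s _ => sum_congr rfl fun l _ => by ring

theorem kk_h (a b : ι) (x : ι → A) (l : ι) :
    ∑ i, ∑ m, d.k a i * d.k b m * (x i * d.h m l) = (∑ i, d.k a i * x i) * dl A b l := by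
  rw [← d.kh, sum_mul_sum]
  exact sum_congr rfl fun s _ => sum_congr rfl fun l _ => by ring

/-- the frame description -/
def toFr {wi : A} (hwi : d.w * wi = 1) : Fr ι A where
  E := d.E
  F := d.Db
  Γ b j l := ∑ m, d.k b m * d.Db j (d.h m l)
  φ := d.φ
  φi := d.φi
  c := d.c
  w := d.w
  wi := wi
  S a j := algebraMap ℂ A (1 / 4) *
    ((d.c * d.φi + d.w * d.φi ^ 2) * dl A a j - d.φi * d.E a (d.Db j d.φ))
  hφ := d.hφ
  hw := by
    rw [← d.hw]
    exact sum_congr rfl fun a _ => by rw [d.E_apply, sum_mul]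
  hwi := hwi
  Ec a := by simp [E_apply, d.Dc]
  EE a b f := by
    rw [E_E, E_E]
    congr 1
    · rw [sum_comm]
      exact sum_congr rfl fun s _ => sum_congr rfl fun l _ => by rw [d.DD]; ring
    · rw [sum_comm]
      exact sum_congr rfl fun s _ => sum_congr rfl fun l _ => by
        simp only [d.K1 l s]; ring
  FF := d.BB
  FE j a f := by
    rw [d.E_apply, d.E_apply, map_sum]
    simp only [Derivation.leibniz, smul_eq_mul, d.der_k (d.Db j), sum_add_distrib, mul_neg,
      sum_neg_distrib, sub_eq_add_neg, d.DB, d.E_apply]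
    congr 2
    simp only [mul_sum]
    rw [sum_comm]
    exact sum_congr rfl fun s _ => sum_congr rfl fun l _ => by ring
  Γs b j l := sum_congr rfl fun m _ => by rw [d.K2]
  hS a j := by
    rw [← mul_assoc, show (4 : A) = algebraMap ℂ A 4 from (map_ofNat _ 4).symm, ← map_mul]
    norm_num
  curv a b j l := by
    have q4 : (4 : A) * algebraMap ℂ A (1 / 4) = 1 := by
      rw [show (4 : A) = algebraMap ℂ A 4 from (map_ofNat _ 4).symm, ← map_mul]
      norm_num
    set ψ := d.c * d.φi + d.w * d.φi ^ 2 with hψ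
    have e1 : -d.E a (∑ m, d.k b m * d.Db j (d.h m l)) = ∑ i, ∑ m, d.k a i * d.k b m *
        (-d.D i (d.Db j (d.h m l)) + ∑ q, ∑ p, d.D i (d.h m q) * d.k q p * d.Db j (d.h p l)) := by
      rw [d.E_apply a, ← sum_neg_distrib]
      refine sum_congr rfl fun i _ => ?_
      rw [map_sum]
      simp only [Derivation.leibniz, smul_eq_mul, d.der_k (d.D i), sum_add_distrib, mul_add,
        mul_neg, sum_neg_distrib, mul_sum, sum_mul, neg_add, neg_neg]
      congr 1
      · congr 1
        exact sum_congr rfl fun m _ => by ring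
      · rw [sum_comm]
        conv_rhs => rw [sum_comm]
        refine sum_congr rfl fun q _ => ?_
        rw [sum_comm]
        exact sum_congr rfl fun s _ => sum_congr rfl fun l _ => by ring
    have e2 : ∀ a j, ∑ i, d.k a i * (ψ * d.h i j - d.φi * d.D i (d.Db j d.φ)) =
        ψ * dl A a j - d.φi * d.E a (d.Db j d.φ) := by
      intro a j
      rw [← d.kh, d.E_apply, mul_sum, mul_sum, ← sum_sub_distrib]
      exact sum_congr rfl fun s _ => by ring
    have s1 := d.kk_h a b (fun i => ψ * d.h i j - d.φi * d.D i (d.Db j d.φ)) l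
    have s2 := d.kk_h b a (fun i => ψ * d.h i l - d.φi * d.D i (d.Db l d.φ)) j
    have s3 := d.kk_h a b (fun i => ψ * d.h i l - d.φi * d.D i (d.Db l d.φ)) j
    have s4 := d.kk_h b a (fun i => ψ * d.h i j - d.φi * d.D i (d.Db j d.φ)) l
    rw [e2] at s1 s2 s3 s4
    rw [sum_comm] at s2 s4
    have e3 : 4 * -d.E a (∑ m, d.k b m * d.Db j (d.h m l)) =
        (ψ * dl A a j - d.φi * d.E a (d.Db j d.φ)) * dl A b l +
        (ψ * dl A b l - d.φi * d.E b (d.Db l d.φ)) * dl A a j +
        (ψ * dl A a l - d.φi * d.E a (d.Db l d.φ)) * dl A b j +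
        (ψ * dl A b j - d.φi * d.E b (d.Db j d.φ)) * dl A a l := by
      rw [e1, ← s1, ← s2, ← s3, ← s4, mul_sum, ← sum_add_distrib, ← sum_add_distrib,
        ← sum_add_distrib]
      refine sum_congr rfl fun i _ => ?_
      rw [mul_sum, ← sum_add_distrib, ← sum_add_distrib, ← sum_add_distrib]
      exact sum_congr rfl fun m _ => by linear_combination d.k a i * d.k b m * d.curv i j m l
    linear_combination algebraMap ℂ A (1 / 4) * e3 +
      d.E a (∑ m, d.k b m * d.Db j (d.h m l)) * q4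

theorem D_of_E {g g' k : A} (h : ∀ a, k * d.E a g = g' * d.E a d.φ) (i : ι) :
    k * d.D i g = g' * d.D i d.φ := by
  rw [← d.h_E, ← d.h_E, mul_sum, mul_sum]
  exact sum_congr rfl fun a _ => by linear_combination d.h i a * h a

theorem hess_E {p : A} {x y : ι → A} (h : ∀ i j, d.D i (d.Db j d.φ) = p * d.h i j + x i * y j)
    (a j : ι) : d.E a (d.Db j d.φ) = p * dl A a j + (∑ i, d.k a i * x i) * y j := by
  rw [d.E_apply, ← d.kh, mul_sum, sum_mul, ← sum_add_distrib]
  exact sum_congr rfl fun i _ => by rw [h]; ring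

theorem hess_D {p : A} {y : ι → A}
    (h : ∀ a j, d.E a (d.Db j d.φ) = p * dl A a j + d.E a d.φ * y j)
    (i j : ι) : d.D i (d.Db j d.φ) = p * d.h i j + d.D i d.φ * y j := by
  rw [← d.h_E, ← d.h_E, ← sum_mul_dl (fun a => p * d.h i a), sum_mul, ← sum_add_distrib]
  exact sum_congr rfl fun a _ => by rw [h]; ring

theorem main [IsReduced A] (hn : 3 ≤ Fintype.card ι) {wi ci : A} (hwi : d.w * wi = 1)
    (hc : d.c * ci = 1) :
    d.w = -(2 * d.c * d.φ) ∧ ∀ i j, d.D i (d.Db j d.φ) = -d.c * d.h i j := by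
  obtain ⟨p, ν, h1⟩ := (d.toFr hwi).stepA hn
  obtain ⟨p', ν', h2⟩ := (d.swap.toFr hwi).stepA hn
  have h3 : ∀ i j, d.D i (d.Db j d.φ) = p' * d.h i j + ν' i * d.Db j d.φ := fun i j => by
    have e : d.Db j (d.D i d.φ) = p' * d.h i j + d.Db j d.φ * ν' i := d.swap.hess_D h2 j i
    rw [d.DB, e]; ring
  obtain ⟨q, h4⟩ := (d.toFr hwi).stepA2 hn h1 (d.hess_E h3)
  have h5 : ∀ i j, d.D i (d.Db j d.φ) = p * d.h i j + d.D i d.φ * (q * d.Db j d.φ) :=
    d.hess_D fun a j => by
      have e : d.E a (d.Db j d.φ) = p * dl A a j + q * d.E a d.φ * d.Db j d.φ := h4 a j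
      rw [e]; ring
  have h6 : ∀ a j, d.swap.E a (d.D j d.φ) = p * dl A a j + q * d.swap.E a d.φ * d.D j d.φ := by
    intro a j
    have e := d.swap.hess_E (p := p) (x := fun i => d.Db i d.φ) (y := fun j => q * d.D j d.φ)
      (fun i j => by
        change d.Db i (d.D j d.φ) = p * d.h j i + d.Db i d.φ * (q * d.D j d.φ)
        rw [← d.DB, h5]; ring) a j
    have e' : d.swap.E a d.φ = ∑ i, d.swap.k a i * d.Db i d.φ := d.swap.E_apply a d.φ
    rw [← e'] at e
    refine e.trans ?_
    ring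
  obtain ⟨b1, b2, b3, -, -⟩ := (d.swap.toFr hwi).stepB hn h6
  have Fp : ∀ j, d.Db j p = p * q * d.Db j d.φ := fun j => by
    have e := d.swap.D_of_E (k := 1) (g := p) (g' := p * q) (fun a => by rw [one_mul]; exact b1 a) j
    rw [one_mul] at e
    exact e
  have Fw := d.swap.D_of_E b2
  have Fq := d.swap.D_of_E b3
  have hq : q = 0 := (d.toFr hwi).stepC hn d.Bc h4 Fp Fw Fq
  subst hq
  obtain ⟨r1, r2⟩ := (d.toFr hwi).stepD hn d.Bc hc h4 Fp Fw
  refine ⟨r2, fun i j => ?_⟩
  rw [h5, r1]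
  simp only [zero_mul, mul_zero, add_zero]
  rfl

theorem der_det (X : Derivation ℂ A A) :
    X (Matrix.of d.h).det = (Matrix.of d.h).det * ∑ i, ∑ j, d.k j i * X (d.h i j) := by
  have e1 : X (Matrix.of d.h).det =
      ∑ i, ((Matrix.of d.h).updateRow i fun j => X (d.h i j)).det := by
    simp only [Matrix.det_apply', map_sum, Derivation.leibniz, smul_eq_mul,
      Derivation.map_intCast, mul_zero, add_zero]
    rw [sum_comm]
    refine sum_congr rfl fun σ _ => ?_
    rw [← mul_sum, der_prod]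
    congr 1
    refine Eq.trans ?_ (Equiv.sum_comp σ _)
    refine sum_congr rfl fun i _ => ?_
    rw [← Finset.mul_prod_erase univ _ (mem_univ i), Matrix.updateRow_self]
    congr 1
    refine prod_congr rfl fun j hj => ?_
    rw [Matrix.updateRow_ne (σ.injective.ne (ne_of_mem_erase hj))]
  rw [e1, mul_sum]
  refine sum_congr rfl fun i _ => ?_
  have e2 : (fun j => X (d.h i j)) = ∑ s, (∑ j, d.k j s * X (d.h i j)) • Matrix.of d.h s := by
    funext l
    simp only [Finset.sum_apply, Pi.smul_apply, Matrix.of_apply, smul_eq_mul, sum_mul]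
    rw [sum_comm, ← sum_mul_dl (fun j => X (d.h i j)) l]
    refine sum_congr rfl fun j _ => ?_
    rw [← d.kh, mul_sum]
    exact sum_congr rfl fun s _ => by ring
  rw [e2, Matrix.det_updateRow_sum, smul_eq_mul, mul_comm]

theorem div_grad : ∑ m, d.D m ((Matrix.of d.h).det * ∑ l, d.k l m * d.Db l d.φ) =
    (Matrix.of d.h).det * ∑ m, ∑ l, d.k l m * d.D m (d.Db l d.φ) := by
  have e1 : ∀ l, ∑ m, d.D m (d.k l m) = -∑ s, d.k l s * ∑ i, ∑ j, d.k j i * d.D s (d.h i j) := by
    intro l
    simp only [d.der_k, sum_neg_distrib, sum_mul, mul_sum]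
    congr 1
    conv_rhs => rw [sum_comm]
    refine sum_congr rfl fun m _ => ?_
    rw [sum_comm]
    exact sum_congr rfl fun s _ => sum_congr rfl fun b _ => by rw [d.K1 m s b]; ring
  have e2 : ∑ m, ∑ l, d.Db l d.φ * d.D m (d.k l m) =
      -∑ m, (∑ l, d.k l m * d.Db l d.φ) * ∑ i, ∑ j, d.k j i * d.D m (d.h i j) := by
    rw [sum_comm]
    simp only [← mul_sum, e1]
    simp only [mul_neg, sum_neg_distrib, sum_mul]
    congr 1
    rw [sum_comm]
    refine sum_congr rfl fun l _ => ?_
    rw [mul_sum]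
    exact sum_congr rfl fun s _ => by ring
  simp only [Derivation.leibniz, smul_eq_mul, map_sum, d.der_det, sum_add_distrib, mul_add,
    ← mul_sum]
  rw [e2]
  have e3 : ∑ m, (∑ l, d.k l m * d.Db l d.φ) * ((Matrix.of d.h).det *
      ∑ i, ∑ j, d.k j i * d.D m (d.h i j)) = (Matrix.of d.h).det *
      ∑ m, (∑ l, d.k l m * d.Db l d.φ) * ∑ i, ∑ j, d.k j i * d.D m (d.h i j) := by
    rw [mul_sum]
    exact sum_congr rfl fun s _ => by ring
  rw [e3]
  ring

end Dat

end Pool.Agent.P.MP_3e99c6_gt
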