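import Pool.Agent.P.MP_3e99c6_gt.SDefs

/-! Unfolded forms of the definitions. -/

open scoped ContDiff Manifold
open Complex

noncomputable section

namespace Pool.Agent.P.MP_3e99c6_gt

variable {n : ℕ}

/-- `dω (u, v, w)` at `y` for the Kaehler form `ω (v, w) = G (J v, w)`. -/
def dOmega (G : V n → Bil n) (y u v w : V n) : ℝ :=
  fderiv ℝ G y u (I • v) w + fderiv ℝ G y v (I • w) u + fderiv ℝ G y w (I • u) v

/-- `Γ` is the Christoffel map on `U` of the Bismut connection of `G`: a smooth connection with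
`∇ G = 0`, `∇ J = 0` and totally skew-symmetric torsion. -/
structure IsBismut (G : V n → Bil n) (Γ : V n → Chr n) (U : Set (V n)) : Prop where
  smooth : ContDiffOn ℝ ∞ Γ U
  metric : ∀ y ∈ U, ∀ u v w, fderiv ℝ G y u v w = G y (Γ y u v) w + G y v (Γ y u w)
  cx : ∀ y ∈ U, ∀ u v, Γ y u (I • v) = I • Γ y u v
  skew : ∀ y ∈ U, ∀ u v w, G y (Γ y u v - Γ y v u) w = -G y (Γ y u w - Γ y w u) v

/-- The curvature `R (X, Y) Z = ∇_X ∇_Y Z - ∇_Y ∇_X Z - ∇_[X,Y] Z` at `y`. -/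
def curv (Γ : V n → Chr n) (y X Y Z : V n) : V n :=
  fderiv ℝ Γ y X Y Z - fderiv ℝ Γ y Y X Z + Γ y X (Γ y Y Z) - Γ y Y (Γ y X Z)

variable {M : Type*} [TopologicalSpace M] [ChartedSpace (V n) M]

/-- `g` is a smooth Riemannian metric with `g (J v, J w) = g (v, w)`. -/
structure IsHermitian (g : M → Bil n) : Prop where
  symm : ∀ x v w, g x v w = g x w v
  pos : ∀ x v, v ≠ 0 → 0 < g x v v
  cx : ∀ x v w, g x (I • v) (I • w) = g x v w
  smooth : ∀ p, ContDiffOn ℝ ∞ (inChart g p) (chartAt (V n) p).target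

/-- The Kaehler form of `g` is closed on `N`. -/
def ClosedOn (g : M → Bil n) (N : Set M) : Prop :=
  ∀ p, ∀ x ∈ N ∩ (chartAt (V n) p).source, ∀ u v w,
    dOmega (inChart g p) (chartAt (V n) p x) u v w = 0

/-- `g` is Kaehler. -/
def IsKaehler (g : M → Bil n) : Prop := ClosedOn g Set.univ

/-- `g` is locally conformally Kaehler. -/
def IsLCK (g : M → Bil n) : Prop :=
  ∀ x, ∃ N, IsOpen N ∧ x ∈ N ∧ ∃ u : M → ℝ, ContMDiffOn 𝓘(ℝ, V n) 𝓘(ℝ, ℝ) ∞ u N ∧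
    ClosedOn (fun z => Real.exp (u z) • g z) N

/-- The Bismut holomorphic sectional curvature `g (R (v, J v) J v, v) / |v| ^ 4` is constant and
equal to `c`. -/
def ConstHSC (g : M → Bil n) (c : ℝ) : Prop :=
  ∀ p, ∃ Γ, IsBismut (inChart g p) Γ (chartAt (V n) p).target ∧
    ∀ y ∈ (chartAt (V n) p).target, ∀ v,
      inChart g p y (curv Γ y v (I • v) (I • v)) v = c * inChart g p y v v ^ 2

theorem S.IsHermitian.un {g : M → Bil n} (h : S.IsHermitian g) :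
    _root_.Pool.Agent.P.MP_3e99c6_gt.IsHermitian g :=
  ⟨h.1, h.2, h.3, h.4⟩

theorem S.ConstHSC.un {g : M → Bil n} {c : ℝ} (h : S.ConstHSC g c) :
    _root_.Pool.Agent.P.MP_3e99c6_gt.ConstHSC g c := fun p =>
  let ⟨Γ, hB, hΓ⟩ := h p
  ⟨Γ, ⟨hB.1, hB.2, hB.3, hB.4⟩, hΓ⟩

end Pool.Agent.P.MP_3e99c6_gt
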