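import Mathlib

/-! Algebra of a Kaehler metric with a conformal factor, in the frame dual to the coordinates. -/

noncomputable section

namespace Pool.Agent.P.MP_3e99c6_gt

open Finset

variable {ι A : Type} [Fintype ι] [DecidableEq ι] [CommRing A] [Algebra ℂ A]

/-- Kronecker delta -/
def dl (A : Type) [CommRing A] {ι : Type} [DecidableEq ι] (a j : ι) : A := if a = j then 1 else 0

omit [Algebra ℂ A] in
@[simp] theorem sum_mul_dl (x : ι → A) (j : ι) : ∑ a, x a * dl A a j = x j := by simp [dl]
omit [Algebra ℂ A] in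
@[simp] theorem sum_mul_dl' (x : ι → A) (j : ι) : ∑ a, x a * dl A j a = x j := by simp [dl]
omit [Algebra ℂ A] [Fintype ι] in
@[simp] theorem dl_self (j : ι) : dl A j j = 1 := by simp [dl]
omit [Algebra ℂ A] [Fintype ι] in
theorem dl_comm (a j : ι) : dl A a j = dl A j a := by simp [dl, eq_comm]
omit [Fintype ι] in
@[simp] theorem der_dl (D : Derivation ℂ A A) (a j : ι) : D (dl A a j) = 0 := by
  unfold dl; split_ifs <;> simp

theorem cancel_nat (k : ℕ) (hk : k ≠ 0) {x : A} (h : (k : A) * x = 0) : x = 0 := by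
  have hu : IsUnit (k : A) := by
    have : IsUnit ((k : ℂ)) := isUnit_iff_ne_zero.2 (by exact_mod_cast hk)
    simpa using this.map (algebraMap ℂ A)
  exact hu.mul_right_eq_zero.1 h

omit [Algebra ℂ A] in
theorem cancel_unit {w wi x : A} (hw : w * wi = 1) (h : w * x = 0) : x = 0 := by
  linear_combination wi * h - x * hw

/-- the basic rank argument -/
theorem lemL (hn : 3 ≤ Fintype.card ι) {α β x y : ι → A} {M : ι → ι → A} {w wi : A}
    (hw : ∑ a, α a * β a = w) (hu : w * wi = 1)
    (h : ∀ c a j, M c a * β j = x a * dl A c j + y c * dl A a j) :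
    (∀ a, x a = 0) ∧ (∀ a, y a = 0) ∧ ∀ c a, M c a = 0 := by
  obtain ⟨m, hm⟩ := Nat.exists_eq_add_of_le hn
  have hcard : (Fintype.card ι : A) = 3 + m := by rw [hm]; push_cast; ring
  have h1 : ∀ c a, w * M c a = x a * α c + y c * α a := by
    intro c a
    have e : ∑ j, α j * (M c a * β j) = ∑ j, ((x a * α j) * dl A c j + (y c * α j) * dl A a j) :=
      sum_congr rfl fun j _ => by rw [h]; ring
    rw [sum_add_distrib, sum_mul_dl', sum_mul_dl'] at e
    rw [← e, ← hw, sum_mul]
    exact sum_congr rfl fun j _ => by ring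
  have h2 : ∀ a, ∑ c, M c a * β c = (3 + m) * x a + y a := by
    intro a
    rw [sum_congr rfl fun c _ => h c a c, sum_add_distrib, sum_mul_dl']
    simp [hcard]
  have h3 : ∀ c, ∑ a, M c a * β a = x c + (3 + m) * y c := by
    intro c
    rw [sum_congr rfl fun a _ => h c a a, sum_add_distrib, sum_mul_dl']
    simp [hcard]
  set X := ∑ a, x a * β a with hX
  set Y := ∑ a, y a * β a with hY
  have h4 : ∀ a, w * ((2 + m) * x a + y a) = Y * α a := by
    intro a
    have e : w * ∑ c, M c a * β c = x a * ∑ c, α c * β c + (∑ c, y c * β c) * α a := by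
      rw [mul_sum, mul_sum, sum_mul, ← sum_add_distrib]
      exact sum_congr rfl fun c _ => by linear_combination β c * h1 c a
    rw [h2, hw] at e
    linear_combination e
  have h5 : ∀ c, w * (x c + (2 + m) * y c) = X * α c := by
    intro c
    have e : w * ∑ a, M c a * β a = (∑ a, x a * β a) * α c + y c * ∑ a, α a * β a := by
      rw [mul_sum, mul_sum, sum_mul, ← sum_add_distrib]
      exact sum_congr rfl fun a _ => by linear_combination β a * h1 c a
    rw [h3, hw] at e
    linear_combination e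
  have hX0 : X = 0 := by
    have e : w * ((2 + m) * ∑ a, x a * β a + ∑ a, y a * β a) = Y * ∑ a, α a * β a := by
      rw [mul_sum, mul_sum, ← sum_add_distrib, mul_sum]
      exact sum_congr rfl fun a _ => by linear_combination β a * h4 a
    rw [hw] at e
    apply cancel_nat (2 + m) (by omega)
    apply cancel_unit hu
    push_cast
    linear_combination e
  have hY0 : Y = 0 := by
    have e : w * (∑ a, x a * β a + (2 + m) * ∑ a, y a * β a) = X * ∑ a, α a * β a := by
      rw [mul_sum, mul_sum, ← sum_add_distrib, mul_sum]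
      exact sum_congr rfl fun a _ => by linear_combination β a * h5 a
    rw [hw] at e
    apply cancel_nat (2 + m) (by omega)
    apply cancel_unit hu
    push_cast
    linear_combination e
  have h6 : ∀ a, (2 + m) * x a + y a = 0 := fun a =>
    cancel_unit hu (by rw [h4, hY0, zero_mul])
  have h7 : ∀ a, x a + (2 + m) * y a = 0 := fun a =>
    cancel_unit hu (by rw [h5, hX0, zero_mul])
  have hx : ∀ a, x a = 0 := fun a => by
    apply cancel_nat ((1 + m) * (3 + m)) (by positivity)
    push_cast
    linear_combination (2 + m) * h6 a - h7 a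
  have hy : ∀ a, y a = 0 := fun a => by
    have := h6 a
    rw [hx a] at this
    simpa using this
  exact ⟨hx, hy, fun c a => cancel_unit hu (by rw [h1, hx, hy]; ring)⟩

/-- Frame data: `E a` is the frame dual to the antiholomorphic coordinate fields `F j`. -/
structure Fr (ι A : Type) [Fintype ι] [DecidableEq ι] [CommRing A] [Algebra ℂ A] where
  E : ι → Derivation ℂ A A
  F : ι → Derivation ℂ A A
  Γ : ι → ι → ι → A
  φ : A
  φi : A
  c : A
  w : A
  wi : A
  S : ι → ι → A
  hφ : φ * φi = 1
  hw : ∑ a, E a φ * F a φ = w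
  hwi : w * wi = 1
  Ec : ∀ a, E a c = 0
  EE : ∀ a b f, E a (E b f) = E b (E a f)
  FF : ∀ a b f, F a (F b f) = F b (F a f)
  FE : ∀ j a f, F j (E a f) = E a (F j f) - ∑ b, Γ a j b * E b f
  Γs : ∀ b j l, Γ b j l = Γ b l j
  hS : ∀ a j, 4 * S a j = (c * φi + w * φi ^ 2) * dl A a j - φi * E a (F j φ)
  curv : ∀ a b j l, -E a (Γ b j l) =
    S a j * dl A b l + S b l * dl A a j + S a l * dl A b j + S b j * dl A a l

theorem der_inv (D : Derivation ℂ A A) {u v : A} (h : u * v = 1) : D v = -(v ^ 2 * D u) := by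
  have e := congrArg D h
  rw [Derivation.leibniz, Derivation.map_one_eq_zero, smul_eq_mul, smul_eq_mul] at e
  linear_combination v * e - D v * h

namespace Fr

variable (f : Fr ι A)

theorem bianchi (hn : 3 ≤ Fintype.card ι) :
    ∃ τ : ι → A, ∀ c a j, f.E c (f.S a j) = 2 * τ a * dl A c j + τ c * dl A a j := by
  obtain ⟨m, hm⟩ := Nat.exists_eq_add_of_le hn
  have hcard : (Fintype.card ι : A) = 3 + m := by rw [hm]; push_cast; ring
  set s : ι → ι → ι → A := fun c a j => f.E c (f.S a j) with hs
  have h0 : ∀ c a b j l, s c a j * dl A b l + s c b l * dl A a j + s c a l * dl A b j +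
      s c b j * dl A a l = s a c j * dl A b l + s a b l * dl A c j + s a c l * dl A b j +
      s a b j * dl A c l := by
    intro c a b j l
    have e1 := congrArg (f.E c) (f.curv a b j l)
    have e2 := congrArg (f.E a) (f.curv c b j l)
    simp only [map_neg, map_add, Derivation.leibniz, der_dl, smul_eq_mul] at e1 e2
    rw [f.EE] at e1
    simp only [hs]
    linear_combination e2 - e1
  set t : ι → A := fun c => ∑ a, s c a a with ht
  set p : ι → A := fun b => ∑ a, s a b a with hp
  have h1 : ∀ c b l, (4 + m) * s c b l - s b c l = p b * dl A c l - (t c - p c) * dl A b l := by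
    intro c b l
    have e := sum_congr (s₁ := (univ : Finset ι)) rfl fun a _ => h0 c a b a l
    simp only [sum_add_distrib, ← sum_mul, sum_mul_dl, sum_mul_dl', dl_self, mul_one, sum_const,
      card_univ, nsmul_eq_mul, hcard] at e
    simp only [ht, hp]
    linear_combination e
  obtain ⟨u, hu⟩ : ∃ u : A, (5 + m) * u = 1 := by
    have : IsUnit (((5 + m : ℕ) : ℂ)) := isUnit_iff_ne_zero.2 (by exact_mod_cast (by omega))
    obtain ⟨u, hu⟩ := (this.map (algebraMap ℂ A)).exists_right_inv
    rw [map_natCast] at hu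
    exact ⟨u, by exact_mod_cast hu⟩
  have h2 : ∀ c b l, s c b l - s b c l = u * t b * dl A c l - u * t c * dl A b l := by
    intro c b l
    linear_combination u * h1 c b l - u * h1 b c l - (s c b l - s b c l) * hu
  have h3 : ∀ c b l, (3 + m) * s c b l =
      (p b - u * t b) * dl A c l + (p c - t c + u * t c) * dl A b l := by
    intro c b l
    linear_combination h1 c b l - h2 c b l
  have h4 : ∀ c, p c = (7 + 2 * m) * (u * t c) := by
    intro c
    have e := sum_congr (s₁ := (univ : Finset ι)) rfl fun b _ => h3 c b b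
    simp only [sum_add_distrib, ← mul_sum, sum_mul_dl', dl_self, mul_one, sum_const,
      card_univ, nsmul_eq_mul, hcard] at e
    have e' : (3 + m) * t c = p c - u * t c + (3 + m) * (p c - t c + u * t c) := by
      simp only [ht] at e ⊢
      linear_combination e
    have : ((4 + m : ℕ) : A) * (p c - (7 + 2 * m) * (u * t c)) = 0 := by
      push_cast
      linear_combination -e' - 2 * (3 + m) * t c * hu
    exact sub_eq_zero.1 (cancel_nat _ (by omega) this)
  refine ⟨fun c => u * t c, fun c a j => ?_⟩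
  have : ((3 + m : ℕ) : A) * (s c a j - (2 * (u * t a) * dl A c j + u * t c * dl A a j)) = 0 := by
    push_cast
    rw [mul_sub, h3, h4, h4]
    linear_combination t c * dl A a j * hu
  exact sub_eq_zero.1 (cancel_nat _ (by omega) this)

theorem E_hS (c a j : ι) : 4 * f.E c (f.S a j) =
    (-(f.c * f.φi ^ 2 * f.E c f.φ) + f.φi ^ 2 * f.E c f.w - 2 * f.w * f.φi ^ 3 * f.E c f.φ) *
      dl A a j + f.φi ^ 2 * f.E c f.φ * f.E a (f.F j f.φ) - f.φi * f.E c (f.E a (f.F j f.φ)) := by
  have e := congrArg (f.E c) (f.hS a j)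
  have h4 : f.E c (4 : A) = 0 := by
    simpa using (f.E c).map_natCast 4
  simp only [map_sub, map_add, Derivation.leibniz, der_dl, smul_eq_mul, pow_two, h4, f.Ec,
    der_inv _ f.hφ] at e
  linear_combination e

theorem stepA (hn : 3 ≤ Fintype.card ι) :
    ∃ (p : A) (ν : ι → A), ∀ a j, f.E a (f.F j f.φ) = p * dl A a j + f.E a f.φ * ν j := by
  obtain ⟨τ, hτ⟩ := f.bianchi hn
  set ψ : ι → A := fun c => -(f.c * f.φi ^ 2 * f.E c f.φ) + f.φi ^ 2 * f.E c f.w -
    2 * f.w * f.φi ^ 3 * f.E c f.φ with hψ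
  set lam : ι → A := fun a => f.φ ^ 2 * (4 * τ a + ψ a) with hlam
  set H : ι → ι → A := fun a j => f.E a (f.F j f.φ) with hH
  have Z : ∀ c a j, H a j * f.E c f.φ - H c j * f.E a f.φ =
      lam a * dl A c j - lam c * dl A a j := by
    intro c a j
    have e1 := f.E_hS c a j
    have e2 := f.E_hS a c j
    rw [hτ] at e1 e2
    rw [f.EE c a] at e1
    have hφ := f.hφ
    simp only [hlam, hψ, hH]
    linear_combination (-f.φ ^ 2) * (e1 - e2) - (f.φ * f.φi + 1) *
      (f.E a (f.F j f.φ) * f.E c f.φ - f.E c (f.F j f.φ) * f.E a f.φ) * hφ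
  set ρ : ι → A := fun j => ∑ c, H c j * f.F c f.φ with hρ
  set L := ∑ c, lam c * f.F c f.φ with hL
  have Z1 : ∀ a j, f.w * H a j = f.E a f.φ * ρ j + lam a * f.F j f.φ - L * dl A a j := by
    intro a j
    have e : H a j * ∑ c, f.E c f.φ * f.F c f.φ - f.E a f.φ * ∑ c, H c j * f.F c f.φ =
        ∑ c, (lam a * f.F c f.φ) * dl A c j - (∑ c, lam c * f.F c f.φ) * dl A a j := by
      rw [mul_sum, mul_sum, sum_mul, ← sum_sub_distrib, ← sum_sub_distrib]
      exact sum_congr rfl fun c _ => by linear_combination f.F c f.φ * Z c a j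
    rw [f.hw, sum_mul_dl] at e
    linear_combination e
  set κ : ι → A := fun a => f.w * lam a - L * f.E a f.φ with hκ
  have Z2 := lemL hn (M := fun c a => lam a * f.E c f.φ - lam c * f.E a f.φ) (x := κ)
    (y := fun c => -κ c) f.hw f.hwi (fun c a j => by
      simp only [hκ]
      linear_combination f.w * Z c a j - f.E c f.φ * Z1 a j + f.E a f.φ * Z1 c j)
  refine ⟨-(f.wi * L), fun j => f.wi * ρ j + f.wi ^ 2 * L * f.F j f.φ, fun a j => ?_⟩
  have k := Z2.1 a
  simp only [hκ] at k
  have hwi := f.hwi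
  change H a j = _
  linear_combination f.wi * Z1 a j + f.wi ^ 2 * f.F j f.φ * k -
    (H a j + f.wi * lam a * f.F j f.φ) * hwi

theorem stepA2 (hn : 3 ≤ Fintype.card ι) {p p' : A} {ν ν' : ι → A}
    (h : ∀ a j, f.E a (f.F j f.φ) = p * dl A a j + f.E a f.φ * ν j)
    (h' : ∀ a j, f.E a (f.F j f.φ) = p' * dl A a j + ν' a * f.F j f.φ) :
    ∃ q : A, ∀ a j, f.E a (f.F j f.φ) = p * dl A a j + q * f.E a f.φ * f.F j f.φ := by
  obtain ⟨m, hm⟩ := Nat.exists_eq_add_of_le hn
  have hcard : (Fintype.card ι : A) = 3 + m := by rw [hm]; push_cast; ring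
  have hd : ∀ a j, (p - p') * dl A a j = ν' a * f.F j f.φ - f.E a f.φ * ν j := fun a j => by
    linear_combination h' a j - h a j
  set U := ∑ a, ν' a * f.F a f.φ with hU
  set V := ∑ a, f.E a f.φ * ν a with hV
  have t1 : (3 + m) * (p - p') = U - V := by
    have e := sum_congr (s₁ := (univ : Finset ι)) rfl fun a _ => hd a a
    simp only [sum_sub_distrib, dl_self, mul_one, sum_const, card_univ, nsmul_eq_mul, hcard] at e
    linear_combination e
  have t2 : ∀ j, (p - p') * f.F j f.φ = U * f.F j f.φ - f.w * ν j := by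
    intro j
    have e : ∑ a, ((p - p') * f.F a f.φ) * dl A a j =
        (∑ a, ν' a * f.F a f.φ) * f.F j f.φ - (∑ a, f.E a f.φ * f.F a f.φ) * ν j := by
      rw [sum_mul, sum_mul, ← sum_sub_distrib]
      exact sum_congr rfl fun a _ => by linear_combination f.F a f.φ * hd a j
    rw [sum_mul_dl, f.hw] at e
    exact e
  have t3 : f.w * ((p - p') - (U - V)) = 0 := by
    have e : (p - p') * ∑ a, f.E a f.φ * f.F a f.φ =
        U * ∑ a, f.E a f.φ * f.F a f.φ - f.w * ∑ a, f.E a f.φ * ν a := by
      rw [mul_sum, mul_sum, mul_sum, ← sum_sub_distrib]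
      exact sum_congr rfl fun a _ => by linear_combination f.E a f.φ * t2 a
    rw [f.hw] at e
    linear_combination e
  have t4 : p - p' = 0 := by
    apply cancel_nat (2 + m) (by omega)
    push_cast
    linear_combination t1 - cancel_unit f.hwi t3
  refine ⟨f.wi * U, fun a j => ?_⟩
  have e := t2 j
  have hwi := f.hwi
  rw [t4] at e
  rw [h]
  linear_combination f.wi * f.E a f.φ * e - f.E a f.φ * ν j * hwi

end Fr

end Pool.Agent.P.MP_3e99c6_gt
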