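import Pool.Agent.P.MP_3e99c6_gt.Ode

/-! Consequences of the special form of the mixed Hessian. -/

noncomputable section

namespace Pool.Agent.P.MP_3e99c6_gt

open Finset

variable {ι A : Type} [Fintype ι] [DecidableEq ι] [CommRing A] [Algebra ℂ A]

theorem der_ofNat (D : Derivation ℂ A A) (k : ℕ) [k.AtLeastTwo] : 
    D (no_index (OfNat.ofNat k : A)) = 0 :=
  D.map_natCast k

theorem der_sum_apply {κ : Type} (s : Finset κ) (D : κ → Derivation ℂ A A) (g : A) :
    (∑ j ∈ s, D j) g = ∑ j ∈ s, D j g := by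
  classical
  induction s using Finset.induction_on with
  | empty => simp
  | insert a s ha ih => rw [sum_insert ha, sum_insert ha, Derivation.add_apply, ih]

/-- twice the derivative of `w` with respect to `φ` -/
def L2 (c w φ φi p q : A) : A := 2 * c + 4 * w * φi - 2 * p + p * q * φ
/-- twice the coefficient of the pure Hessian -/
def e2 (c w wi φ φi p q : A) : A := wi * (L2 c w φ φi p q - 2 * p - 2 * q * w)
/-- twice the derivative of `q` with respect to `φ` -/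
def Q2 (c w wi φ φi p q : A) : A := 2 * q * φi - (e2 c w wi φ φi p q + 2 * q) * q

namespace Fr

variable (f : Fr ι A) {p q : A}

theorem E_hess (h : ∀ a j, f.E a (f.F j f.φ) = p * dl A a j + q * f.E a f.φ * f.F j f.φ)
    (c a j : ι) : f.E c (f.E a (f.F j f.φ)) = f.E c p * dl A a j +
      f.E c q * f.E a f.φ * f.F j f.φ + q * f.E c (f.E a f.φ) * f.F j f.φ +
      q * f.E a f.φ * (p * dl A c j + q * f.E c f.φ * f.F j f.φ) := by
  rw [h a j]
  simp only [map_add, Derivation.leibniz, der_dl, smul_eq_mul, h c j]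
  ring

theorem stepB (hn : 3 ≤ Fintype.card ι)
    (h : ∀ a j, f.E a (f.F j f.φ) = p * dl A a j + q * f.E a f.φ * f.F j f.φ) :
    (∀ c, f.E c p = p * q * f.E c f.φ) ∧
    (∀ c, 2 * f.E c f.w = L2 f.c f.w f.φ f.φi p q * f.E c f.φ) ∧
    (∀ c, 2 * f.E c q = Q2 f.c f.w f.wi f.φ f.φi p q * f.E c f.φ) ∧
    (∀ c, 2 * ∑ a, f.E c (f.E a f.φ) * f.F a f.φ =
      f.w * e2 f.c f.w f.wi f.φ f.φi p q * f.E c f.φ) ∧
    (∀ c a, q * (2 * f.E c (f.E a f.φ) -
      e2 f.c f.w f.wi f.φ f.φi p q * f.E c f.φ * f.E a f.φ) = 0) := by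
  have hφ := f.hφ
  have hwi := f.hwi
  have h1 := (lemL hn (M := fun c a => f.E c q * f.E a f.φ - f.E a q * f.E c f.φ)
    (x := fun a => f.E a p - p * q * f.E a f.φ) (y := fun c => -(f.E c p - p * q * f.E c f.φ))
    f.hw f.hwi (fun c a j => by
      have e1 := f.E_hess h c a j
      have e2 := f.E_hess h a c j
      rw [f.EE c a, f.EE c a] at e1
      linear_combination e2 - e1)).1
  have hp : ∀ c, f.E c p = p * q * f.E c f.φ := fun c => sub_eq_zero.1 (h1 c)
  obtain ⟨τ, hτ⟩ := f.bianchi hn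
  obtain ⟨hx, hy, hM⟩ := lemL hn (M := fun c a => f.φi ^ 2 * q * f.E c f.φ * f.E a f.φ -
      f.φi * (f.E c q * f.E a f.φ + q * f.E c (f.E a f.φ) + q ^ 2 * f.E a f.φ * f.E c f.φ))
    (x := fun a => 8 * τ a + f.φi * q * p * f.E a f.φ)
    (y := fun c => 4 * τ c - (-(f.c * f.φi ^ 2 * f.E c f.φ) + f.φi ^ 2 * f.E c f.w -
      2 * f.w * f.φi ^ 3 * f.E c f.φ) - f.φi ^ 2 * p * f.E c f.φ + f.φi * f.E c p)
    f.hw f.hwi (fun c a j => by
      have e1 := f.E_hS c a j
      rw [hτ, f.E_hess h, h a j] at e1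
      linear_combination -e1)
  have hw : ∀ c, 2 * f.E c f.w = L2 f.c f.w f.φ f.φi p q * f.E c f.φ := by
    intro c
    have e1 := hx c
    have e2 := hy c
    rw [hp] at e2
    simp only [L2]
    linear_combination f.φ ^ 2 * (e1 - 2 * e2) - ((f.φ * f.φi + 1) * (2 * f.E c f.w -
      (2 * f.c + 4 * f.w * f.φi - 2 * p) * f.E c f.φ) - f.φ * p * q * f.E c f.φ) * hφ
  have hs : ∀ c, 2 * ∑ a, f.E c (f.E a f.φ) * f.F a f.φ =
      f.w * e2 f.c f.w f.wi f.φ f.φi p q * f.E c f.φ := by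
    intro c
    have e1 : f.E c f.w = ∑ a, f.E c (f.E a f.φ) * f.F a f.φ +
        (∑ a, (p * f.E a f.φ) * dl A c a + q * f.E c f.φ * ∑ a, f.E a f.φ * f.F a f.φ) := by
      rw [← f.hw, map_sum, mul_sum, ← sum_add_distrib, ← sum_add_distrib]
      refine sum_congr rfl fun a _ => ?_
      rw [Derivation.leibniz, smul_eq_mul, smul_eq_mul, h]
      ring
    rw [sum_mul_dl', f.hw] at e1
    have e2 := hw c
    simp only [Pool.Agent.P.MP_3e99c6_gt.e2]
    linear_combination e2 - 2 * e1 -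
      (L2 f.c f.w f.φ f.φi p q - 2 * p - 2 * q * f.w) * f.E c f.φ * hwi
  have hM' : ∀ c a, f.φi * q * f.E c f.φ * f.E a f.φ - f.E c q * f.E a f.φ -
      q * f.E c (f.E a f.φ) - q ^ 2 * f.E a f.φ * f.E c f.φ = 0 := by
    intro c a
    linear_combination f.φ * hM c a - (f.φi * q * f.E c f.φ * f.E a f.φ - f.E c q * f.E a f.φ -
      q * f.E c (f.E a f.φ) - q ^ 2 * f.E a f.φ * f.E c f.φ) * hφ
  have hq : ∀ c, 2 * f.E c q = Q2 f.c f.w f.wi f.φ f.φi p q * f.E c f.φ := by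
    intro c
    have e1 : (f.φi * q * f.E c f.φ - f.E c q - q ^ 2 * f.E c f.φ) * ∑ a, f.E a f.φ * f.F a f.φ =
        q * ∑ a, f.E c (f.E a f.φ) * f.F a f.φ := by
      rw [mul_sum, mul_sum]
      exact sum_congr rfl fun a _ => by linear_combination f.F a f.φ * hM' c a
    rw [f.hw] at e1
    rw [← sub_eq_zero]
    apply cancel_unit hwi
    simp only [Q2]
    linear_combination -2 * e1 - q * hs c
  refine ⟨hp, hw, hq, hs, fun c a => ?_⟩
  have e1 := hq c
  simp only [Q2] at e1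
  linear_combination -2 * hM' c a - f.E a f.φ * e1

theorem F_E_phi (j a : ι) : f.F j (f.E a f.φ) =
    f.E a (f.F j f.φ) - ∑ d, f.Γ a j d * f.E d f.φ := f.FE j a f.φ

/-- the Ricci identity -/
theorem ricci (j a b : ι) : f.F j (f.E a (f.E b f.φ)) + ∑ d, f.Γ a j d * f.E d (f.E b f.φ) +
    ∑ d, f.Γ b j d * f.E a (f.E d f.φ) = f.E a (f.E b (f.F j f.φ)) +
    (f.S a j * f.E b f.φ + (∑ d, f.S b d * f.E d f.φ) * dl A a j +
      (∑ d, f.S a d * f.E d f.φ) * dl A b j + f.S b j * f.E a f.φ) := by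
  have e1 : ∑ d, -f.E a (f.Γ b j d) * f.E d f.φ =
      ∑ d, (f.S a j * f.E d f.φ) * dl A b d + (∑ d, f.S b d * f.E d f.φ) * dl A a j +
      (∑ d, f.S a d * f.E d f.φ) * dl A b j + ∑ d, (f.S b j * f.E d f.φ) * dl A a d := by
    rw [sum_mul, sum_mul, ← sum_add_distrib, ← sum_add_distrib, ← sum_add_distrib]
    exact sum_congr rfl fun d _ => by rw [f.curv]; ring
  rw [sum_mul_dl', sum_mul_dl'] at e1
  have e2 : f.E a (∑ d, f.Γ b j d * f.E d f.φ) = ∑ d, f.Γ b j d * f.E a (f.E d f.φ) -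
      ∑ d, -f.E a (f.Γ b j d) * f.E d f.φ := by
    rw [map_sum, ← sum_sub_distrib]
    refine sum_congr rfl fun d _ => ?_
    rw [Derivation.leibniz, smul_eq_mul, smul_eq_mul]
    ring
  rw [f.FE, f.F_E_phi, map_sub, e2, e1]
  ring

theorem S_form (h : ∀ a j, f.E a (f.F j f.φ) = p * dl A a j + q * f.E a f.φ * f.F j f.φ)
    (a j : ι) : 4 * f.S a j = (f.c * f.φi + f.w * f.φi ^ 2 - f.φi * p) * dl A a j -
      f.φi * q * f.E a f.φ * f.F j f.φ := by
  rw [f.hS, h]; ring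

theorem S_sum (h : ∀ a j, f.E a (f.F j f.φ) = p * dl A a j + q * f.E a f.φ * f.F j f.φ)
    (a : ι) : 4 * ∑ d, f.S a d * f.E d f.φ =
      (f.c * f.φi + f.w * f.φi ^ 2 - f.φi * p - f.φi * q * f.w) * f.E a f.φ := by
  have e : 4 * ∑ d, f.S a d * f.E d f.φ =
      ∑ d, ((f.c * f.φi + f.w * f.φi ^ 2 - f.φi * p) * f.E d f.φ) * dl A a d -
      f.φi * q * f.E a f.φ * ∑ d, f.E d f.φ * f.F d f.φ := by
    rw [mul_sum, mul_sum, ← sum_sub_distrib]
    exact sum_congr rfl fun d _ => by linear_combination f.E d f.φ * f.S_form h a d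
  rw [e, sum_mul_dl', f.hw]
  ring

/-- the derivation along the gradient, normalised by `δ φ = φ` -/
def δ : Derivation ℂ A A := (f.φ * f.wi) • ∑ j, f.E j f.φ • f.F j

theorem δ_apply {g g' : A} (k : A) (h : ∀ j, k * f.F j g = g' * f.F j f.φ) :
    k * f.δ g = g' * f.φ := by
  have e : k * ∑ j, f.E j f.φ * f.F j g = g' * ∑ j, f.E j f.φ * f.F j f.φ := by
    rw [mul_sum, mul_sum]
    exact sum_congr rfl fun j _ => by linear_combination f.E j f.φ * h j
  rw [f.hw] at e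
  have hwi := f.hwi
  simp only [δ, Derivation.smul_apply, der_sum_apply, smul_eq_mul]
  linear_combination f.φ * f.wi * e + g' * f.φ * hwi

theorem eq_zero_of_mul_E {X : A} (h : ∀ a, X * f.E a f.φ = 0) : X = 0 := by
  apply cancel_unit f.hwi
  rw [← f.hw, sum_mul]
  exact sum_eq_zero fun a _ => by linear_combination f.F a f.φ * h a

end Fr

end Pool.Agent.P.MP_3e99c6_gt
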