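import Pool.Agent.P.MP_3e99c6_gt.Frame2

/-! The mixed Hessian is a constant multiple of the metric. -/

noncomputable section

namespace Pool.Agent.P.MP_3e99c6_gt

open Finset

variable {ι A : Type} [Fintype ι] [DecidableEq ι] [CommRing A] [Algebra ℂ A] [IsReduced A]

namespace Fr

variable (f : Fr ι A) {p q : A}

theorem stepC (hn : 3 ≤ Fintype.card ι) (Fc : ∀ j, f.F j f.c = 0)
    (h : ∀ a j, f.E a (f.F j f.φ) = p * dl A a j + q * f.E a f.φ * f.F j f.φ)
    (Fp : ∀ j, f.F j p = p * q * f.F j f.φ)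
    (Fw : ∀ j, 2 * f.F j f.w = L2 f.c f.w f.φ f.φi p q * f.F j f.φ)
    (Fq : ∀ j, 2 * f.F j q = Q2 f.c f.w f.wi f.φ f.φi p q * f.F j f.φ) : q = 0 := by
  obtain ⟨Ep, -, Eq, -, EN⟩ := f.stepB hn h
  have hφ := f.hφ
  have hwi := f.hwi
  obtain ⟨hf, hhf⟩ : ∃ hf : A, 2 * hf = 1 :=
    ⟨algebraMap ℂ A (1 / 2), by
      rw [show (2 : A) = algebraMap ℂ A 2 from (map_ofNat _ 2).symm, ← map_mul]; norm_num⟩
  have Dhf : ∀ D : Derivation ℂ A A, D hf = 0 := fun D => by
    rw [der_inv D hhf, der_ofNat]; ring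
  set e := e2 f.c f.w f.wi f.φ f.φi p q with he
  set L := L2 f.c f.w f.φ f.φi p q with hL
  set Q := Q2 f.c f.w f.wi f.φ f.φi p q with hQ
  have hQ' : Q = 2 * q * f.φi - (e + 2 * q) * q := rfl
  have hL' : L = 2 * f.c + 4 * f.w * f.φi - 2 * p + p * q * f.φ := rfl
  have he' : e = f.wi * (L - 2 * p - 2 * q * f.w) := rfl
  obtain ⟨e', Fe⟩ : ∃ e', ∀ j, 2 * f.F j e = e' * f.F j f.φ := by
    refine ⟨-f.wi ^ 2 * L * (L - 2 * p - 2 * q * f.w) + f.wi * (4 * L * f.φi -
      8 * f.w * f.φi ^ 2 - 2 * p * q + 2 * p * q ^ 2 * f.φ + p * f.φ * Q - 4 * p * q -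
      2 * Q * f.w - 2 * q * L), fun j => ?_⟩
    have FL : 2 * f.F j L = (4 * L * f.φi - 8 * f.w * f.φi ^ 2 - 2 * p * q +
        2 * p * q ^ 2 * f.φ + p * f.φ * Q) * f.F j f.φ := by
      have e1 := congrArg (f.F j) hL'
      simp only [map_add, map_sub, Derivation.leibniz, smul_eq_mul, der_ofNat, Fc, Fp,
        der_inv _ hφ] at e1
      linear_combination 2 * e1 + 4 * f.φi * Fw j + p * f.φ * Fq j
    have e1 := congrArg (f.F j) he'
    simp only [map_sub, Derivation.leibniz, smul_eq_mul, der_ofNat, Fp, der_inv _ hwi] at e1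
    linear_combination 2 * e1 + f.wi * FL - 2 * f.wi * f.w * Fq j -
      (2 * f.wi * q + f.wi ^ 2 * (L - 2 * p - 2 * q * f.w)) * Fw j
  set A4 := f.c * f.φi + f.w * f.φi ^ 2 - f.φi * p with hA4
  set X := q * (4 * p * q + 2 * A4 - f.φi * q * f.w - 2 * e * p) with hX
  set Y := q * (2 * q * f.φi - e' - 4 * e * q) with hY
  obtain ⟨hx, -, hM⟩ := lemL hn (M := fun c a => Y * f.E c f.φ * f.E a f.φ)
    (x := fun a => -X * f.E a f.φ) (y := fun c => -X * f.E c f.φ) f.hw f.hwi (fun b a j => by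
      have e1 := red (f.F j) (EN a b)
      simp only [map_sub, Derivation.leibniz, smul_eq_mul, der_ofNat, f.F_E_phi] at e1
      have e2 : q * (2 * ∑ d, f.Γ a j d * f.E d (f.E b f.φ) -
          e * (∑ d, f.Γ a j d * f.E d f.φ) * f.E b f.φ) = 0 := by
        rw [mul_sum, mul_sum, sum_mul, ← sum_sub_distrib, mul_sum]
        exact sum_eq_zero fun d _ => by linear_combination f.Γ a j d * EN d b
      have e3 : q * (2 * ∑ d, f.Γ b j d * f.E a (f.E d f.φ) -
          e * f.E a f.φ * (∑ d, f.Γ b j d * f.E d f.φ)) = 0 := by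
        rw [mul_sum, mul_sum, ← sum_sub_distrib, mul_sum]
        exact sum_eq_zero fun d _ => by linear_combination f.Γ b j d * EN a d
      have e4 := f.ricci j a b
      rw [f.E_hess h, Ep] at e4
      have s1 := f.S_form h a j
      have s2 := f.S_form h b j
      have s3 := f.S_sum h a
      have s4 := f.S_sum h b
      rw [h a j, h b j] at e1
      simp only [hX, hY]
      linear_combination 2 * (e1 + e2 + e3) - 4 * q * e4 - q * f.E b f.φ * s1 -
        q * f.E a f.φ * s2 - q * dl A b j * s3 - q * dl A a j * s4 +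
        q * f.E a f.φ * f.E b f.φ * Fe j - 2 * q * f.E b f.φ * f.F j f.φ * Eq a -
        2 * q * f.F j f.φ * EN a b - 2 * q * f.E a f.φ * f.E b f.φ * f.F j f.φ * hQ')
  have hX0 : X = 0 := neg_eq_zero.1 (f.eq_zero_of_mul_E hx)
  have hY0 : Y = 0 := f.eq_zero_of_mul_E fun c => f.eq_zero_of_mul_E fun a => hM c a
  have dφ : f.δ f.φ = f.φ := by simpa using f.δ_apply (g' := 1) 1 fun _ => rfl
  have dp : f.δ p = p * q * f.φ := by simpa using f.δ_apply 1 fun j => by rw [one_mul, Fp]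
  have dw := f.δ_apply 2 Fw
  have dq := f.δ_apply 2 Fq
  have de := f.δ_apply 2 Fe
  have hLw : L = f.w * e + 2 * p + 2 * q * f.w := by
    linear_combination -f.w * he' - (L - 2 * p - 2 * q * f.w) * hwi
  have hb : q * f.φ = 0 := by
    refine ode f.δ (p := p) (W := f.w * f.φi) (Wi := f.wi * f.φ) (e := hf * e * f.φ)
      (by linear_combination f.φ * f.φi * hwi + hφ) (by rw [dp]; ring) ?_ ?_ ?_ ?_
    · rw [Derivation.leibniz, smul_eq_mul, smul_eq_mul, der_inv _ hφ, dφ]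
      linear_combination hf * f.φi * dw + hf * f.φi * f.φ * hLw + (p - f.w * f.φi) * hφ +
        (p * f.φ * f.φi + q * f.w * f.φi * f.φ - f.φi * f.δ f.w) * hhf
    · rw [Derivation.leibniz, smul_eq_mul, smul_eq_mul, dφ]
      linear_combination hf * f.φ * dq + hf * f.φ ^ 2 * hQ' + q * f.φ * hφ +
        (q * f.φ ^ 2 * f.φi - q ^ 2 * f.φ ^ 2 - f.φ * f.δ q) * hhf
    · simp only [Derivation.leibniz, smul_eq_mul, Dhf, dφ]
      simp only [hY] at hY0
      linear_combination hf * q * f.φ ^ 2 * de - hf * f.φ ^ 3 * hY0 + q ^ 2 * f.φ ^ 2 * hφ +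
        q ^ 2 * f.φ ^ 3 * f.φi * hhf
    · simp only [hX, hA4] at hX0
      linear_combination f.φ ^ 2 * hX0 + q * f.φ ^ 2 * f.φi * (hL' - hLw) +
        (q * f.φ ^ 2 * f.w * f.φi * e - 2 * q * f.φ ^ 2 * p * e) * hhf +
        (-2 * q * f.φ * p + q ^ 2 * f.φ ^ 2 * p + 2 * q * f.φ * f.w * f.φi) * hφ
  linear_combination f.φi * hb - q * hφ

theorem stepD (hn : 3 ≤ Fintype.card ι) (Fc : ∀ j, f.F j f.c = 0) {ci : A} (hc : f.c * ci = 1)
    (h : ∀ a j, f.E a (f.F j f.φ) = p * dl A a j + 0 * f.E a f.φ * f.F j f.φ)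
    (Fp : ∀ j, f.F j p = p * 0 * f.F j f.φ)
    (Fw : ∀ j, 2 * f.F j f.w = L2 f.c f.w f.φ f.φi p 0 * f.F j f.φ) :
    p = -f.c ∧ f.w = -(2 * f.c * f.φ) := by
  obtain ⟨Ep, -, -, Es, -⟩ := f.stepB hn h
  have hφ := f.hφ
  have hwi := f.hwi
  simp only [mul_zero, zero_mul, add_zero] at Fp Ep
  have h' : ∀ a j, f.E a (f.F j f.φ) = p * dl A a j := fun a j => by rw [h]; ring
  set μ := f.c + 2 * f.w * f.φi - 2 * p with hμ
  have two : ∀ x : A, 2 * x = 0 → x = 0 := fun x hx => cancel_nat 2 (by norm_num) (by simpa)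
  have Fw' : ∀ j, f.F j f.w = (μ + p) * f.F j f.φ := fun j => by
    rw [← sub_eq_zero]
    apply two
    have e := Fw j
    simp only [L2] at e
    linear_combination e
  have Es' : ∀ c, ∑ a, f.E c (f.E a f.φ) * f.F a f.φ = μ * f.E c f.φ := fun c => by
    rw [← sub_eq_zero]
    apply two
    have e := Es c
    simp only [e2, L2] at e
    linear_combination e + (2 * μ * f.E c f.φ) * hwi
  set A4 := f.c * f.φi + f.w * f.φi ^ 2 - f.φi * p with hA4
  have hS : ∀ a j, 4 * f.S a j = A4 * dl A a j := fun a j => by rw [f.S_form h]; ring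
  have hS' : ∀ a, 4 * ∑ d, f.S a d * f.E d f.φ = A4 * f.E a f.φ := fun a => by
    rw [f.S_sum h]; ring
  have Fμ : ∀ j, f.F j μ = 2 * A4 * f.F j f.φ := fun j => by
    simp only [hμ, hA4, map_add, map_sub, Derivation.leibniz, smul_eq_mul, der_ofNat, Fc, Fp, Fw',
      der_inv _ hφ]
    ring
  -- second derivatives along the gradient
  set g : ι → ι → A := fun a d => ∑ j, f.E j f.φ * f.Γ a j d with hg
  have G1 : ∀ a, ∑ j, f.E j f.φ * f.F j (f.F a f.φ) =
      μ * f.F a f.φ + ∑ d, g d a * f.F d f.φ := by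
    intro a
    have e1 : f.F a f.w = ∑ j, f.E j f.φ * f.F j (f.F a f.φ) +
        (∑ j, (p * f.F j f.φ) * dl A j a - ∑ j, (∑ d, f.Γ j a d * f.E d f.φ) * f.F j f.φ) := by
      rw [← f.hw, map_sum, ← sum_sub_distrib, ← sum_add_distrib]
      refine sum_congr rfl fun j _ => ?_
      rw [Derivation.leibniz, smul_eq_mul, smul_eq_mul, f.F_E_phi, h', f.FF a j]
      ring
    have e2 : ∑ j, (∑ d, f.Γ j a d * f.E d f.φ) * f.F j f.φ = ∑ d, g d a * f.F d f.φ :=
      sum_congr rfl fun j _ => by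
        simp only [hg]
        congr 1
        exact sum_congr rfl fun d _ => by rw [f.Γs j a d]; ring
    rw [sum_mul_dl, e2, Fw'] at e1
    linear_combination -e1
  have G2 : ∀ c, ∑ j, f.E j f.φ * f.F j (f.E c f.φ) = p * f.E c f.φ - ∑ d, g c d * f.E d f.φ := by
    intro c
    have e : ∑ j, f.E j f.φ * f.F j (f.E c f.φ) = ∑ j, (p * f.E j f.φ) * dl A c j -
        ∑ j, ∑ d, f.E j f.φ * f.Γ c j d * f.E d f.φ := by
      rw [← sum_sub_distrib]
      refine sum_congr rfl fun j _ => ?_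
      rw [f.F_E_phi, h', mul_sub, mul_sum]
      congr 1
      · ring
      · exact sum_congr rfl fun d _ => by ring
    rw [e, sum_mul_dl', sum_comm]
    simp only [hg, sum_mul]
  have G3 : ∀ c a, 2 * ∑ j, f.E j f.φ * f.F j (f.E c (f.E a f.φ)) =
      2 * A4 * f.E c f.φ * f.E a f.φ - 2 * ∑ d, g c d * f.E d (f.E a f.φ) -
        2 * ∑ d, g a d * f.E c (f.E d f.φ) := by
    intro c a
    have e0 : ∀ j, 2 * f.F j (f.E c (f.E a f.φ)) =
        (A4 * f.E a f.φ) * dl A c j + (A4 * f.E c f.φ) * dl A a j -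
        2 * ∑ d, f.Γ c j d * f.E d (f.E a f.φ) - 2 * ∑ d, f.Γ a j d * f.E c (f.E d f.φ) := by
      intro j
      have e := f.ricci j c a
      rw [h' a j, Derivation.leibniz, der_dl, Ep] at e
      rw [← sub_eq_zero]
      apply two
      simp only [smul_eq_mul] at e
      linear_combination 4 * e + f.E a f.φ * hS c j + f.E c f.φ * hS a j + dl A c j * hS' a +
        dl A a j * hS' c
    have e : 2 * ∑ j, f.E j f.φ * f.F j (f.E c (f.E a f.φ)) =
        ∑ j, (A4 * f.E a f.φ * f.E j f.φ) * dl A c j +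
        ∑ j, (A4 * f.E c f.φ * f.E j f.φ) * dl A a j -
        2 * ∑ j, f.E j f.φ * ∑ d, f.Γ c j d * f.E d (f.E a f.φ) -
        2 * ∑ j, f.E j f.φ * ∑ d, f.Γ a j d * f.E c (f.E d f.φ) := by
      rw [mul_sum, mul_sum, mul_sum, ← sum_add_distrib, ← sum_sub_distrib, ← sum_sub_distrib]
      exact sum_congr rfl fun j _ => by linear_combination f.E j f.φ * e0 j
    have sw : ∀ (c : ι) (x : ι → A), ∑ j, f.E j f.φ * ∑ d, f.Γ c j d * x d = ∑ d, g c d * x d := by
      intro c x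
      simp only [hg, sum_mul, mul_sum]
      rw [sum_comm]
      exact sum_congr rfl fun d _ => sum_congr rfl fun j _ => by ring
    rw [e, sum_mul_dl', sum_mul_dl', sw, sw]
    ring
  have key : μ * (μ - p) - A4 * f.w = 0 := by
    apply f.eq_zero_of_mul_E
    intro c
    have e1 : ∑ j, f.E j f.φ * f.F j (∑ a, f.E c (f.E a f.φ) * f.F a f.φ) =
        ∑ a, ((∑ j, f.E j f.φ * f.F j (f.E c (f.E a f.φ))) * f.F a f.φ +
          f.E c (f.E a f.φ) * ∑ j, f.E j f.φ * f.F j (f.F a f.φ)) := by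
      simp only [map_sum, Derivation.leibniz, smul_eq_mul, mul_sum, sum_mul, ← sum_add_distrib]
      rw [sum_comm]
      exact sum_congr rfl fun a _ => sum_congr rfl fun j _ => by ring
    have e2 : ∑ j, f.E j f.φ * f.F j (μ * f.E c f.φ) =
        μ * ∑ j, f.E j f.φ * f.F j (f.E c f.φ) +
          2 * A4 * f.E c f.φ * ∑ j, f.E j f.φ * f.F j f.φ := by
      simp only [Derivation.leibniz, smul_eq_mul, Fμ, mul_sum, ← sum_add_distrib]
      exact sum_congr rfl fun j _ => by ring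
    rw [Es', e2, G2, f.hw] at e1
    have e3 : 2 * ∑ a, ((∑ j, f.E j f.φ * f.F j (f.E c (f.E a f.φ))) * f.F a f.φ +
          f.E c (f.E a f.φ) * ∑ j, f.E j f.φ * f.F j (f.F a f.φ)) =
        2 * A4 * f.E c f.φ * ∑ a, f.E a f.φ * f.F a f.φ -
        2 * ∑ a, (∑ d, g c d * f.E d (f.E a f.φ)) * f.F a f.φ -
        2 * ∑ a, (∑ d, g a d * f.E c (f.E d f.φ)) * f.F a f.φ +
        2 * μ * ∑ a, f.E c (f.E a f.φ) * f.F a f.φ +
        2 * ∑ a, f.E c (f.E a f.φ) * ∑ d, g d a * f.F d f.φ := by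
      rw [mul_sum, mul_sum, mul_sum, mul_sum, mul_sum, mul_sum, ← sum_sub_distrib,
        ← sum_sub_distrib, ← sum_add_distrib, ← sum_add_distrib]
      refine sum_congr rfl fun a _ => ?_
      rw [G1]
      linear_combination f.F a f.φ * G3 c a
    have e4 : ∑ a, (∑ d, g c d * f.E d (f.E a f.φ)) * f.F a f.φ =
        μ * ∑ d, g c d * f.E d f.φ := by
      simp only [sum_mul]
      rw [sum_comm, mul_sum]
      refine sum_congr rfl fun d _ => ?_
      have := Es' d
      rw [show ∑ a, g c d * f.E d (f.E a f.φ) * f.F a f.φ =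
        g c d * ∑ a, f.E d (f.E a f.φ) * f.F a f.φ by
          rw [mul_sum]; exact sum_congr rfl fun a _ => by ring, this]
      ring
    have e5 : ∑ a, (∑ d, g a d * f.E c (f.E d f.φ)) * f.F a f.φ =
        ∑ a, f.E c (f.E a f.φ) * ∑ d, g d a * f.F d f.φ := by
      simp only [sum_mul, mul_sum]
      rw [sum_comm]
      exact sum_congr rfl fun a _ => sum_congr rfl fun d _ => by ring
    rw [f.hw, e4, e5, Es'] at e3
    apply two
    linear_combination -2 * e1 - e3
  set al := A4 * f.φ with hal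
  have dφ : f.δ f.φ = f.φ := by simpa using f.δ_apply (g' := 1) 1 fun _ => rfl
  have hal' : al = f.c + f.w * f.φi - p := by
    simp only [hal, hA4]
    linear_combination (f.c + f.w * f.φi - p) * hφ
  have dp : f.δ p = 0 := by simpa using f.δ_apply (g' := 0) 1 fun j => by rw [Fp]; ring
  have dc : f.δ f.c = 0 := by simpa using f.δ_apply (g' := 0) 1 fun j => by rw [Fc]; ring
  have dw : f.δ f.w = (μ + p) * f.φ := by
    simpa using f.δ_apply 1 fun j => by rw [one_mul, Fw']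
  have dal : f.δ al = al := by
    rw [hal']
    simp only [map_add, map_sub, Derivation.leibniz, smul_eq_mul, dp, dc, dw, der_inv _ hφ, dφ, hμ]
    linear_combination (f.c + f.w * f.φi - p) * hφ
  have k0 : 3 * al ^ 2 - 3 * (f.c + p) * al + f.c * (f.c + p) = 0 := by
    rw [hal']
    simp only [hμ, hA4] at key
    linear_combination key
  have k1 := congrArg f.δ k0
  simp only [map_add, map_sub, Derivation.leibniz, pow_two, smul_eq_mul, dp, dc, dal, der_ofNat,
    map_zero] at k1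
  have k1' : 6 * al ^ 2 - 3 * (f.c + p) * al = 0 := by linear_combination k1
  have k2 := congrArg f.δ k1'
  simp only [map_add, map_sub, Derivation.leibniz, pow_two, smul_eq_mul, dp, dc, dal, der_ofNat,
    map_zero] at k2
  have k3 : al = 0 := IsReduced.eq_zero _ ⟨2, cancel_nat 6 (by norm_num) (by
    push_cast
    linear_combination k2 - k1')⟩
  have k4 : p = -f.c := by
    rw [k3] at k0
    linear_combination ci * k0 - (f.c + p) * hc
  refine ⟨k4, ?_⟩
  rw [k3, k4] at hal'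
  linear_combination -f.φ * hal' - f.w * hφ

end Fr

end Pool.Agent.P.MP_3e99c6_gt
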