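import Pool.Agent.P.MP_3e99c6_gt.Point

/-! The ring of germs of smooth complex functions at a point. -/

open scoped ContDiff Topology
open Complex Filter

noncomputable section

namespace Pool.Agent.P.MP_3e99c6_gt

variable {n : ℕ}

/-- Functions that are smooth at the point. -/
def Sm (x₀ : V n) : Subalgebra ℂ (V n → ℂ) where
  carrier := {u | ContDiffAt ℝ ∞ u x₀}
  mul_mem' := fun {u v} (hu : ContDiffAt ℝ ∞ u x₀) (hv : ContDiffAt ℝ ∞ v x₀) => hu.mul hv
  add_mem' := fun {u v} (hu : ContDiffAt ℝ ∞ u x₀) (hv : ContDiffAt ℝ ∞ v x₀) => hu.add hv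
  algebraMap_mem' := fun c => (contDiffAt_const : ContDiffAt ℝ ∞ (fun _ => c) x₀)

/-- Functions that vanish near the point. -/
def Nul (x₀ : V n) : Ideal (Sm x₀) where
  carrier := {u | ∀ᶠ x in 𝓝 x₀, u.1 x = 0}
  add_mem' := fun {u v} hu hv => by
    filter_upwards [hu, hv] with x hx hy
    simp [hx, hy]
  zero_mem' := by simp
  smul_mem' := fun c u hu => by
    filter_upwards [hu] with x hx
    simp [hx]

/-- Germs. -/
def Gm (x₀ : V n) : Type := Sm x₀ ⧸ Nul x₀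

instance (x₀ : V n) : CommRing (Gm x₀) := inferInstanceAs (CommRing (Sm x₀ ⧸ Nul x₀))

instance (x₀ : V n) : Algebra ℂ (Gm x₀) := inferInstanceAs (Algebra ℂ (Sm x₀ ⧸ Nul x₀))

/-- The germ of a function. -/
def gm {x₀ : V n} : Sm x₀ →ₐ[ℂ] Gm x₀ := Ideal.Quotient.mkₐ ℂ (Nul x₀)

variable {x₀ : V n}

theorem gm_eq (u v : Sm x₀) : gm u = gm v ↔ ∀ᶠ x in 𝓝 x₀, u.1 x = v.1 x := by
  change Ideal.Quotient.mk (Nul x₀) u = Ideal.Quotient.mk (Nul x₀) v ↔ _
  rw [Ideal.Quotient.eq]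
  change (∀ᶠ x in 𝓝 x₀, (u - v).1 x = 0) ↔ _
  simp [sub_eq_zero]

theorem gm_surj (r : Gm x₀) : ∃ u, gm u = r := Ideal.Quotient.mk_surjective (I := Nul x₀) r

theorem Sm.two (u : Sm x₀) : ∀ᶠ x in 𝓝 x₀, ContDiffAt ℝ 2 u.1 x :=
  ((show ContDiffAt ℝ ∞ u.1 x₀ from u.2).of_le two_le_inf).eventually (by simp)

theorem Sm.diff (u : Sm x₀) : ∀ᶠ x in 𝓝 x₀, DifferentiableAt ℝ u.1 x :=
  (Sm.two u).mono fun _ hx => hx.differentiableAt (by simp)

/-- The derivative of a smooth function in the direction `t`. -/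
def dS (t : V n) (u : Sm x₀) : Sm x₀ :=
  ⟨fun x => fderiv ℝ u.1 x t,
    ((show ContDiffAt ℝ ∞ u.1 x₀ from u.2).fderiv_right (m := ∞) le_rfl).clm_apply
      contDiffAt_const⟩

theorem dS_val (t : V n) (u : Sm x₀) (x : V n) : (dS t u).1 x = fderiv ℝ u.1 x t := rfl

/-- The derivative of a germ. -/
def dF (t : V n) (r : Gm x₀) : Gm x₀ := gm (dS t (gm_surj r).choose)

theorem dF_gm (t : V n) (u : Sm x₀) : dF t (gm u) = gm (dS t u) := by
  unfold dF
  rw [gm_eq]
  have h : (gm_surj (gm u)).choose.1 =ᶠ[𝓝 x₀] u.1 := (gm_eq _ _).1 (gm_surj (gm u)).choose_spec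
  filter_upwards [h.fderiv (𝕜 := ℝ)] with x hx
  rw [dS_val, dS_val, hx]

/-- The derivative of germs as a derivation. -/
def dG (t : V n) : Derivation ℂ (Gm x₀) (Gm x₀) :=
  Derivation.mk'
    { toFun := dF t
      map_add' := fun r s => by
        obtain ⟨u, rfl⟩ := gm_surj r
        obtain ⟨v, rfl⟩ := gm_surj s
        rw [← map_add, dF_gm, dF_gm, dF_gm, ← map_add, gm_eq]
        filter_upwards [Sm.diff u, Sm.diff v] with x hx hy
        change fderiv ℝ (u.1 + v.1) x _ = fderiv ℝ u.1 x _ + fderiv ℝ v.1 x _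
        rw [fderiv_add hx hy]
        rfl
      map_smul' := fun c r => by
        obtain ⟨u, rfl⟩ := gm_surj r
        rw [RingHom.id_apply, ← map_smul, dF_gm, dF_gm, ← map_smul, gm_eq]
        filter_upwards [Sm.diff u] with x hx
        change fderiv ℝ (c • u.1) x _ = c • fderiv ℝ u.1 x _
        rw [fderiv_const_smul hx]
        rfl }
    (fun r s => by
      obtain ⟨u, rfl⟩ := gm_surj r
      obtain ⟨v, rfl⟩ := gm_surj s
      change dF t _ = _ * dF t _ + _ * dF t _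
      rw [← map_mul, dF_gm, dF_gm, dF_gm, ← map_mul, ← map_mul, ← map_add, gm_eq]
      filter_upwards [Sm.diff u, Sm.diff v] with x hx hy
      change fderiv ℝ (u.1 * v.1) x _ = u.1 x * fderiv ℝ v.1 x _ + v.1 x * fderiv ℝ u.1 x _
      rw [fderiv_mul hx hy]
      simp)

theorem dG_gm (t : V n) (u : Sm x₀) : dG t (gm u) = gm (dS t u) := dF_gm t u

theorem dG_comm (s t : V n) (r : Gm x₀) : dG s (dG t r) = dG t (dG s r) := by
  obtain ⟨u, rfl⟩ := gm_surj r
  rw [dG_gm, dG_gm, dG_gm, dG_gm, gm_eq]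
  filter_upwards [Sm.two u] with x hu
  have hd : DifferentiableAt ℝ (fderiv ℝ u.1) x :=
    (hu.fderiv_right (m := 1) le_rfl).differentiableAt (by simp)
  have h : ∀ a b : V n, (dS a (dS b u)).1 x = fderiv ℝ (fderiv ℝ u.1) x a b := by
    intro a b
    change fderiv ℝ (fun y => fderiv ℝ u.1 y b) x a = _
    rw [fderiv_clm_apply hd (differentiableAt_const _)]
    simp
  rw [h, h]
  exact hu.isSymmSndFDerivAt (by simp) _ _

instance : IsReduced (Gm x₀) where
  eq_zero r := by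
    obtain ⟨u, rfl⟩ := gm_surj r
    rintro ⟨k, hk⟩
    rw [← map_pow, ← map_zero gm, gm_eq] at hk
    rw [← map_zero gm, gm_eq]
    filter_upwards [hk] with x hx
    exact eq_zero_of_pow_eq_zero (n := k) (by simpa using hx)

theorem gm_unit (u : Sm x₀) (h : u.1 x₀ ≠ 0) : ∃ r, gm u * r = 1 := by
  have hu : ContDiffAt ℝ ∞ u.1 x₀ := u.2
  refine ⟨gm ⟨fun x => (u.1 x)⁻¹, hu.inv h⟩, ?_⟩
  rw [← map_mul, ← map_one gm, gm_eq]
  filter_upwards [hu.continuousAt.eventually_ne h] with x hx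
  exact mul_inv_cancel₀ hx

/-- `∂ / ∂ z` in the direction `t`. -/
def dz (t : V n) (f : V n → ℂ) (x : V n) : ℂ := (fderiv ℝ f x t - I * fderiv ℝ f x (I • t)) / 2
/-- `∂ / ∂ z̄` in the direction `t`. -/
def dzb (t : V n) (f : V n → ℂ) (x : V n) : ℂ := (fderiv ℝ f x t + I * fderiv ℝ f x (I • t)) / 2

/-- `∂ / ∂ z` on smooth functions. -/
def DS (t : V n) (u : Sm x₀) : Sm x₀ := (1 / 2 : ℂ) • (dS t u - I • dS (I • t) u)
/-- `∂ / ∂ z̄` on smooth functions. -/
def DbS (t : V n) (u : Sm x₀) : Sm x₀ := (1 / 2 : ℂ) • (dS t u + I • dS (I • t) u)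
/-- `∂ / ∂ z` on germs. -/
def DG (t : V n) : Derivation ℂ (Gm x₀) (Gm x₀) := (1 / 2 : ℂ) • (dG t - I • dG (I • t))
/-- `∂ / ∂ z̄` on germs. -/
def DbG (t : V n) : Derivation ℂ (Gm x₀) (Gm x₀) := (1 / 2 : ℂ) • (dG t + I • dG (I • t))

theorem DS_val (t : V n) (u : Sm x₀) : (DS t u).1 = dz t u.1 := by
  funext x
  change (1 / 2 : ℂ) * (fderiv ℝ u.1 x t - I * fderiv ℝ u.1 x (I • t)) = _
  rw [dz]; ring

theorem DbS_val (t : V n) (u : Sm x₀) : (DbS t u).1 = dzb t u.1 := by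
  funext x
  change (1 / 2 : ℂ) * (fderiv ℝ u.1 x t + I * fderiv ℝ u.1 x (I • t)) = _
  rw [dzb]; ring

theorem DG_gm (t : V n) (u : Sm x₀) : DG t (gm u) = gm (DS t u) := by
  simp [DG, DS, dG_gm]

theorem DbG_gm (t : V n) (u : Sm x₀) : DbG t (gm u) = gm (DbS t u) := by
  simp [DbG, DbS, dG_gm]

theorem DG_DG (s t : V n) (r : Gm x₀) : DG s (DG t r) = DG t (DG s r) := by
  simp only [DG, Derivation.smul_apply, Derivation.sub_apply, map_sub, Derivation.map_smul,
    dG_comm s, dG_comm (I • s)]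
  module

theorem DbG_DbG (s t : V n) (r : Gm x₀) : DbG s (DbG t r) = DbG t (DbG s r) := by
  simp only [DbG, Derivation.smul_apply, Derivation.add_apply, map_add, Derivation.map_smul,
    dG_comm s, dG_comm (I • s)]
  module

theorem DG_DbG (s t : V n) (r : Gm x₀) : DG s (DbG t r) = DbG t (DG s r) := by
  simp only [DG, DbG, Derivation.smul_apply, Derivation.add_apply, Derivation.sub_apply, map_add,
    map_sub, Derivation.map_smul, dG_comm s, dG_comm (I • s)]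
  module

end Pool.Agent.P.MP_3e99c6_gt
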