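import Pool.Agent.P.MP_3e99c6_gt.Point

/-! The Hermitian form and the Hermitian matrix of a real bilinear form. -/

open scoped ComplexConjugate ComplexOrder
open Complex Finset

noncomputable section

namespace Pool.Agent.P.MP_3e99c6_gt

variable {n : ℕ}

/-- The Hermitian form of a real bilinear form. -/
def H (β : Bil n) (a b : V n) : ℂ := β a b + I * β a (I • b)

/-- The standard basis. -/
def bs (i : Fin n) : V n := Pi.single i 1

/-- The Hermitian matrix. -/
def hM (β : Bil n) : Matrix (Fin n) (Fin n) ℂ := Matrix.of fun i j => H β (bs i) (bs j)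

/-- A Hermitian inner product. -/
structure Hm (β : Bil n) : Prop where
  symm : ∀ v w, β v w = β w v
  cx : ∀ v w, β (I • v) (I • w) = β v w
  pos : ∀ v, v ≠ 0 → 0 < β v v

theorem HermOn.hm {G : V n → Bil n} {U : Set (V n)} (hG : HermOn G U) {y : V n} (hy : y ∈ U) :
    Hm (G y) := ⟨hG.symm y hy, hG.cx y hy, hG.pos y hy⟩

theorem H_add_left (β : Bil n) (a a' b : V n) : H β (a + a') b = H β a b + H β a' b := by
  simp only [H, map_add, add_apply]; push_cast; ring

theorem H_add_right (β : Bil n) (a b b' : V n) : H β a (b + b') = H β a b + H β a b' := by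
  simp only [H, map_add, smul_add]; push_cast; ring

theorem H_I_right (β : Bil n) (a b : V n) : H β a (I • b) = -I * H β a b := by
  simp only [H, II_smul, map_neg]; push_cast
  linear_combination (β a (I • b) : ℂ) * I_mul_I

theorem H_I_left {β : Bil n} (h : ∀ v w, β (I • v) (I • w) = β v w) (a b : V n) :
    H β (I • a) b = I * H β a b := by
  simp only [H, h, cx_left h a b]; push_cast
  linear_combination -(β a (I • b) : ℂ) * I_mul_I

theorem smul_split (s : ℂ) (a : V n) : s • a = s.re • a + s.im • I • a := by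
  funext i
  simp only [Pi.smul_apply, Pi.add_apply, smul_eq_mul, real_smul]
  conv_lhs => rw [← re_add_im s]
  ring

theorem H_smul_left {β : Bil n} (h : ∀ v w, β (I • v) (I • w) = β v w) (s : ℂ) (a b : V n) :
    H β (s • a) b = s * H β a b := by
  have e : ∀ (r : ℝ) (a : V n), H β (r • a) b = r * H β a b := fun r a => by
    simp only [H, map_smul, smul_apply, smul_eq_mul]; push_cast; ring
  rw [smul_split, H_add_left, e, e, H_I_left h]
  conv_rhs => rw [← re_add_im s]
  ring

theorem H_expand {β : Bil n} (h : ∀ v w, β (I • v) (I • w) = β v w) (a b : V n) :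
    H β a b = ∑ i, a i * H β (bs i) b := by
  let L : V n →ₗ[ℂ] ℂ :=
    { toFun := fun a => H β a b
      map_add' := fun a a' => H_add_left β a a' b
      map_smul' := fun s a => H_smul_left h s a b }
  have e := LinearMap.pi_apply_eq_sum_univ L a
  refine e.trans (sum_congr rfl fun i _ => ?_)
  rw [smul_eq_mul]
  refine congrArg (fun x => a i * H β x b) ?_
  funext j
  simp [bs, Pi.single_apply, eq_comm]

namespace Hm

variable {β : Bil n} (h : Hm β)
include h

theorem conj_H (a b : V n) : conj (H β a b) = H β b a := by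
  simp only [H, map_add, map_mul, conj_ofReal, conj_I]
  rw [h.symm b a, h.symm b (I • a), cx_left h.cx]
  push_cast; ring

theorem H_self (a : V n) : H β a a = β a a := by
  have e : β a (I • a) = 0 := by linarith [cx_left h.cx a a, h.symm (I • a) a]
  simp [H, e]

theorem expand_right (a b : V n) : H β a b = ∑ j, conj (b j) * H β a (bs j) := by
  rw [← h.conj_H, H_expand h.cx, map_sum]
  exact sum_congr rfl fun j _ => by rw [map_mul, h.conj_H]

theorem posDef : (hM β).PosDef := by
  refine Matrix.PosDef.of_dotProduct_mulVec_pos ?_ fun x hx => ?_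
  · ext i j
    exact h.conj_H _ _
  · have e : star x ⬝ᵥ (hM β).mulVec x = H β (star x) (star x) := by
      rw [H_expand h.cx]
      refine sum_congr rfl fun i _ => ?_
      rw [h.expand_right]
      simp [hM, Matrix.mulVec, dotProduct, mul_comm]
    rw [e, h.H_self]
    exact_mod_cast h.pos _ (by simpa using hx)

theorem det_re_pos : 0 < (hM β).det.re := (Complex.lt_def.1 h.posDef.det_pos).1

theorem det_re : ((hM β).det.re : ℂ) = (hM β).det :=
  Complex.ext rfl (Complex.lt_def.1 h.posDef.det_pos).2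

theorem det_ne : (hM β).det ≠ 0 := h.posDef.det_pos.ne'

theorem mul_inv (i m : Fin n) :
    ∑ l, H β (bs i) (bs l) * (hM β)⁻¹ l m = if i = m then 1 else 0 := by
  have e := congrFun (congrFun (Matrix.mul_nonsing_inv (hM β) h.det_ne.isUnit) i) m
  rw [Matrix.one_apply] at e
  exact e

theorem inv_mul (a j : Fin n) :
    ∑ m, (hM β)⁻¹ a m * H β (bs m) (bs j) = if a = j then 1 else 0 := by
  have e := congrFun (congrFun (Matrix.nonsing_inv_mul (hM β) h.det_ne.isUnit) a) j
  rw [Matrix.one_apply] at e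
  exact e

theorem coord (z : V n) (m : Fin n) : ∑ l, (hM β)⁻¹ l m * H β z (bs l) = z m := by
  have e : ∀ l, (hM β)⁻¹ l m * H β z (bs l) = ∑ i, z i * (H β (bs i) (bs l) * (hM β)⁻¹ l m) :=
    fun l => by
      rw [H_expand h.cx z, mul_sum]
      exact sum_congr rfl fun i _ => by ring
  simp only [e]
  rw [sum_comm]
  simp only [← mul_sum, h.mul_inv]
  simp

theorem quad (s t : V n) :
    ∑ q, ∑ p, H β s (bs q) * (hM β)⁻¹ q p * H β (bs p) t = H β s t := by
  rw [sum_comm, H_expand h.cx s t]
  refine sum_congr rfl fun p _ => ?_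
  rw [← sum_mul, ← h.coord s p]
  congr 1
  exact sum_congr rfl fun q _ => mul_comm _ _

theorem eq_zero {z : V n} (hz : β z z = 0) : z = 0 := by
  by_contra hne
  exact (h.pos z hne).ne' hz

theorem ext {z z' : V n} (hz : ∀ w, β z w = β z' w) : z = z' := by
  refine sub_eq_zero.1 (h.eq_zero ?_)
  rw [map_sub β, sub_apply, hz, sub_self]

theorem dual (l : V n →L[ℝ] ℝ) : ∃ z, ∀ w, β z w = l w := by
  have hi : Function.Injective (β : V n →ₗ[ℝ] V n →L[ℝ] ℝ) := fun z z' e =>
    h.ext fun w => congrArg (fun f : V n →L[ℝ] ℝ => f w) e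
  have hr : Module.finrank ℝ (V n) = Module.finrank ℝ (V n →L[ℝ] ℝ) := by
    rw [← LinearMap.toContinuousLinearMap.finrank_eq]
    exact Subspace.dual_finrank_eq.symm
  obtain ⟨z, hz⟩ := (LinearMap.injective_iff_surjective_of_finrank_eq_finrank hr).1 hi l
  exact ⟨z, fun w => congrArg (fun f : V n →L[ℝ] ℝ => f w) hz⟩

theorem det_comp {β' : Bil n} (A : V n →L[ℂ] V n) (hA : ∀ a b, β' a b = β (A a) (A b)) :
    (hM β').det.re = |(A.restrictScalars ℝ).det| * (hM β).det.re := by
  have e1 : (A.restrictScalars ℝ).det = normSq (LinearMap.det (A : V n →ₗ[ℂ] V n)) := by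
    rw [← Algebra.norm_complex_apply, ← LinearMap.det_restrictScalars]
    rfl
  set P := LinearMap.toMatrix' (A : V n →ₗ[ℂ] V n) with hP
  have e2 : hM β' = P.transpose * hM β * P.map conj := by
    ext i j
    have e : H β' (bs i) (bs j) = H β (A (bs i)) (A (bs j)) := by
      simp only [H, hA, map_smul]
    rw [Matrix.mul_apply]
    refine e.trans ((h.expand_right _ _).trans (sum_congr rfl fun l _ => ?_))
    rw [mul_comm, H_expand h.cx, Matrix.mul_apply]
    rfl
  have e3 : (P.map conj).det = conj P.det := ((starRingEnd ℂ).map_det P).symm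
  rw [e1, abs_of_nonneg (normSq_nonneg _), e2, Matrix.det_mul, Matrix.det_mul,
    Matrix.det_transpose, e3, hP, LinearMap.det_toMatrix', mul_right_comm, mul_conj, re_ofReal_mul]

end Hm

theorem polar {W : Type} [AddCommGroup W] [Module ℂ W] (Ψ : W → W → W → W → ℂ)
    (a1 : ∀ a a' b c d, Ψ (a + a') b c d = Ψ a b c d + Ψ a' b c d)
    (a2 : ∀ a b b' c d, Ψ a (b + b') c d = Ψ a b c d + Ψ a b' c d)
    (a3 : ∀ a b c c' d, Ψ a b (c + c') d = Ψ a b c d + Ψ a b c' d)
    (a4 : ∀ a b c d d', Ψ a b c (d + d') = Ψ a b c d + Ψ a b c d')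
    (i1 : ∀ a b c d, Ψ (I • a) b c d = I * Ψ a b c d)
    (i2 : ∀ a b c d, Ψ a (I • b) c d = -I * Ψ a b c d)
    (i3 : ∀ a b c d, Ψ a b (I • c) d = I * Ψ a b c d)
    (i4 : ∀ a b c d, Ψ a b c (I • d) = -I * Ψ a b c d)
    (h : ∀ v, Ψ v v v v = 0) (a b c d : W) :
    Ψ a b c d + Ψ c b a d + Ψ a d c b + Ψ c d a b = 0 := by
  have s1 : ∀ x y, Ψ x y x y + Ψ y x y x = 0 := by
    intro x y
    have e0 := h (x + y)
    have e1 := h (x + I • y)
    have e2 := h (x + I • I • y)
    have e3 := h (x + I • I • I • y)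
    simp only [a1, a2, a3, a4, i1, i2, i3, i4] at e0 e1 e2 e3
    have hI : I ^ 2 = -1 := I_sq
    have hx := h x
    have hy := h y
    grind
  have s2 : ∀ x y, Ψ x y x y = 0 := by
    intro x y
    have e0 := s1 x y
    have e1 := s1 x (y + I • y)
    simp only [a1, a2, a3, a4, i1, i2, i3, i4] at e1
    have hI : I ^ 2 = -1 := I_sq
    grind
  have s3 : ∀ a c y, Ψ a y c y + Ψ c y a y = 0 := by
    intro a c y
    have e := s2 (a + c) y
    simp only [a1, a3, s2] at e
    linear_combination e
  have e := s3 a c (b + d)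
  simp only [a2, a4] at e
  linear_combination e - s3 a c b - s3 a c d

end Pool.Agent.P.MP_3e99c6_gt
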