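import Pool.Agent.P.MP_3e99c6_gt.Herm
import Pool.Agent.P.MP_3e99c6_gt.Germ

/-! Complex jets of the metric and of the conformal factor. -/

open scoped ComplexConjugate ContDiff Topology
open Complex Finset Filter

set_option maxSynthPendingDepth 3

noncomputable section

namespace Pool.Agent.P.MP_3e99c6_gt

variable {n : ℕ}

section lin

variable {E : Type} [NormedAddCommGroup E] [NormedSpace ℝ E] [FiniteDimensional ℝ E]
  {L : E → ℂ} (hL : IsLinearMap ℝ L) {F : V n → E} {y : V n}
include hL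

theorem fderiv_lin (hF : DifferentiableAt ℝ F y) (u : V n) :
    fderiv ℝ (fun z => L (F z)) y u = L (fderiv ℝ F y u) := by
  have e := ((LinearMap.toContinuousLinearMap (hL.mk' L)).hasFDerivAt.comp y
    hF.hasFDerivAt).fderiv
  exact congrArg (fun f : V n →L[ℝ] ℂ => f u) e

theorem contDiffAt_lin (hF : ContDiffAt ℝ ∞ F y) : ContDiffAt ℝ ∞ (fun z => L (F z)) y :=
  (LinearMap.toContinuousLinearMap (hL.mk' L)).contDiff.contDiffAt.comp y hF

end lin

/-- holomorphic part -/
def pz {E : Type} [NormedAddCommGroup E] [NormedSpace ℝ E] (L : E → ℂ) (t : V n)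
    (A : V n →L[ℝ] E) : ℂ := (L (A t) - I * L (A (I • t))) / 2

/-- antiholomorphic part -/
def pb {E : Type} [NormedAddCommGroup E] [NormedSpace ℝ E] (L : E → ℂ) (t : V n)
    (A : V n →L[ℝ] E) : ℂ := (L (A t) + I * L (A (I • t))) / 2

section p

variable {E : Type} [NormedAddCommGroup E] [NormedSpace ℝ E] {L : E → ℂ} (hL : IsLinearMap ℝ L)
include hL

theorem pb_lin (t : V n) : IsLinearMap ℝ (pb L t) :=
  ⟨fun A A' => by simp only [pb, add_apply, hL.map_add]; ring,
    fun r A => by simp only [pb, smul_apply, hL.map_smul, real_smul]; ring⟩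

theorem pz_add (t t' : V n) (A : V n →L[ℝ] E) : pz L (t + t') A = pz L t A + pz L t' A := by
  simp only [pz, smul_add, map_add, hL.map_add]; ring

theorem pb_add (t t' : V n) (A : V n →L[ℝ] E) : pb L (t + t') A = pb L t A + pb L t' A := by
  simp only [pb, smul_add, map_add, hL.map_add]; ring

theorem pz_I (t : V n) (A : V n →L[ℝ] E) : pz L (I • t) A = I * pz L t A := by
  simp only [pz, II_smul, map_neg, hL.map_neg]
  linear_combination L (A (I • t)) / 2 * I_mul_I

theorem pb_I (t : V n) (A : V n →L[ℝ] E) : pb L (I • t) A = -I * pb L t A := by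
  simp only [pb, II_smul, map_neg, hL.map_neg]
  linear_combination L (A (I • t)) / 2 * I_mul_I

variable [FiniteDimensional ℝ E] {F : V n → E} {y : V n}

theorem dz_lin (hF : DifferentiableAt ℝ F y) (t : V n) :
    dz t (fun z => L (F z)) y = pz L t (fderiv ℝ F y) := by
  rw [dz, pz, fderiv_lin hL hF, fderiv_lin hL hF]

theorem dzb_lin (hF : DifferentiableAt ℝ F y) (t : V n) :
    dzb t (fun z => L (F z)) y = pb L t (fderiv ℝ F y) := by
  rw [dzb, pb, fderiv_lin hL hF, fderiv_lin hL hF]

theorem dz_dzb_lin (hF : ContDiffAt ℝ ∞ F y) (s t : V n) :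
    dz s (dzb t fun z => L (F z)) y = pz (pb L t) s (fderiv ℝ (fderiv ℝ F) y) := by
  have e : (dzb t fun z => L (F z)) =ᶠ[𝓝 y] fun z => pb L t (fderiv ℝ F z) := by
    filter_upwards [(hF.of_le two_le_inf).eventually (by simp)] with z hz
    exact dzb_lin hL (hz.differentiableAt (by simp)) t
  rw [← dz_lin (pb_lin hL t) ((hF.fderiv_right (m := 1) two_le_inf).differentiableAt (by simp)),
    dz, dz, e.fderiv_eq]

end p

theorem H_lin (a b : V n) : IsLinearMap ℝ fun β : Bil n => H β a b :=
  ⟨fun A A' => by simp only [H, add_apply]; push_cast; ring,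
    fun r A => by simp only [H, smul_apply, real_smul, smul_eq_mul]; push_cast; ring⟩

theorem ofReal_lin : IsLinearMap ℝ fun r : ℝ => (r : ℂ) :=
  ⟨fun a b => by push_cast; ring, fun r a => by simp⟩

/-- The first jet of a Kaehler metric. -/
structure Jet1 (B1 : V n →L[ℝ] Bil n) : Prop where
  symm : ∀ u v w, B1 u v w = B1 u w v
  cx : ∀ u v w, B1 u (I • v) (I • w) = B1 u v w
  closed : ∀ u v w, B1 u (I • v) w + B1 v (I • w) u + B1 w (I • u) v = 0

namespace Jet1

variable {B1 : V n →L[ℝ] Bil n} (h : Jet1 B1)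
include h

theorem K1 (t a b : V n) : pz (fun β => H β a b) t B1 = pz (fun β => H β t b) a B1 := by
  have r : ∀ b, B1 t a b + B1 (I • t) a (I • b) = B1 a t b + B1 (I • a) t (I • b) := by
    intro b
    have e1 := h.closed t a (I • b)
    have e2 := h.closed (I • t) (I • a) (I • b)
    simp only [II_smul, map_neg, neg_apply, h.cx] at e1 e2
    linarith [h.symm a b t, cx_left (h.cx (I • b)) t a, h.symm (I • a) b (I • t),
      cx_left (h.cx (I • a)) t b]
  have r1 := congrArg (fun x : ℝ => (x : ℂ)) (r b)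
  have r2 := congrArg (fun x : ℝ => (x : ℂ)) (r (I • b))
  simp only [II_smul, map_neg] at r2
  push_cast at r1 r2
  simp only [pz, H]
  linear_combination r1 / 2 + I / 2 * r2 +
    ((B1 (I • a) t (I • b) : ℂ) - B1 (I • t) a (I • b)) / 2 * I_mul_I

theorem conj_pz (t a b : V n) :
    conj (pz (fun β => H β a b) t B1) = pb (fun β => H β b a) t B1 := by
  have e : ∀ u, conj (H (B1 u) a b) = H (B1 u) b a := fun u => by
    simp only [H, map_add, map_mul, conj_ofReal, conj_I]
    rw [h.symm u b a, h.symm u b (I • a), cx_left (h.cx u)]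
    push_cast; ring
  simp only [pz, pb, map_div₀, map_sub, map_mul, e, conj_I, map_ofNat]
  ring

theorem K2 (t a b : V n) : pb (fun β => H β a b) t B1 = pb (fun β => H β a t) b B1 := by
  rw [← h.conj_pz, ← h.conj_pz, h.K1]

end Jet1

theorem curv_point {β : Bil n} (h : Hm β) {B1 : V n →L[ℝ] Bil n} (h1 : Jet1 B1)
    {B2 : V n →L[ℝ] V n →L[ℝ] Bil n} (s2 : ∀ t u, B2 t u = B2 u t)
    (y2 : ∀ t u v w, B2 t u v w = B2 t u w v)
    (c2 : ∀ t u v w, B2 t u (I • v) (I • w) = B2 t u v w)
    {f2 : V n →L[ℝ] V n →L[ℝ] ℝ} (sf : ∀ t u, f2 t u = f2 u t) {φ α : ℝ}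
    (hv : ∀ v σ, (∀ w, β σ w = B1 v v w - B1 (I • v) (I • v) w) →
      -(B2 v v v v + B2 (I • v) (I • v) v v) + β σ σ =
        4 * α * β v v ^ 2 - φ * β v v * (f2 v v + f2 (I • v) (I • v)))
    (Ψ : V n → V n → V n → V n → ℂ)
    (hΨ : ∀ a b c d, Ψ a b c d = -pz (pb (fun β => H β c d) b) a B2 +
      ∑ q, ∑ p, pz (fun β => H β c (bs q)) a B1 * (hM β)⁻¹ q p * pb (fun β => H β (bs p) d) b B1 -
      (α * H β a b - φ * pz (pb (fun r : ℝ => (r : ℂ)) b) a f2) * H β c d) (a b c d : V n) :
    Ψ a b c d + Ψ c b a d + Ψ a d c b + Ψ c d a b = 0 := by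
  refine polar Ψ ?_ ?_ ?_ ?_ ?_ ?_ ?_ ?_ ?_ a b c d
  · intro a a' b c d
    simp only [hΨ, pz_add (pb_lin (H_lin _ _) _), pz_add (H_lin _ _), H_add_left,
      pz_add (pb_lin ofReal_lin _), add_mul, sum_add_distrib]
    ring
  · intro a b b' c d
    simp only [hΨ, pz, pb_add (H_lin _ _), H_add_right, pb_add ofReal_lin, mul_add,
      sum_add_distrib]
    ring
  · intro a b c c' d
    have e : ∀ q, pz (fun β => H β (c + c') (bs q)) a B1 =
        pz (fun β => H β c (bs q)) a B1 + pz (fun β => H β c' (bs q)) a B1 := fun q => by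
      simp only [pz, H_add_left]; ring
    simp only [hΨ, e, add_mul, sum_add_distrib]
    simp only [pz, pb, H_add_left]
    ring
  · intro a b c d d'
    have e : ∀ q, pb (fun β => H β (bs q) (d + d')) b B1 =
        pb (fun β => H β (bs q) d) b B1 + pb (fun β => H β (bs q) d') b B1 := fun q => by
      simp only [pb, H_add_right]; ring
    simp only [hΨ, e, mul_add, sum_add_distrib]
    simp only [pz, pb, H_add_right]
    ring
  · intro a b c d
    simp only [hΨ, pz_I (pb_lin (H_lin _ _) _), pz_I (H_lin _ _), H_I_left h.cx,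
      pz_I (pb_lin ofReal_lin _), mul_assoc I, ← mul_sum]
    ring
  · intro a b c d
    have e : ∀ x y z : ℂ, x * y * (-I * z) = -I * (x * y * z) := fun x y z => by ring
    simp only [hΨ, pb_I (H_lin _ _), e, ← mul_sum]
    simp only [pz, pb_I (H_lin _ _), pb_I ofReal_lin, H_I_right]
    ring
  · intro a b c d
    have e : ∀ q, pz (fun β => H β (I • c) (bs q)) a B1 = I * pz (fun β => H β c (bs q)) a B1 :=
      fun q => by simp only [pz, H_I_left (h1.cx _)]; ring
    simp only [hΨ, e, mul_assoc I, ← mul_sum]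
    simp only [pz, pb, H_I_left (c2 _ _), H_I_left h.cx]
    ring
  · intro a b c d
    have e : ∀ q, pb (fun β => H β (bs q) (I • d)) b B1 = -I * pb (fun β => H β (bs q) d) b B1 :=
      fun q => by simp only [pb, H_I_right]; ring
    have e' : ∀ x y z : ℂ, x * y * (-I * z) = -I * (x * y * z) := fun x y z => by ring
    simp only [hΨ, e, e', ← mul_sum]
    simp only [pz, pb, H_I_right]
    ring
  · intro v
    obtain ⟨σ, hσ⟩ := h.dual (B1 v v - B1 (I • v) (I • v))
    simp only [sub_apply] at hσ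
    have e0 := congrArg (fun x : ℝ => (x : ℂ)) (hv v σ hσ)
    have e1 : ∀ w, pz (fun β => H β v w) v B1 = H β σ w / 2 := fun w => by
      simp only [pz, H, hσ, cx_left (h1.cx (I • v)) v, II_smul, map_neg]
      push_cast
      linear_combination -(B1 (I • v) v (I • w) : ℂ) / 2 * I_mul_I
    have e2 : ∀ w, pb (fun β => H β w v) v B1 = H β w σ / 2 := fun w => by
      rw [← h1.conj_pz, e1, map_div₀, h.conj_H, map_ofNat]
    have e3 : ∑ q, ∑ p, H β σ (bs q) / 2 * (hM β)⁻¹ q p * (H β (bs p) σ / 2) = β σ σ / 4 := by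
      rw [← h.H_self, ← h.quad, sum_div]
      refine sum_congr rfl fun q _ => ?_
      rw [sum_div]
      exact sum_congr rfl fun p _ => by ring
    have e4 : ∀ t u, H (B2 t u) v v = B2 t u v v := fun t u => by
      have e : B2 t u v (I • v) = 0 := by linarith [cx_left (c2 t u) v v, y2 t u (I • v) v]
      simp [H, e]
    simp only [hΨ, e1, e2, e3]
    simp only [pz, pb, e4, h.H_self, s2 (I • v) v, sf (I • v) v]
    push_cast at e0
    linear_combination e0 / 4 + ((B2 (I • v) (I • v) v v : ℂ) -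
      φ * β v v * f2 (I • v) (I • v)) / 4 * I_mul_I

end Pool.Agent.P.MP_3e99c6_gt
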