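import Pool.Agent.P.MP_3e99c6_gt.Trans

/-! Holomorphic Killing fields and the Bismut holomorphic sectional curvature. -/

open scoped ContDiff Topology Manifold
open Complex Filter Set

set_option maxSynthPendingDepth 3

noncomputable section

namespace Pool.Agent.P.MP_3e99c6_gt

variable {n : ℕ}

theorem hess_nonpos {F : V n → ℝ} {y : V n} (hF : ContDiffAt ℝ ∞ F y) (hm : IsLocalMax F y)
    (v : V n) : fderiv ℝ (fderiv ℝ F) y v v ≤ 0 := by
  by_contra hpos
  have hl : ∀ t : ℝ, HasDerivAt (fun t : ℝ => y + t • v) v t := fun t => by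
    simpa using ((hasDerivAt_id t).smul_const v).const_add y
  have hy : y + (0 : ℝ) • v = y := by simp
  have ht : Tendsto (fun t : ℝ => y + t • v) (𝓝 0) (𝓝 y) := by
    have := (hl 0).continuousAt.tendsto
    rwa [hy] at this
  have h1 : deriv (fun t : ℝ => F (y + t • v)) =ᶠ[𝓝 0] fun t => fderiv ℝ F (y + t • v) v := by
    filter_upwards [ht.eventually ((hF.of_le two_le_inf).eventually (by simp))] with t h
    exact ((h.differentiableAt (by simp)).hasFDerivAt.comp_hasDerivAt t (hl t)).deriv
  have h2 : HasDerivAt (fun t : ℝ => fderiv ℝ F (y + t • v) v) (fderiv ℝ (fderiv ℝ F) y v v) 0 := by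
    have hd : HasFDerivAt (fderiv ℝ F) (fderiv ℝ (fderiv ℝ F) y) (y + (0 : ℝ) • v) := by
      rw [hy]
      exact ((hF.fderiv_right (m := 1) two_le_inf).differentiableAt (by simp)).hasFDerivAt
    simpa using (hd.comp_hasDerivAt 0 (hl 0)).clm_apply (hasDerivAt_const 0 v)
  have hM : IsLocalMax (fun t : ℝ => F (y + t • v)) 0 := by
    have : ∀ᶠ t : ℝ in 𝓝 0, F (y + t • v) ≤ F y := ht.eventually hm
    simpa [IsLocalMax, IsMaxFilter] using this
  have h3 : deriv (deriv fun t : ℝ => F (y + t • v)) 0 = fderiv ℝ (fderiv ℝ F) y v v := by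
    rw [h1.deriv_eq, h2.deriv]
  have hc : ContinuousAt (fun t : ℝ => F (y + t • v)) 0 :=
    ContinuousAt.comp_of_eq hF.continuousAt (hl 0).continuousAt hy
  have hmin := isLocalMin_of_deriv_deriv_pos (h3 ▸ not_le.1 hpos) hM.deriv_eq_zero hc
  have e : (fun t : ℝ => F (y + t • v)) =ᶠ[𝓝 0] fun _ => F (y + (0 : ℝ) • v) := by
    filter_upwards [hM, hmin] with t a b using le_antisymm a b
  rw [← h3, e.deriv.deriv_eq] at hpos
  simp at hpos

theorem crit_eq {G : V n → Bil n} {U : Set (V n)} (hG : HermOn G U) {Γ : V n → Chr n}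
    (hB : IsBismut G Γ U) {X : V n → V n} (hX : AnalyticOnNhd ℂ X U) {y : V n} (hy : y ∈ U)
    (hK : ∀ a b, fderiv ℝ G y (X y) a b + G y (fderiv ℝ X y a) b + G y a (fderiv ℝ X y b) = 0)
    (h0 : fderiv ℝ (fun z => G z (X z) (X z)) y = 0) :
    fderiv ℝ (fderiv ℝ fun z => G z (X z) (X z)) y (X y) (X y) +
      fderiv ℝ (fderiv ℝ fun z => G z (X z) (X z)) y (I • X y) (I • X y) =
      -2 * G y (curv Γ y (X y) (I • X y) (I • X y)) (X y) := by
  have hU := hG.op.mem_nhds hy
  have hs : ∀ z ∈ U, ContDiffAt ℝ ∞ X z := fun z hz =>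
    ((hX z hz).contDiffAt.restrict_scalars ℝ)
  have hd : ∀ z ∈ U, DifferentiableAt ℝ X z := fun z hz => (hs z hz).differentiableAt (by simp)
  have hd2 : DifferentiableAt ℝ (fderiv ℝ X) y :=
    ((hs y hy).fderiv_right (m := 1) two_le_inf).differentiableAt (by simp)
  have hc1 : ∀ z ∈ U, ∀ a, fderiv ℝ X z (I • a) = I • fderiv ℝ X z a := fun z hz a => by
    rw [(hX z hz).differentiableAt.fderiv_restrictScalars ℝ]
    exact (fderiv ℂ X z).map_smul I a
  have ha : ∀ a, DifferentiableAt ℝ (fun z => fderiv ℝ X z a) y := fun a =>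
    hd2.clm_apply (differentiableAt_const _)
  have ha' : ∀ t a, fderiv ℝ (fun z => fderiv ℝ X z a) y t = fderiv ℝ (fderiv ℝ X) y t a :=
    fun t a => by
      rw [fderiv_clm_apply hd2 (differentiableAt_const _)]
      simp
  have hc2 : ∀ t a, fderiv ℝ (fderiv ℝ X) y t (I • a) = I • fderiv ℝ (fderiv ℝ X) y t a := by
    intro t a
    have e : (fun z => fderiv ℝ X z (I • a)) =ᶠ[𝓝 y] I • fun z => fderiv ℝ X z a :=
      eventually_of_mem hU fun z hz => hc1 z hz a
    rw [← ha', e.fderiv_eq, fderiv_const_smul (ha a), ← ha']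
    rfl
  have hsy : ∀ t a, fderiv ℝ (fderiv ℝ X) y t a = fderiv ℝ (fderiv ℝ X) y a t :=
    (hs y hy).isSymmSndFDerivAt (by simpa using two_le_inf)
  have e1 : ∀ z ∈ U, ∀ t, fderiv ℝ (fun z => G z (X z) (X z)) z t =
      fderiv ℝ G z t (X z) (X z) + 2 * G z (fderiv ℝ X z t) (X z) := fun z hz t => by
    rw [fderiv_clm_apply ((hG.diff hz).clm_apply (hd z hz)) (hd z hz),
      fderiv_clm_apply (hG.diff hz) (hd z hz)]
    simp [hG.symm z hz (X z) (fderiv ℝ X z t)]
    ring
  have hF : DifferentiableAt ℝ (fderiv ℝ fun z => G z (X z) (X z)) y :=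
    (((((hG.at' hy).clm_apply (hs y hy)).clm_apply (hs y hy))).fderiv_right (m := 1)
      two_le_inf).differentiableAt (by simp)
  have e2 : ∀ t, fderiv ℝ (fderiv ℝ fun z => G z (X z) (X z)) y t t =
      fderiv ℝ (fderiv ℝ G) y t t (X y) (X y) + 4 * fderiv ℝ G y t (fderiv ℝ X y t) (X y) +
      2 * G y (fderiv ℝ (fderiv ℝ X) y t t) (X y) +
      2 * G y (fderiv ℝ X y t) (fderiv ℝ X y t) := fun t => by
    have e : (fun z => fderiv ℝ (fun z => G z (X z) (X z)) z t) =ᶠ[𝓝 y]
        fun z => fderiv ℝ G z t (X z) (X z) + 2 * G z (fderiv ℝ X z t) (X z) :=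
      eventually_of_mem hU fun z hz => e1 z hz t
    have e' := fderiv_clm_apply hF (differentiableAt_const t)
    have d0 : DifferentiableAt ℝ (fun z => fderiv ℝ G z t) y :=
      (hG.diff2 hy).clm_apply (differentiableAt_const _)
    have d1 := d0.clm_apply (hd y hy)
    have d2 := (hG.diff hy).clm_apply (ha t)
    rw [e.fderiv_eq, fderiv_fun_add (d1.clm_apply (hd y hy)) ((d2.clm_apply (hd y hy)).const_mul 2),
      fderiv_const_mul (d2.clm_apply (hd y hy)), fderiv_clm_apply d1 (hd y hy),
      fderiv_clm_apply d0 (hd y hy), fderiv_clm_apply d2 (hd y hy),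
      fderiv_clm_apply (hG.diff hy) (ha t),
      fderiv_clm_apply (hG.diff2 hy) (differentiableAt_const _)] at e'
    have e'' := congrArg (fun f : V n →L[ℝ] ℝ => f t) e'
    simp [ha', hG.symm1 hy t (X y) (fderiv ℝ X y t)] at e''
    linarith
  have hcr : ∀ t, fderiv ℝ G y t (X y) (X y) = -2 * G y (fderiv ℝ X y t) (X y) := fun t => by
    have e := e1 y hy t
    rw [h0, zero_apply] at e
    linarith
  set v := X y
  set D := fderiv ℝ X y
  have s := hG.symm y hy
  have ea : Γ y v v = -D v := (hG.hm hy).ext fun w => by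
    rw [hG.a_eq hB hy, hcr, map_neg, neg_apply]
    linarith [hK v w, s v (D w)]
  have e3 : G y (Γ y (I • v) (I • D v)) v = G y (D (D v)) v := by
    rw [hB.cx y hy, cx_left (hG.cx y hy), ← HermOn.tors_right hB hy, hG.half hB hy, hG.cx1 hy, hcr]
    ring
  have e4 := hB.metric y hy (I • v) (I • D v) v
  have e5 := hK (D v) v
  rw [e2, e2, hG.hsc_eq hB hy, hc1 y hy, hc2, hsy (I • v) v, hc2, II_smul, hG.cx y hy, ea]
  simp only [map_neg, neg_apply, smul_neg]
  linarith

theorem killing_main {M : Type*} [TopologicalSpace M] [ChartedSpace (V n) M] [CompactSpace M]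
    [Nonempty M] (hC : ComplexMfd n M) {g : M → Bil n} (hg : IsHermitian g) {c : ℝ} (hc : c ≠ 0)
    (hH : ConstHSC g c) {X : M → V n} (hX : S.IsHolKilling g X) : ∃ x, X x = 0 := by
  by_contra! hne
  have hG := hg.hermOn hC
  have hv : ∀ p, ∀ y ∈ (chartAt (V n) p).target, inChart g p y (vecIn X p y) (vecIn X p y) =
      g ((chartAt (V n) p).symm y) (X ((chartAt (V n) p).symm y)) (X ((chartAt (V n) p).symm y)) := by
    intro p y hy
    set x := (chartAt (V n) p).symm y with hx
    have h1 := mem_chart_target (V n) x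
    have h2 : (chartAt (V n) x).symm (chartAt (V n) x x) = x :=
      (chartAt (V n) x).left_inv (mem_chart_source _ x)
    have e := tr_comp hC (p := x) (q := p) (r := x) h1
      (by rw [h2]; exact (chartAt (V n) p).map_target hy) (by rw [h2]; exact mem_chart_source _ x)
      (X x)
    rw [tr_self h1, tr, h2, (chartAt (V n) p).right_inv hy] at e
    rw [inChart_apply]
    exact congrArg₂ (fun a b => g x a b) e.symm e.symm
  have hs : ∀ p, ∀ y ∈ (chartAt (V n) p).target,
      ContDiffAt ℝ ∞ (fun z => inChart g p z (vecIn X p z) (vecIn X p z)) y := fun p y hy =>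
    (((hG p).at' hy).clm_apply ((hX.hol p y hy).contDiffAt.restrict_scalars ℝ)).clm_apply
      ((hX.hol p y hy).contDiffAt.restrict_scalars ℝ)
  have hf : Continuous fun x => g x (X x) (X x) := continuous_iff_continuousAt.2 fun x => by
    refine ((hs x _ (mem_chart_target _ x)).continuousAt.comp
      ((chartAt (V n) x).continuousAt (mem_chart_source _ x))).congr ?_
    filter_upwards [(chartAt (V n) x).open_source.mem_nhds (mem_chart_source _ x)] with z hz
    rw [Function.comp_apply, hv x _ ((chartAt (V n) x).map_source hz),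
      (chartAt (V n) x).left_inv hz]
  have key : ∀ s : ℝ, 0 ≤ s * c := by
    intro s
    obtain ⟨x, -, hx⟩ := isCompact_univ.exists_isMaxOn univ_nonempty
      (continuous_const.mul hf : Continuous fun x => s * g x (X x) (X x)).continuousOn
    obtain ⟨Γ, hB, hΓ⟩ := hH x
    have hy := mem_chart_target (V n) x
    have h2 : (chartAt (V n) x).symm (chartAt (V n) x x) = x :=
      (chartAt (V n) x).left_inv (mem_chart_source _ x)
    set y := chartAt (V n) x x
    set F : V n → ℝ := fun z => inChart g x z (vecIn X x z) (vecIn X x z) with hF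
    have hm : IsLocalMax (s • F) y := by
      filter_upwards [(chartAt (V n) x).open_target.mem_nhds hy] with z hz
      simp only [hF, Pi.smul_apply, smul_eq_mul]
      rw [hv x z hz, hv x y hy, h2]
      exact hx (mem_univ _)
    rcases eq_or_ne s 0 with rfl | hs0
    · simp
    have e0 : fderiv ℝ (s • F) = s • fderiv ℝ F := fderiv_const_smul_field s
    have e1 : fderiv ℝ F y = 0 := by
      have e := hm.fderiv_eq_zero
      rw [e0] at e
      exact (smul_eq_zero.1 e).resolve_left hs0
    have e2 := crit_eq (hG x) hB (hX.hol x) hy (hX.killing x y hy) e1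
    have e3 := fun v => hess_nonpos ((hs x y hy).const_smul s) hm v
    have e4 : ∀ v, s * fderiv ℝ (fderiv ℝ F) y v v ≤ 0 := fun v => by
      have e := e3 v
      change fderiv ℝ (fderiv ℝ (s • F)) y v v ≤ 0 at e
      rw [e0, fderiv_const_smul_field] at e
      exact e
    have e5 : 0 < inChart g x y (vecIn X x y) (vecIn X x y) ^ 2 := by
      rw [hv x y hy]
      exact pow_pos (hg.pos _ _ (hne _)) 2
    rw [hΓ y hy] at e2
    have e6 := e4 (vecIn X x y)
    have e7 := e4 (I • vecIn X x y)
    have e8 : 0 ≤ s * c * inChart g x y (vecIn X x y) (vecIn X x y) ^ 2 := by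
      have := congrArg (fun t => s * t) e2
      simp only [mul_add] at this
      linarith
    exact nonneg_of_mul_nonneg_left e8 e5
  have h1 := key 1
  have h2 := key (-1)
  exact hc (by linarith)

end Pool.Agent.P.MP_3e99c6_gt
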