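import Pool.Agent.P.MP_3e99c6_gt.Jet
import Pool.Agent.P.MP_3e99c6_gt.Data

/-! The local theorem. -/

open scoped ComplexConjugate ContDiff Topology
open Complex Finset Filter

set_option maxSynthPendingDepth 3

noncomputable section

namespace Pool.Agent.P.MP_3e99c6_gt

theorem Dat.div_final {ι A : Type} [Fintype ι] [DecidableEq ι] [CommRing A] [Algebra ℂ A]
    (d : Dat ι A) (h1 : d.w = -(2 * d.c * d.φ)) (h2 : ∀ i j, d.D i (d.Db j d.φ) = -d.c * d.h i j) :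
    ∑ m, d.D m (d.φi ^ Fintype.card ι * ((Matrix.of d.h).det * ∑ l, d.k l m * d.Db l d.φ)) =
      d.φi ^ Fintype.card ι * (Matrix.of d.h).det * (Fintype.card ι * d.c) := by
  have e1 : ∀ m (N : ℕ), d.D m (d.φi ^ N) = -(N * d.φi ^ (N + 1) * d.D m d.φ) := by
    intro m N
    have e := congrArg (d.D m) d.hφ
    rw [Derivation.leibniz, Derivation.map_one_eq_zero, smul_eq_mul, smul_eq_mul] at e
    induction N with
    | zero => simp
    | succ N ih =>
      rw [pow_succ, Derivation.leibniz, ih, smul_eq_mul, smul_eq_mul]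
      push_cast
      linear_combination d.φi ^ (N + 1) * e - d.φi ^ N * d.D m d.φi * d.hφ
  have e2 : ∑ m, ∑ l, d.k l m * d.D m (d.Db l d.φ) = -(Fintype.card ι * d.c) := by
    rw [sum_comm]
    have e : ∀ l, ∑ m, d.k l m * d.D m (d.Db l d.φ) = -d.c := fun l => by
      have e := d.kh l l
      rw [dl_self] at e
      rw [← mul_one (-d.c), ← e, mul_sum]
      exact sum_congr rfl fun m _ => by rw [h2]; ring
    simp [e]
  have e3 : ∑ m, ((Matrix.of d.h).det * ∑ l, d.k l m * d.Db l d.φ) * d.D m d.φ =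
      (Matrix.of d.h).det * d.w := by
    rw [← d.hw, sum_comm, mul_sum]
    refine sum_congr rfl fun m _ => ?_
    rw [mul_assoc, sum_mul]
    congr 1
    exact sum_congr rfl fun l _ => by ring
  have e4 : ∀ m, d.D m (d.φi ^ Fintype.card ι *
      ((Matrix.of d.h).det * ∑ l, d.k l m * d.Db l d.φ)) =
      d.φi ^ Fintype.card ι * d.D m ((Matrix.of d.h).det * ∑ l, d.k l m * d.Db l d.φ) -
      Fintype.card ι * d.φi ^ (Fintype.card ι + 1) *
        (((Matrix.of d.h).det * ∑ l, d.k l m * d.Db l d.φ) * d.D m d.φ) := fun m => by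
    rw [Derivation.leibniz, e1, smul_eq_mul, smul_eq_mul]; ring
  simp only [e4, sum_sub_distrib, ← mul_sum]
  rw [d.div_grad, e2, e3, h1]
  linear_combination 2 * Fintype.card ι * d.c * d.φi ^ Fintype.card ι * (Matrix.of d.h).det * d.hφ

variable {n : ℕ}

theorem cd_det {A : V n → Matrix (Fin n) (Fin n) ℂ} {x : V n}
    (h : ∀ i j, ContDiffAt ℝ ∞ (fun y => A y i j) x) : ContDiffAt ℝ ∞ (fun y => (A y).det) x := by
  simp only [Matrix.det_apply']
  exact ContDiffAt.sum fun σ _ => contDiffAt_const.mul (contDiffAt_prod fun i _ => h _ _)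

theorem cd_inv {A : V n → Matrix (Fin n) (Fin n) ℂ} {x : V n}
    (h : ∀ i j, ContDiffAt ℝ ∞ (fun y => A y i j) x) (h0 : (A x).det ≠ 0) (i j : Fin n) :
    ContDiffAt ℝ ∞ (fun y => (A y)⁻¹ i j) x := by
  simp only [Matrix.inv_def, Ring.inverse_eq_inv, Matrix.smul_apply, smul_eq_mul,
    Matrix.adjugate_apply]
  refine ((cd_det h).inv h0).mul (cd_det fun a b => ?_)
  simp only [Matrix.updateRow_apply]
  split_ifs
  · exact contDiffAt_const
  · exact h a b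

/-- evaluation -/
def ev {x₀ : V n} (y : V n) : Sm x₀ →ₐ[ℂ] ℂ := (Pi.evalAlgHom ℂ (fun _ => ℂ) y).comp (Sm x₀).val

theorem ev_DS {x₀ : V n} (y t : V n) (u : Sm x₀) : ev y (DS t u) = dz t u.1 y :=
  congrFun (DS_val t u) y

theorem ev_DbS {x₀ : V n} (y t : V n) (u : Sm x₀) : ev y (DbS t u) = dzb t u.1 y :=
  congrFun (DbS_val t u) y

theorem ev_of_gm {x₀ : V n} {u v : Sm x₀} (h : gm u = gm v) : ev x₀ u = ev x₀ v :=
  ((gm_eq u v).1 h).self_of_nhds

/-- The local situation. -/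
structure Loc (B : V n → Bil n) (φ : V n → ℝ) (c : ℝ) (U : Set (V n)) : Prop where
  herm : HermOn B U
  sm : ContDiffOn ℝ ∞ φ U
  pos : ∀ y ∈ U, 0 < φ y
  closed : ∀ y ∈ U, ∀ u v w, dOmega B y u v w = 0
  eq : ∀ y ∈ U, ∀ z, (∀ w, B y z w = fderiv ℝ φ y w) → ∀ v σ,
    (∀ w, B y σ w = fderiv ℝ B y v v w - fderiv ℝ B y (I • v) (I • v) w) →
    -(fderiv ℝ (fderiv ℝ B) y v v v v + fderiv ℝ (fderiv ℝ B) y (I • v) (I • v) v v) + B y σ σ =
      4 * (c / 2 * (φ y)⁻¹ + B y z z / 4 * (φ y)⁻¹ ^ 2) * B y v v ^ 2 - (φ y)⁻¹ * B y v v *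
        (fderiv ℝ (fderiv ℝ φ) y v v + fderiv ℝ (fderiv ℝ φ) y (I • v) (I • v))

namespace Loc

variable {B : V n → Bil n} {φ : V n → ℝ} {c : ℝ} {U : Set (V n)} (L : Loc B φ c U) {x₀ y : V n}
include L

theorem at' (hy : y ∈ U) : ContDiffAt ℝ ∞ φ y := L.sm.contDiffAt (L.herm.op.mem_nhds hy)

theorem jet1 (hy : y ∈ U) : Jet1 (fderiv ℝ B y) :=
  ⟨L.herm.symm1 hy, L.herm.cx1 hy, L.closed y hy⟩

theorem dzb_φ (hy : y ∈ U) {z : V n} (hz : ∀ w, B y z w = fderiv ℝ φ y w) (t : V n) :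
    dzb t (fun y => (φ y : ℂ)) y = H (B y) z t / 2 := by
  rw [dzb_lin ofReal_lin ((L.at' hy).differentiableAt (by simp)), pb, H, hz, hz]

theorem dz_φ (hy : y ∈ U) {z : V n} (hz : ∀ w, B y z w = fderiv ℝ φ y w) (t : V n) :
    dz t (fun y => (φ y : ℂ)) y = H (B y) t z / 2 := by
  rw [dz_lin ofReal_lin ((L.at' hy).differentiableAt (by simp)), pz, ← (L.herm.hm hy).conj_H,
    H, hz, hz]
  simp [sub_eq_add_neg]

/-- the matrix -/
def hS (hx : x₀ ∈ U) (i j : Fin n) : Sm x₀ :=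
  ⟨fun y => H (B y) (bs i) (bs j), contDiffAt_lin (H_lin _ _) (L.herm.at' hx)⟩
/-- the inverse matrix -/
def kS (hx : x₀ ∈ U) (i j : Fin n) : Sm x₀ :=
  ⟨fun y => (hM (B y))⁻¹ i j, cd_inv (fun i j => (L.hS hx i j).2) (L.herm.hm hx).det_ne i j⟩
/-- the factor -/
def φS (hx : x₀ ∈ U) : Sm x₀ := ⟨fun y => φ y, contDiffAt_lin ofReal_lin (L.at' hx)⟩
/-- the inverse factor -/
def φiS (hx : x₀ ∈ U) : Sm x₀ := ⟨fun y => (φ y : ℂ)⁻¹,
  (contDiffAt_lin ofReal_lin (L.at' hx)).inv (ofReal_ne_zero.2 (L.pos _ hx).ne')⟩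
/-- the norm of the gradient -/
def wS (hx : x₀ ∈ U) : Sm x₀ :=
  ∑ a, ∑ m, L.kS hx a m * DS (bs m) (L.φS hx) * DbS (bs a) (L.φS hx)

theorem ev_w (hx : x₀ ∈ U) (hy : y ∈ U) {z : V n} (hz : ∀ w, B y z w = fderiv ℝ φ y w) :
    ev y (L.wS hx) = B y z z / 4 := by
  simp only [wS, map_sum, map_mul, ev_DS, ev_DbS]
  rw [← (L.herm.hm hy).H_self, ← (L.herm.hm hy).quad, sum_div]
  refine sum_congr rfl fun a _ => ?_
  rw [sum_div]
  refine sum_congr rfl fun m _ => ?_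
  change (hM (B y))⁻¹ a m * dz _ (fun y => (φ y : ℂ)) y * dzb _ (fun y => (φ y : ℂ)) y = _
  rw [L.dz_φ hy hz, L.dzb_φ hy hz]
  ring

theorem gm_of (hx : x₀ ∈ U) {u v : Sm x₀} (h : ∀ y ∈ U, ev y u = ev y v) : gm u = gm v :=
  (gm_eq u v).2 (eventually_of_mem (L.herm.op.mem_nhds hx) h)

theorem K1 (hx : x₀ ∈ U) (m i j : Fin n) :
    DG (bs m) (gm (L.hS hx i j)) = DG (bs i) (gm (L.hS hx m j)) := by
  rw [DG_gm, DG_gm]
  refine L.gm_of hx fun y hy => ?_
  rw [ev_DS, ev_DS]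
  exact (dz_lin (H_lin _ _) (L.herm.diff hy) _).trans (((L.jet1 hy).K1 _ _ _).trans
    (dz_lin (H_lin _ _) (L.herm.diff hy) _).symm)

theorem K2 (hx : x₀ ∈ U) (l i j : Fin n) :
    DbG (bs l) (gm (L.hS hx i j)) = DbG (bs j) (gm (L.hS hx i l)) := by
  rw [DbG_gm, DbG_gm]
  refine L.gm_of hx fun y hy => ?_
  rw [ev_DbS, ev_DbS]
  exact (dzb_lin (H_lin _ _) (L.herm.diff hy) _).trans (((L.jet1 hy).K2 _ _ _).trans
    (dzb_lin (H_lin _ _) (L.herm.diff hy) _).symm)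

/-- the curvature expression -/
def ΨS (hx : x₀ ∈ U) (i j m l : Fin n) : Sm x₀ :=
  -DS (bs i) (DbS (bs j) (L.hS hx m l)) +
    ∑ q, ∑ p, DS (bs i) (L.hS hx m q) * L.kS hx q p * DbS (bs j) (L.hS hx p l) -
    ((algebraMap ℂ _ (c / 2) * L.φiS hx + L.wS hx * L.φiS hx ^ 2) * L.hS hx i j -
      L.φiS hx * DS (bs i) (DbS (bs j) (L.φS hx))) * L.hS hx m l

theorem Ψ_sum (hx : x₀ ∈ U) (i j m l : Fin n) :
    gm (L.ΨS hx i j m l + L.ΨS hx m j i l + L.ΨS hx i l m j + L.ΨS hx m l i j) = gm 0 := by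
  refine L.gm_of hx fun y hy => ?_
  obtain ⟨z, hz⟩ := (L.herm.hm hy).dual (fderiv ℝ φ y)
  have y2 : ∀ t u v w, fderiv ℝ (fderiv ℝ B) y t u v w = fderiv ℝ (fderiv ℝ B) y t u w v := by
    intro t u a b
    rw [← fderiv_app3 (L.herm.diff2 hy), ← fderiv_app3 (L.herm.diff2 hy)]
    congr 1
    exact Filter.EventuallyEq.fderiv_eq
      (eventually_of_mem (L.herm.op.mem_nhds hy) fun z hz => L.herm.symm1 hz u a b)
  have e := curv_point (L.herm.hm hy) (L.jet1 hy) (L.herm.symm2 hy) y2 (L.herm.cx2 hy)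
    ((L.at' hy).isSymmSndFDerivAt (by simpa using two_le_inf)) (L.eq y hy z hz) _
    (fun _ _ _ _ => rfl) (bs i) (bs j) (bs m) (bs l)
  have e1 : ∀ i j m l, ev y (DS (bs i) (DbS (bs j) (L.hS hx m l))) =
      pz (pb (fun β => H β (bs m) (bs l)) (bs j)) (bs i) (fderiv ℝ (fderiv ℝ B) y) :=
    fun i j m l => by
      rw [ev_DS, DbS_val]
      exact dz_dzb_lin (H_lin _ _) (L.herm.at' hy) _ _
  have e2 : ∀ i j, ev y (DS (bs i) (DbS (bs j) (L.φS hx))) =
      pz (pb (fun r : ℝ => (r : ℂ)) (bs j)) (bs i) (fderiv ℝ (fderiv ℝ φ) y) := fun i j => by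
    rw [ev_DS, DbS_val]
    exact dz_dzb_lin ofReal_lin (L.at' hy) _ _
  have e3 : ∀ i m l, ev y (DS (bs i) (L.hS hx m l)) =
      pz (fun β => H β (bs m) (bs l)) (bs i) (fderiv ℝ B y) := fun i m l => by
    rw [ev_DS]
    exact dz_lin (H_lin _ _) (L.herm.diff hy) _
  have e4 : ∀ i m l, ev y (DbS (bs i) (L.hS hx m l)) =
      pb (fun β => H β (bs m) (bs l)) (bs i) (fderiv ℝ B y) := fun i m l => by
    rw [ev_DbS]
    exact dzb_lin (H_lin _ _) (L.herm.diff hy) _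
  have e5 : ∀ i j, ev y (L.hS hx i j) = H (B y) (bs i) (bs j) := fun i j => rfl
  have e6 : ∀ i j, ev y (L.kS hx i j) = (hM (B y))⁻¹ i j := fun i j => rfl
  have e7 : ev y (L.φiS hx) = (φ y : ℂ)⁻¹ := rfl
  simp only [ΨS, map_add, map_sub, map_neg, map_mul, map_sum, map_pow, map_zero, e1, e2, e3, e4,
    e5, e6, e7, L.ev_w hx hy hz, AlgHom.commutes, Algebra.algebraMap_self, RingHom.id_apply]
  push_cast at e
  exact e

/-- The germs of the data. -/
def dat (hx : x₀ ∈ U) : Dat (Fin n) (Gm x₀) where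
  h i j := gm (L.hS hx i j)
  k i j := gm (L.kS hx i j)
  D i := DG (bs i)
  Db i := DbG (bs i)
  φ := gm (L.φS hx)
  φi := gm (L.φiS hx)
  c := gm (algebraMap ℂ _ (c / 2))
  w := gm (L.wS hx)
  hφ := by
    rw [← map_mul, ← map_one gm]
    exact L.gm_of hx fun y hy => mul_inv_cancel₀ (ofReal_ne_zero.2 (L.pos _ hy).ne')
  hw := by simp only [wS, map_sum, map_mul, DG_gm, DbG_gm]
  hk i m := by
    have e : gm (∑ l, L.hS hx i l * L.kS hx l m) = gm (if i = m then 1 else 0) :=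
      L.gm_of hx fun y hy => by
        rw [map_sum, apply_ite (ev y), map_one, map_zero]
        exact (L.herm.hm hy).mul_inv i m
    rwa [map_sum, apply_ite gm, map_one, map_zero] at e
  kh i m := by
    have e : gm (∑ l, L.kS hx i l * L.hS hx l m) = gm (if i = m then 1 else 0) :=
      L.gm_of hx fun y hy => by
        rw [map_sum, apply_ite (ev y), map_one, map_zero]
        exact (L.herm.hm hy).inv_mul i m
    rwa [map_sum, apply_ite gm, map_one, map_zero] at e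
  DD a b := DG_DG _ _
  BB a b := DbG_DbG _ _
  DB a b := DG_DbG _ _
  Dc a := by rw [AlgHom.commutes, Derivation.map_algebraMap]
  Bc a := by rw [AlgHom.commutes, Derivation.map_algebraMap]
  K1 := L.K1 hx
  K2 := L.K2 hx
  curv i j m l := by
    have e := L.Ψ_sum hx i j m l
    simp only [ΨS, map_add, map_sub, map_neg, map_mul, map_sum, map_pow, map_zero, ← DG_gm,
      ← DbG_gm] at e
    have s1 : ∀ j l, DG (bs m) (DbG (bs j) (gm (L.hS hx i l))) =
        DG (bs i) (DbG (bs j) (gm (L.hS hx m l))) := fun j l => by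
      rw [DG_DbG, DG_DbG, L.K1]
    simp only [s1, L.K1 hx m i, L.K2 hx l _ j] at e
    linear_combination e

theorem main (hn : 3 ≤ n) (hc : c ≠ 0) (hx : x₀ ∈ U) {Z : V n → V n}
    (hZ : ∀ y ∈ U, ∀ w, B y (Z y) w = fderiv ℝ φ y w) (h0 : Z x₀ ≠ 0) :
    B x₀ (Z x₀) (Z x₀) = -(4 * c * φ x₀) ∧
    ∑ m, dz (bs m) (fun y => (φ y : ℂ)⁻¹ ^ n * (hM (B y)).det * Z y m) x₀ =
      (φ x₀ : ℂ)⁻¹ ^ n * (hM (B x₀)).det * (n * c) := by
  have hw : ev x₀ (L.wS hx) = _ := L.ev_w hx hx (hZ x₀ hx)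
  obtain ⟨wi, hwi⟩ := gm_unit (L.wS hx) (by
    change ev x₀ (L.wS hx) ≠ 0
    rw [hw]
    exact div_ne_zero (ofReal_ne_zero.2 (L.herm.pos _ hx _ h0).ne') (by norm_num))
  obtain ⟨ci, hci⟩ := gm_unit (algebraMap ℂ (Sm x₀) (c / 2))
    (div_ne_zero (ofReal_ne_zero.2 hc) two_ne_zero)
  obtain ⟨h1, h2⟩ := (L.dat hx).main (by simpa using hn) hwi hci
  have h3 := (L.dat hx).div_final h1 h2
  constructor
  · have e : gm (L.wS hx) = gm (-(2 * algebraMap ℂ (Sm x₀) (c / 2) * L.φS hx)) := by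
      rw [map_neg, map_mul, map_mul, map_ofNat]
      exact h1
    have e2 := ev_of_gm e
    rw [hw, map_neg, map_mul, map_mul, map_ofNat, AlgHom.commutes] at e2
    change _ = -(2 * ((c : ℂ) / 2) * φ x₀) at e2
    have e3 : ((B x₀ (Z x₀) (Z x₀) : ℝ) : ℂ) = ((-(4 * c * φ x₀) : ℝ) : ℂ) := by
      push_cast
      linear_combination 4 * e2
    exact_mod_cast e3
  · have hd : (Matrix.of (L.dat hx).h).det = gm (Matrix.of (L.hS hx)).det :=
      (gm.map_det (Matrix.of (L.hS hx))).symm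
    have hd' : ∀ y, ev y (Matrix.of (L.hS hx)).det = (hM (B y)).det := fun y =>
      (ev y).map_det (Matrix.of (L.hS hx))
    have e : gm (∑ m, DS (bs m) (L.φiS hx ^ n * ((Matrix.of (L.hS hx)).det *
        ∑ l, L.kS hx l m * DbS (bs l) (L.φS hx)))) =
        gm (L.φiS hx ^ n * (Matrix.of (L.hS hx)).det * ((n : Sm x₀) * algebraMap ℂ (Sm x₀) (c / 2))) := by
      rw [hd, Fintype.card_fin] at h3
      simp only [map_sum, map_mul, map_pow, map_natCast, ← DG_gm, ← DbG_gm]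
      exact h3
    have e2 := ev_of_gm e
    simp only [map_sum, map_mul, map_pow, map_natCast, ev_DS, hd', AlgHom.commutes] at e2
    have e3 : ∀ m, dz (bs m) (fun y => (φ y : ℂ)⁻¹ ^ n * (hM (B y)).det * Z y m) x₀ =
        2 * dz (bs m) (L.φiS hx ^ n * ((Matrix.of (L.hS hx)).det *
        ∑ l, L.kS hx l m * DbS (bs l) (L.φS hx))).1 x₀ := fun m => by
      set u := L.φiS hx ^ n * ((Matrix.of (L.hS hx)).det *
        ∑ l, L.kS hx l m * DbS (bs l) (L.φS hx)) with hu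
      have e : (fun y => (φ y : ℂ)⁻¹ ^ n * (hM (B y)).det * Z y m) =ᶠ[𝓝 x₀] (2 : ℂ) • u.1 := by
        filter_upwards [L.herm.op.mem_nhds hx] with y hy
        change _ = 2 * ev y u
        simp only [hu, map_sum, map_mul, map_pow, ev_DbS, hd']
        have e : Z y m = 2 * ∑ l, ev y (L.kS hx l m) * dzb (bs l) (L.φS hx).1 y := by
          rw [← (L.herm.hm hy).coord (Z y) m, mul_sum]
          refine sum_congr rfl fun l _ => ?_
          change _ = 2 * ((hM (B y))⁻¹ l m * dzb _ (fun y => (φ y : ℂ)) y)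
          rw [L.dzb_φ hy (hZ y hy)]
          ring
        rw [e]
        change _ = 2 * ((φ y : ℂ)⁻¹ ^ n * _)
        ring
      rw [dz, dz, e.fderiv_eq, fderiv_const_smul (Sm.diff u).self_of_nhds]
      simp only [smul_apply, smul_eq_mul]
      ring
    simp only [e3, ← mul_sum]
    rw [e2]
    change 2 * ((φ x₀ : ℂ)⁻¹ ^ n * _ * (n * (c / 2 : ℂ))) = _
    ring

end Loc

end Pool.Agent.P.MP_3e99c6_gt
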