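import Pool.Agent.P.MP_3e99c6_gt.Local
import Pool.Agent.P.MP_3e99c6_gt.Conf

/-! The divergence of the Lee field. -/

open scoped ComplexConjugate ContDiff Topology
open Complex Finset Filter

set_option maxSynthPendingDepth 3

noncomputable section

namespace Pool.Agent.P.MP_3e99c6_gt

variable {n : ℕ} {G : V n → Bil n} {U : Set (V n)} {u : V n → ℝ} {Z : V n → V n} {y : V n}

theorem HermOn.cd_det (hG : HermOn G U) (hy : y ∈ U) :
    ContDiffAt ℝ ∞ (fun y => (hM (G y)).det) y :=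
  _root_.Pool.Agent.P.MP_3e99c6_gt.cd_det fun _ _ => contDiffAt_lin (H_lin _ _) (hG.at' hy)

theorem HermOn.cd_grad (hG : HermOn G U) (hu : ContDiffOn ℝ ∞ u U)
    (hZ : ∀ y ∈ U, ∀ w, G y (Z y) w = fderiv ℝ u y w) (hy : y ∈ U) (m : Fin n) :
    ContDiffAt ℝ ∞ (fun y => Z y m) y := by
  have e : (fun y => Z y m) =ᶠ[𝓝 y] fun y => ∑ l, (hM (G y))⁻¹ l m *
      (2 * pb (fun r : ℝ => (r : ℂ)) (bs l) (fderiv ℝ u y)) := by
    filter_upwards [hG.op.mem_nhds hy] with y hy
    rw [← (hG.hm hy).coord (Z y) m]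
    refine sum_congr rfl fun l _ => ?_
    rw [H, hZ y hy, hZ y hy, pb]
    ring
  refine ContDiffAt.congr_of_eventuallyEq ?_ e
  exact ContDiffAt.sum fun l _ =>
    (cd_inv (fun _ _ => contDiffAt_lin (H_lin _ _) (hG.at' hy)) (hG.hm hy).det_ne l m).mul
    (contDiffAt_const.mul (contDiffAt_lin (pb_lin ofReal_lin _)
      ((hu.contDiffAt (hG.op.mem_nhds hy)).fderiv_right (m := ∞) le_rfl)))

theorem det_smul (r : ℝ) (β : Bil n) : (hM (r • β)).det = (r : ℂ) ^ n * (hM β).det := by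
  have e : hM (r • β) = (r : ℂ) • hM β := by
    ext i j
    exact (H_lin _ _).map_smul r β
  rw [e, Matrix.det_smul, Fintype.card_fin]

theorem fderiv_exp_app (hu : DifferentiableAt ℝ u y) (w : V n) :
    fderiv ℝ (fun z => Real.exp (u z)) y w = Real.exp (u y) * fderiv ℝ u y w := by
  rw [fderiv_exp hu]
  rfl

theorem HermOn.div_lee (hG : HermOn G U) {Γ : V n → Chr n} (hB : IsBismut G Γ U) {c : ℝ}
    (hc : ∀ y ∈ U, ∀ v, G y (curv Γ y v (I • v) (I • v)) v = c * G y v v ^ 2)
    (hu : ContDiffOn ℝ ∞ u U)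
    (hK : ∀ y ∈ U, ∀ a b w, dOmega (fun z => Real.exp (u z) • G z) y a b w = 0)
    (hZ : ∀ y ∈ U, ∀ w, G y (Z y) w = fderiv ℝ u y w) (hn : 3 ≤ n) (hc0 : c ≠ 0) (hy : y ∈ U) :
    (∑ m, dz (bs m) (fun y => (hM (G y)).det * Z y m) y).re ≤ 0 ∧
    ((∑ m, dz (bs m) (fun y => (hM (G y)).det * Z y m) y).re = 0 → Z y = 0) := by
  have hp : ∀ y ∈ U, 0 < Real.exp (u y) := fun y _ => Real.exp_pos _
  have L : Loc (fun z => Real.exp (u z) • G z) (fun z => Real.exp (u z)) c U :=
    { herm := hG.smul hu.exp hp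
      sm := hu.exp
      pos := hp
      closed := hK
      eq := fun y hy z hz v σ hσ => by
        have e := conf_eq hG hB hu.exp hp hy (hK y hy) (hc y hy v) (z := z) (σ₀ := σ) hz hσ
        have h0 := (hp y hy).ne'
        simp only [smul_apply, smul_eq_mul]
        rw [e]
        field_simp
        ring }
  have hm : ∀ y ∈ U, Z y ≠ 0 → G y (Z y) (Z y) = -(4 * c) ∧
      ∑ m, dz (bs m) (fun y => (hM (G y)).det * Z y m) y = (hM (G y)).det * (n * c) := by
    intro y hy h0
    obtain ⟨h1, h2⟩ := L.main hn hc0 hy (Z := Z) (fun y hy w => by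
      rw [fderiv_exp_app ((hu.contDiffAt (hG.op.mem_nhds hy)).differentiableAt (by simp)),
        ← hZ y hy]
      rfl) h0
    have e : ∀ y, (Real.exp (u y) : ℂ)⁻¹ ^ n * (hM (Real.exp (u y) • G y)).det =
        (hM (G y)).det := fun y => by
      rw [det_smul, ← mul_assoc, ← mul_pow,
        inv_mul_cancel₀ (ofReal_ne_zero.2 (Real.exp_pos _).ne'), one_pow, one_mul]
    simp only [e] at h2
    refine ⟨mul_left_cancel₀ (hp y hy).ne' ?_, h2⟩
    simp only [smul_apply, smul_eq_mul] at h1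
    linear_combination h1
  by_cases h0 : Z y = 0
  · have hZc : ContinuousAt Z y :=
      continuousAt_pi.2 fun m => (hG.cd_grad hu hZ hy m).continuousAt
    have hc' : ContinuousAt (fun y => G y (Z y) (Z y)) y :=
      ((hG.at' hy).continuousAt.clm_apply hZc).clm_apply hZc
    have e : ∀ᶠ z in 𝓝 y, Z z = 0 := by
      filter_upwards [hG.op.mem_nhds hy, hc'.eventually_ne (y := -(4 * c)) (by simp [h0, hc0])]
        with z hz hz'
      by_contra h
      exact hz' (hm z hz h).1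
    have e2 : ∀ m, dz (bs m) (fun y => (hM (G y)).det * Z y m) y = 0 := fun m => by
      have e' : (fun y => (hM (G y)).det * Z y m) =ᶠ[𝓝 y] fun _ => 0 := by
        filter_upwards [e] with z hz
        simp [hz]
      simp [dz, e'.fderiv_eq]
    simp [e2, h0]
  · obtain ⟨h1, h2⟩ := hm y hy h0
    have h3 := hG.pos y hy _ h0
    have h4 : (∑ m, dz (bs m) (fun y => (hM (G y)).det * Z y m) y).re < 0 := by
      rw [h2, ← (hG.hm hy).det_re, re_ofReal_mul]
      refine mul_neg_of_pos_of_neg (hG.hm hy).det_re_pos ?_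
      have : (0 : ℝ) < n := by exact_mod_cast (by omega : 0 < n)
      simp only [mul_re, natCast_re, ofReal_re, natCast_im, ofReal_im, mul_zero, sub_zero]
      nlinarith
    exact ⟨h4.le, fun h => absurd h h4.ne⟩

theorem lee_unique {β : Bil n} (h : Hm β) (hn : 2 ≤ n) {α : V n →L[ℝ] ℝ}
    (hα : ∀ a b w, α a * β (I • b) w + α b * β (I • w) a + α w * β (I • a) b = 0) : α = 0 := by
  let f : V n →ₗ[ℝ] ℝ × ℝ :=
    { toFun := fun b => (α b, α (I • b))
      map_add' := fun a b => by simp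
      map_smul' := fun r a => by simp [smul_comm I r] }
  have hk : LinearMap.ker f ≠ ⊥ := LinearMap.ker_ne_bot_of_finrank_lt (by
    simp [Module.finrank_pi_fintype]
    omega)
  obtain ⟨b, hb, hb0⟩ := (Submodule.ne_bot_iff _).1 hk
  have h1 : α b = 0 := congrArg Prod.fst (LinearMap.mem_ker.1 hb)
  have h2 : α (I • b) = 0 := congrArg Prod.snd (LinearMap.mem_ker.1 hb)
  ext a
  have e := hα a b (I • b)
  rw [h1, h2, h.cx] at e
  have := h.pos b hb0
  simpa [this.ne'] using e

theorem dOmega_conf (hG : DifferentiableAt ℝ G y) (hu : DifferentiableAt ℝ u y) (a b w : V n) :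
    dOmega (fun z => Real.exp (u z) • G z) y a b w = Real.exp (u y) * (dOmega G y a b w +
      (fderiv ℝ u y a * G y (I • b) w + fderiv ℝ u y b * G y (I • w) a +
        fderiv ℝ u y w * G y (I • a) b)) := by
  simp only [dOmega, fderiv_conf hG hu.exp, fderiv_exp_app hu]
  ring

end Pool.Agent.P.MP_3e99c6_gt
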