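import Pool.Agent.P.MP_3e99c6_gt.Stokes2
import Pool.Agent.P.MP_3e99c6_gt.Local2

/-! The locally conformally Kaehler case. -/

open scoped ContDiff Topology Manifold
open Complex Filter Set

noncomputable section

namespace Pool.Agent.P.MP_3e99c6_gt

variable {n : ℕ}

theorem HermOn.mono {G : V n → Bil n} {U U' : Set (V n)} (h : HermOn G U) (hU : IsOpen U')
    (hs : U' ⊆ U) : HermOn G U' :=
  ⟨hU, h.smooth.mono hs, fun y hy => h.symm y (hs hy), fun y hy => h.cx y (hs hy),
    fun y hy => h.pos y (hs hy)⟩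

theorem IsBismut.mono {G : V n → Bil n} {Γ : V n → Chr n} {U U' : Set (V n)}
    (h : IsBismut G Γ U) (hs : U' ⊆ U) : IsBismut G Γ U' :=
  ⟨h.smooth.mono hs, fun y hy => h.metric y (hs hy), fun y hy => h.cx y (hs hy),
    fun y hy => h.skew y (hs hy)⟩

theorem lck_main {M : Type*} [TopologicalSpace M] [ChartedSpace (V n) M] [T2Space M]
    [CompactSpace M] (hn : 3 ≤ n) (hC : ComplexMfd n M) {g : M → Bil n} (hg : IsHermitian g)
    (hL : IsLCK g) {c : ℝ} (hc : c ≠ 0) (hH : ConstHSC g c) : IsKaehler g := by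
  choose N hN hxN u hu hcl using hL
  have hG := hg.hermOn hC
  have hcd : ∀ x p, ∀ y ∈ (chartAt (V n) p).target, (chartAt (V n) p).symm y ∈ N x →
      ContDiffAt ℝ ∞ (fun z => u x ((chartAt (V n) p).symm z)) y := fun x p y hy hx =>
    cd_chart hC (hN x) (hu x) hy hx
  have hK : ∀ x p, ∀ y ∈ (chartAt (V n) p).target, (chartAt (V n) p).symm y ∈ N x → ∀ a b w,
      dOmega (fun z => Real.exp (u x ((chartAt (V n) p).symm z)) • inChart g p z) y a b w = 0 := by
    intro x p y hy hx a b w
    have e := hcl x p _ ⟨hx, (chartAt (V n) p).map_target hy⟩ a b w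
    rw [(chartAt (V n) p).right_inv hy] at e
    exact e
  have hK' : ∀ x p, ∀ y ∈ (chartAt (V n) p).target, (chartAt (V n) p).symm y ∈ N x → ∀ a b w,
      dOmega (inChart g p) y a b w +
      (fderiv ℝ (fun z => u x ((chartAt (V n) p).symm z)) y a * inChart g p y (I • b) w +
        fderiv ℝ (fun z => u x ((chartAt (V n) p).symm z)) y b * inChart g p y (I • w) a +
        fderiv ℝ (fun z => u x ((chartAt (V n) p).symm z)) y w * inChart g p y (I • a) b) = 0 := by
    intro x p y hy hx a b w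
    have e := hK x p y hy hx a b w
    rw [dOmega_conf ((hG p).diff hy) ((hcd x p y hy hx).differentiableAt (by simp))] at e
    exact (mul_eq_zero.1 e).resolve_left (Real.exp_pos _).ne'
  have hex : ∀ p y, ∃ z, y ∈ (chartAt (V n) p).target → ∀ w, inChart g p y z w =
      fderiv ℝ (fun z => u ((chartAt (V n) p).symm y) ((chartAt (V n) p).symm z)) y w := by
    intro p y
    by_cases hy : y ∈ (chartAt (V n) p).target
    · obtain ⟨z, hz⟩ := ((hG p).hm hy).dual
        (fderiv ℝ (fun z => u ((chartAt (V n) p).symm y) ((chartAt (V n) p).symm z)) y)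
      exact ⟨z, fun _ => hz⟩
    · exact ⟨0, fun h => absurd h hy⟩
  choose Z hZ0 using hex
  have hZ : ∀ x p, ∀ y ∈ (chartAt (V n) p).target, (chartAt (V n) p).symm y ∈ N x → ∀ w,
      inChart g p y (Z p y) w = fderiv ℝ (fun z => u x ((chartAt (V n) p).symm z)) y w := by
    intro x p y hy hx w
    rw [hZ0 p y hy, sub_eq_zero.1 (lee_unique ((hG p).hm hy) (by omega) (α :=
      fderiv ℝ (fun z => u ((chartAt (V n) p).symm y) ((chartAt (V n) p).symm z)) y -
      fderiv ℝ (fun z => u x ((chartAt (V n) p).symm z)) y) fun a b w => ?_)]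
    simp only [sub_apply]
    linear_combination hK' _ p y hy (hxN _) a b w - hK' x p y hy hx a b w
  have hT : ∀ p q, ∀ y ∈ (chartAt (V n) p).target,
      (chartAt (V n) p).symm y ∈ (chartAt (V n) q).source →
      fderiv ℝ (tr p q) y (Z p y) = Z q (tr p q y) := by
    intro p q y hy hq
    have hx : (chartAt (V n) q).symm (tr p q y) ∈ N ((chartAt (V n) p).symm y) := by
      rw [symm_tr hq]; exact hxN _
    refine ((hG q).hm (tr_mem hq)).ext fun w => ?_
    obtain ⟨w, rfl⟩ := tr_surj hC hy hq w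
    rw [← inChart_tr hC g hy hq, hZ0 p y hy, hZ _ q _ (tr_mem hq) hx,
      fderiv_chart hC hy hq ((hcd _ q _ (tr_mem hq) hx).differentiableAt (by simp))]
  have hloc : ∀ p, ∀ y ∈ (chartAt (V n) p).target,
      (∀ m, ContDiffAt ℝ ∞ (fun y => ((hM (inChart g p y)).det • Z p y) m) y) ∧
      hdiv (fun y => (hM (inChart g p y)).det • Z p y) y ≤ 0 ∧
      (hdiv (fun y => (hM (inChart g p y)).det • Z p y) y = 0 → Z p y = 0) := by
    intro p y hy
    obtain ⟨Γ, hB, hΓ⟩ := hH p
    have hU := (chartAt (V n) p).isOpen_inter_preimage_symm (hN ((chartAt (V n) p).symm y))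
    have hG' := (hG p).mono hU inter_subset_left
    have hu' : ContDiffOn ℝ ∞ (fun z => u ((chartAt (V n) p).symm y) ((chartAt (V n) p).symm z))
        ((chartAt (V n) p).target ∩ (chartAt (V n) p).symm ⁻¹' N ((chartAt (V n) p).symm y)) :=
      fun z hz => (hcd _ p z hz.1 hz.2).contDiffWithinAt
    exact ⟨fun m => ((hG p).cd_det hy).mul
        (hG'.cd_grad hu' (fun z hz => hZ _ p z hz.1 hz.2) ⟨hy, hxN _⟩ m),
      hG'.div_lee (hB.mono inter_subset_left) (fun z hz => hΓ z hz.1) hu'
        (fun z hz => hK _ p z hz.1 hz.2) (fun z hz => hZ _ p z hz.1 hz.2) hn hc ⟨hy, hxN _⟩⟩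
  rintro q x ⟨-, hq⟩ a b w
  obtain ⟨p, hp, h0⟩ := no_neg_div hC (fun p y => (hM (inChart g p y)).det • Z p y)
    (fun p y hy => (hloc p y hy).1) (fun p q y hy hq => by
      rw [← ((hG p).hm hy).det_re, ← ((hG q).hm (tr_mem hq)).det_re, coe_smul, coe_smul, map_smul,
        hT p q y hy hq, det_tr hC hg hy hq, mul_smul])
    (fun p y hy => (hloc p y hy).2.1) x
  have hy := (chartAt (V n) p).map_source hp
  have e := hT p q _ hy (by rwa [(chartAt (V n) p).left_inv hp])
  rw [(hloc p _ hy).2.2 h0, map_zero, tr, (chartAt (V n) p).left_inv hp] at e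
  have hy' := (chartAt (V n) q).map_source hq
  have e2 := hK' _ q _ hy' (hxN _) a b w
  simpa only [← hZ0 q _ hy', ← e, map_zero, zero_apply, zero_mul, add_zero] using e2

end Pool.Agent.P.MP_3e99c6_gt
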