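import Pool.Agent.P.MP_3e99c6_gt.Defs

/-! The Bismut holomorphic sectional curvature in terms of the jets of the metric. -/

open scoped ContDiff Topology
open Complex Filter

set_option maxSynthPendingDepth 3

noncomputable section

namespace Pool.Agent.P.MP_3e99c6_gt

variable {n : ℕ}

/-- A Hermitian metric on the open set `U`. -/
structure HermOn (G : V n → Bil n) (U : Set (V n)) : Prop where
  op : IsOpen U
  smooth : ContDiffOn ℝ ∞ G U
  symm : ∀ y ∈ U, ∀ v w, G y v w = G y w v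
  cx : ∀ y ∈ U, ∀ v w, G y (I • v) (I • w) = G y v w
  pos : ∀ y ∈ U, ∀ v, v ≠ 0 → 0 < G y v v

theorem two_le_inf : (2 : WithTop ℕ∞) ≤ ∞ := WithTop.coe_le_coe.2 (le_top : (2 : ℕ∞) ≤ ⊤)

theorem II_smul (v : V n) : I • I • v = -v := by
  rw [smul_smul, I_mul_I, neg_smul, one_smul]

theorem cx_left {B : Bil n} (h : ∀ v w, B (I • v) (I • w) = B v w) (v w : V n) :
    B (I • v) w = -B v (I • w) := by
  have e := h v (I • w)
  rw [II_smul, map_neg] at e
  linarith

theorem fderiv_app {G : V n → Bil n} {y : V n} (hG : DifferentiableAt ℝ G y) (a b u : V n) :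
    fderiv ℝ (fun z => G z a b) y u = fderiv ℝ G y u a b := by
  have h1 : HasFDerivAt (fun z => G z a b)
      (((ContinuousLinearMap.apply ℝ ℝ b).comp (ContinuousLinearMap.apply ℝ _ a)).comp
        (fderiv ℝ G y)) y :=
    ((ContinuousLinearMap.apply ℝ ℝ b).comp
      (ContinuousLinearMap.apply ℝ (V n →L[ℝ] ℝ) a)).hasFDerivAt.comp y hG.hasFDerivAt
  rw [h1.fderiv]
  rfl

theorem fderiv_rel {G : V n → Bil n} {y : V n} (hG : DifferentiableAt ℝ G y) {a b a' b' : V n}
    (h : ∀ᶠ z in 𝓝 y, G z a b = G z a' b') (u : V n) :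
    fderiv ℝ G y u a b = fderiv ℝ G y u a' b' := by
  rw [← fderiv_app hG, ← fderiv_app hG, Filter.EventuallyEq.fderiv_eq h]

theorem fderiv_app3 {G : V n → V n →L[ℝ] Bil n} {y : V n} (hG : DifferentiableAt ℝ G y)
    (t a b u : V n) : fderiv ℝ (fun z => G z t a b) y u = fderiv ℝ G y u t a b := by
  have h0 : DifferentiableAt ℝ (fun z => G z t) y := hG.clm_apply (differentiableAt_const _)
  rw [fderiv_app h0, fderiv_clm_apply hG (differentiableAt_const _)]
  simp

namespace HermOn

variable {G : V n → Bil n} {U : Set (V n)} (hG : HermOn G U) {y : V n}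
include hG

theorem at' (hy : y ∈ U) : ContDiffAt ℝ ∞ G y := hG.smooth.contDiffAt (hG.op.mem_nhds hy)

theorem diff (hy : y ∈ U) : DifferentiableAt ℝ G y := (hG.at' hy).differentiableAt (by simp)

theorem diff2 (hy : y ∈ U) : DifferentiableAt ℝ (fderiv ℝ G) y :=
  ((hG.at' hy).fderiv_right (m := 1) two_le_inf).differentiableAt (by simp)

theorem symm1 (hy : y ∈ U) (u a b : V n) : fderiv ℝ G y u a b = fderiv ℝ G y u b a :=
  fderiv_rel (hG.diff hy) (eventually_of_mem (hG.op.mem_nhds hy) fun z hz => hG.symm z hz a b) u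

theorem cx1 (hy : y ∈ U) (u a b : V n) : fderiv ℝ G y u (I • a) (I • b) = fderiv ℝ G y u a b :=
  fderiv_rel (hG.diff hy) (eventually_of_mem (hG.op.mem_nhds hy) fun z hz => hG.cx z hz a b) u

theorem cx2 (hy : y ∈ U) (t u a b : V n) : fderiv ℝ (fderiv ℝ G) y t u (I • a) (I • b) =
    fderiv ℝ (fderiv ℝ G) y t u a b := by
  rw [← fderiv_app3 (hG.diff2 hy), ← fderiv_app3 (hG.diff2 hy)]
  congr 1
  exact Filter.EventuallyEq.fderiv_eq
    (eventually_of_mem (hG.op.mem_nhds hy) fun z hz => hG.cx1 hz u a b)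

theorem symm2 (hy : y ∈ U) (t u : V n) :
    fderiv ℝ (fderiv ℝ G) y t u = fderiv ℝ (fderiv ℝ G) y u t :=
  (hG.at' hy).isSymmSndFDerivAt (by simpa using two_le_inf) t u

variable {Γ : V n → Chr n} (hB : IsBismut G Γ U)
include hB

theorem fderiv_GΓ (hy : y ∈ U) (X Y Z W : V n) : fderiv ℝ (fun z => G z (Γ z Y Z) W) y X =
    G y (Γ y X (Γ y Y Z)) W + G y (Γ y Y Z) (Γ y X W) + G y (fderiv ℝ Γ y X Y Z) W := by
  have hΓ : DifferentiableAt ℝ Γ y :=
    (hB.smooth.contDiffAt (hG.op.mem_nhds hy)).differentiableAt (by simp)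
  have h1 : DifferentiableAt ℝ (fun z => Γ z Y) y := hΓ.clm_apply (differentiableAt_const _)
  have h2 : DifferentiableAt ℝ (fun z => Γ z Y Z) y := h1.clm_apply (differentiableAt_const _)
  have h3 : DifferentiableAt ℝ (fun z => G z (Γ z Y Z)) y := (hG.diff hy).clm_apply h2
  rw [fderiv_clm_apply h3 (differentiableAt_const _), fderiv_clm_apply (hG.diff hy) h2,
    fderiv_clm_apply h1 (differentiableAt_const _), fderiv_clm_apply hΓ (differentiableAt_const _)]
  simp [hB.metric y hy]
  ring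

omit hG in
theorem tors_right (hy : y ∈ U) (u v : V n) : G y (Γ y u v) v = G y (Γ y v u) v := by
  have e := hB.skew y hy u v v
  simp only [map_sub, sub_apply] at e
  linarith

theorem half (hy : y ∈ U) (u v : V n) : G y (Γ y u v) v = fderiv ℝ G y u v v / 2 := by
  rw [hB.metric y hy, hG.symm y hy v]
  ring

theorem a_eq (hy : y ∈ U) (v w : V n) :
    G y (Γ y v v) w = fderiv ℝ G y v v w - fderiv ℝ G y w v v / 2 := by
  rw [← hG.half hB hy, hB.metric y hy, tors_right hB hy w v, hG.symm y hy v]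
  ring

theorem tau_eq (hy : y ∈ U) (v w : V n) :
    G y (Γ y v v + I • Γ y (I • v) v) w = -dOmega G y v (I • v) w := by
  have c0 := cx_left (hG.cx y hy)
  have s := hG.symm y hy
  have t1 := tors_right hB hy w v
  have t2 := tors_right hB hy w (I • v)
  simp only [dOmega, hB.metric y hy, II_smul, hB.cx y hy, map_neg, map_add,
    neg_apply, add_apply, hG.cx y hy] at t2 ⊢
  linarith [c0 (Γ y (I • v) v) w, s (I • w) (Γ y (I • v) v), c0 (Γ y (I • v) w) v,
    s v (Γ y v w), s v (Γ y w v)]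

/-- the curvature in terms of second derivatives -/
theorem hsc_eq (hy : y ∈ U) (v : V n) : G y (curv Γ y v (I • v) (I • v)) v =
    -(fderiv ℝ (fderiv ℝ G) y v v v v + fderiv ℝ (fderiv ℝ G) y (I • v) (I • v) v v) / 2 +
      2 * G y (I • Γ y v v) (Γ y (I • v) v) := by
  have hU := hG.op.mem_nhds hy
  have e1 : fderiv ℝ (fun z => G z (Γ z (I • v) (I • v)) v) y v =
      -fderiv ℝ (fderiv ℝ G) y v v v v / 2 := by
    have : (fun z => G z (Γ z (I • v) (I • v)) v) =ᶠ[𝓝 y]
        fun z => (-1 / 2 : ℝ) * fderiv ℝ G z v v v := by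
      filter_upwards [hU] with z hz
      rw [hB.cx z hz, cx_left (hG.cx z hz), ← tors_right hB hz, hG.half hB hz, hG.cx1 hz]
      ring
    rw [this.fderiv_eq, fderiv_const_mul, ← fderiv_app3 (hG.diff2 hy)]
    · simp; ring
    · exact (((hG.diff2 hy).clm_apply (differentiableAt_const _)).clm_apply
        (differentiableAt_const _)).clm_apply (differentiableAt_const _)
  have e2 : fderiv ℝ (fun z => G z (Γ z v (I • v)) v) y (I • v) =
      fderiv ℝ (fderiv ℝ G) y (I • v) (I • v) v v / 2 := by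
    have : (fun z => G z (Γ z v (I • v)) v) =ᶠ[𝓝 y]
        fun z => (1 / 2 : ℝ) * fderiv ℝ G z (I • v) v v := by
      filter_upwards [hU] with z hz
      rw [← tors_right hB hz, hG.half hB hz]
      ring
    rw [this.fderiv_eq, fderiv_const_mul, ← fderiv_app3 (hG.diff2 hy)]
    · simp; ring
    · exact (((hG.diff2 hy).clm_apply (differentiableAt_const _)).clm_apply
        (differentiableAt_const _)).clm_apply (differentiableAt_const _)
  rw [hG.fderiv_GΓ hB hy] at e1 e2
  have c0 := cx_left (hG.cx y hy) (Γ y (I • v) v) (Γ y v v)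
  rw [hG.symm y hy (Γ y (I • v) v)] at c0
  simp only [curv, map_add, map_sub, add_apply,
    sub_apply]
  rw [hB.cx y hy (I • v) v] at e1
  rw [hB.cx y hy v v] at e2
  rw [hB.cx y hy (I • v) v, hB.cx y hy v v]
  linarith

end HermOn

end Pool.Agent.P.MP_3e99c6_gt
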