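import Mathlib

/-!
Hermitian metrics on complex manifolds, the Bismut connection and its holomorphic sectional
curvature, all written in the holomorphic charts.  The complex structure `J` is multiplication
by `I` on the model space.
-/

open scoped ContDiff Manifold
open Complex

noncomputable section

namespace Pool.Agent.P.MP_3e99c6_gt

/-- The model space `ℂⁿ`. -/
abbrev V (n : ℕ) : Type := Fin n → ℂ

/-- Real bilinear forms on `ℂⁿ`. -/
abbrev Bil (n : ℕ) : Type := V n →L[ℝ] V n →L[ℝ] ℝ

/-- Christoffel maps: `∇_X Y = D Y (X) + Γ X Y`. -/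
abbrev Chr (n : ℕ) : Type := V n →L[ℝ] V n →L[ℝ] V n

variable {n : ℕ} {M : Type*} [TopologicalSpace M] [ChartedSpace (V n) M]

/-- `M` is a complex manifold: the transition maps of its atlas are holomorphic. -/
abbrev ComplexMfd (n : ℕ) (M : Type*) [TopologicalSpace M] [ChartedSpace (V n) M] : Prop :=
  IsManifold 𝓘(ℂ, V n) ω M

/-- The differential at `y` of the inverse chart at `p`; the tangent space at a point `x` is
identified with `ℂⁿ` by the chart at `x`. -/
def dInv (p : M) (y : V n) : V n →L[ℝ] V n :=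
  fderiv ℝ (fun z => chartAt (V n) ((chartAt (V n) p).symm y) ((chartAt (V n) p).symm z)) y

/-- A field `g` of bilinear forms on the tangent spaces, read in the chart at `p`. -/
def inChart (g : M → Bil n) (p : M) (y : V n) : Bil n :=
  (g ((chartAt (V n) p).symm y)).bilinearComp (dInv p y) (dInv p y)

/-- A vector field `X`, read in the chart at `p`. -/
def vecIn (X : M → V n) (p : M) (y : V n) : V n :=
  fderiv ℝ (fun z => chartAt (V n) p ((chartAt (V n) ((chartAt (V n) p).symm y)).symm z))
    (chartAt (V n) ((chartAt (V n) p).symm y) ((chartAt (V n) p).symm y))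
    (X ((chartAt (V n) p).symm y))

namespace S

/-- The complex structure. -/
def J (v : V n) : V n := I • v

/-- The value `B (v, w)`. -/
def ap (B : Bil n) (v w : V n) : ℝ := B v w

/-- The value `C (u, v)`. -/
def cap (C : Chr n) (u v : V n) : V n := C u v

/-- The derivative at `y` in the direction `u` of a field of bilinear forms. -/
def dB (G : V n → Bil n) (y u : V n) : Bil n := fderiv ℝ G y u

/-- The derivative at `y` in the direction `u` of a Christoffel map. -/
def dC (Γ : V n → Chr n) (y u : V n) : Chr n := fderiv ℝ Γ y u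

/-- The derivative at `y` in the direction `u` of a vector field. -/
def dV (X : V n → V n) (y u : V n) : V n := fderiv ℝ X y u

/-- Smoothness of a field of bilinear forms. -/
def SmoothB (G : V n → Bil n) (U : Set (V n)) : Prop := ContDiffOn ℝ ∞ G U

/-- Smoothness of a Christoffel map. -/
def SmoothC (Γ : V n → Chr n) (U : Set (V n)) : Prop := ContDiffOn ℝ ∞ Γ U

/-- `dω (u, v, w)` at `y` for the Kaehler form `ω (v, w) = G (J v, w)`. -/
def dOmega (G : V n → Bil n) (y u v w : V n) : ℝ :=
  ap (dB G y u) (J v) w + ap (dB G y v) (J w) u + ap (dB G y w) (J u) v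

/-- `Γ` is the Christoffel map on `U` of the Bismut connection of `G`: a smooth connection with
`∇ G = 0`, `∇ J = 0` and totally skew-symmetric torsion. -/
structure IsBismut (G : V n → Bil n) (Γ : V n → Chr n) (U : Set (V n)) : Prop where
  smooth : SmoothC Γ U
  metric : ∀ y ∈ U, ∀ u v w,
    ap (dB G y u) v w = ap (G y) (cap (Γ y) u v) w + ap (G y) v (cap (Γ y) u w)
  cx : ∀ y ∈ U, ∀ u v, cap (Γ y) u (J v) = J (cap (Γ y) u v)
  skew : ∀ y ∈ U, ∀ u v w,
    ap (G y) (cap (Γ y) u v - cap (Γ y) v u) w = -ap (G y) (cap (Γ y) u w - cap (Γ y) w u) v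

/-- The curvature `R (X, Y) Z = ∇_X ∇_Y Z - ∇_Y ∇_X Z - ∇_[X,Y] Z` at `y`. -/
def curv (Γ : V n → Chr n) (y X Y Z : V n) : V n :=
  cap (dC Γ y X) Y Z - cap (dC Γ y Y) X Z + cap (Γ y) X (cap (Γ y) Y Z) -
    cap (Γ y) Y (cap (Γ y) X Z)

/-- `g` is a smooth Riemannian metric with `g (J v, J w) = g (v, w)`. -/
structure IsHermitian (g : M → Bil n) : Prop where
  symm : ∀ x v w, ap (g x) v w = ap (g x) w v
  pos : ∀ x v, v ≠ 0 → 0 < ap (g x) v v
  cx : ∀ x v w, ap (g x) (J v) (J w) = ap (g x) v w
  smooth : ∀ p, SmoothB (inChart g p) (chartAt (V n) p).target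

/-- The Kaehler form of `g` is closed on `N`. -/
def ClosedOn (g : M → Bil n) (N : Set M) : Prop :=
  ∀ p, ∀ x ∈ N ∩ (chartAt (V n) p).source, ∀ u v w,
    dOmega (inChart g p) (chartAt (V n) p x) u v w = 0

/-- `g` is Kaehler. -/
def IsKaehler (g : M → Bil n) : Prop := ClosedOn g Set.univ

/-- `g` is locally conformally Kaehler. -/
def IsLCK (g : M → Bil n) : Prop :=
  ∀ x, ∃ N, IsOpen N ∧ x ∈ N ∧ ∃ u : M → ℝ, ContMDiffOn 𝓘(ℝ, V n) 𝓘(ℝ, ℝ) ∞ u N ∧
    ClosedOn (fun z => Real.exp (u z) • g z) N

/-- The Bismut holomorphic sectional curvature `g (R (v, J v) J v, v) / |v| ^ 4` is constant and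
equal to `c`. -/
def ConstHSC (g : M → Bil n) (c : ℝ) : Prop :=
  ∀ p, ∃ Γ, IsBismut (inChart g p) Γ (chartAt (V n) p).target ∧
    ∀ y ∈ (chartAt (V n) p).target, ∀ v,
      ap (inChart g p y) (curv Γ y v (J v) (J v)) v = c * ap (inChart g p y) v v ^ 2

/-- `X` is a holomorphic Killing field: holomorphic in the charts, with `L_X g = 0`. -/
structure IsHolKilling (g : M → Bil n) (X : M → V n) : Prop where
  hol : ∀ p, AnalyticOnNhd ℂ (vecIn X p) (chartAt (V n) p).target
  killing : ∀ p, ∀ y ∈ (chartAt (V n) p).target, ∀ a b,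
    ap (dB (inChart g p) y (vecIn X p y)) a b + ap (inChart g p y) (dV (vecIn X p) y a) b +
      ap (inChart g p y) a (dV (vecIn X p) y b) = 0

end S

end Pool.Agent.P.MP_3e99c6_gt
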