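import Pool.Agent.P.MP_3e99c6_gt.SDefs

/-! Pluriclosed and balanced Hermitian metrics, written in the holomorphic charts. -/

noncomputable section

namespace Pool.Agent.P.MP_3e99c6_gt.S

variable {n : ℕ} {M : Type*} [TopologicalSpace M] [ChartedSpace (V n) M]

/-- The derivative at `y` in the direction `u` of a real function. -/
def dR (f : V n → ℝ) (y u : V n) : ℝ := fderiv ℝ f y u

/-- The three-form `(u, v, w) ↦ dω (J u, J v, J w)`, which is `dᶜ ω` up to sign. -/
def dcOmega (G : V n → Bil n) (u v w y : V n) : ℝ := dOmega G y (J u) (J v) (J w)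

/-- `d dᶜ ω (a, b, c, e)` at `y`, up to sign. -/
def ddcOmega (G : V n → Bil n) (y a b c e : V n) : ℝ :=
  dR (dcOmega G b c e) y a - dR (dcOmega G a c e) y b + dR (dcOmega G a b e) y c -
    dR (dcOmega G a b c) y e

/-- The four-form `ω ∧ ω / 2`. -/
def omegaSq (G : V n → Bil n) (a b c e y : V n) : ℝ :=
  ap (G y) (J a) b * ap (G y) (J c) e - ap (G y) (J a) c * ap (G y) (J b) e +
    ap (G y) (J a) e * ap (G y) (J b) c

/-- `d (ω ∧ ω / 2) (a, b, c, e, f)` at `y`. -/
def dOmegaSq (G : V n → Bil n) (y a b c e f : V n) : ℝ :=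
  dR (omegaSq G b c e f) y a - dR (omegaSq G a c e f) y b + dR (omegaSq G a b e f) y c -
    dR (omegaSq G a b c f) y e + dR (omegaSq G a b c e) y f

/-- `g` is pluriclosed: `d dᶜ ω = 0`. -/
def IsPluriclosed (g : M → Bil n) : Prop :=
  ∀ p, ∀ y ∈ (chartAt (V n) p).target, ∀ a b c e, ddcOmega (inChart g p) y a b c e = 0

/-- `d (ω ∧ ω) = 0`; in complex dimension three this says that `g` is balanced. -/
def IsSqClosed (g : M → Bil n) : Prop :=
  ∀ p, ∀ y ∈ (chartAt (V n) p).target, ∀ a b c e f, dOmegaSq (inChart g p) y a b c e f = 0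

end Pool.Agent.P.MP_3e99c6_gt.S
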