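import Pool.Agent.P.MP_3e99c6_gt.Jet

/-! The divergence theorem on a compact manifold, in charts. -/

open scoped ContDiff Topology Manifold
open Complex Filter MeasureTheory Set

noncomputable section

namespace Pool.Agent.P.MP_3e99c6_gt

variable {n : ℕ}

section flat

variable {T K : Set (V n)} (hT : IsOpen T) (hK : IsCompact K) (hKT : K ⊆ T)
include hT hK

theorem ev_zero {E : Type} [Zero E] {F : V n → E} (h0 : ∀ y ∈ T \ K, F y = 0) {y : V n}
    (hy : y ∈ T \ K) : F =ᶠ[𝓝 y] fun _ => 0 :=
  eventually_of_mem ((hT.sdiff hK.isClosed).mem_nhds hy) h0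

include hKT

theorem integrableOn_of {E : Type} [NormedAddCommGroup E] {f : V n → E}
    (hf : ∀ y ∈ T, ContinuousAt f y) (h0 : ∀ y ∈ T \ K, f y = 0) : IntegrableOn f T :=
  (ContinuousOn.integrableOn_compact hK fun y hy =>
    (hf y (hKT hy)).continuousWithinAt).of_forall_sdiff_eq_zero hT.measurableSet h0

variable {F : V n → ℂ} (hF : ∀ y ∈ T, ContDiffAt ℝ ∞ F y) (h0 : ∀ y ∈ T \ K, F y = 0)
include hF h0

theorem int_fderiv (v : V n) : IntegrableOn (fun y => fderiv ℝ F y v) T :=
  integrableOn_of hT hK hKT (fun y hy =>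
    ((hF y hy).fderiv_right (m := ∞) le_rfl).continuousAt.clm_apply continuousAt_const)
    fun y hy => by simp [(ev_zero hT hK h0 hy).fderiv_eq]

theorem stokes_flat (v : V n) : ∫ y in T, fderiv ℝ F y v = 0 := by
  have e1 : ∀ y ∈ T, T.indicator F =ᶠ[𝓝 y] F := fun y hy =>
    eventually_of_mem (hT.mem_nhds hy) fun z hz => indicator_of_mem hz F
  have e0 : ∀ y ∉ K, T.indicator F y = 0 := fun y hy => by
    by_cases h : y ∈ T
    · rw [indicator_of_mem h, h0 y ⟨h, hy⟩]
    · exact indicator_of_notMem h F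
  have e2 : ∀ y ∉ T, T.indicator F =ᶠ[𝓝 y] fun _ => 0 := fun y hy =>
    eventually_of_mem (hK.isClosed.isOpen_compl.mem_nhds fun h => hy (hKT h)) e0
  have hc : ContDiff ℝ ∞ (T.indicator F) := contDiff_iff_contDiffAt.2 fun y => by
    by_cases h : y ∈ T
    · exact (hF y h).congr_of_eventuallyEq (e1 y h)
    · exact contDiffAt_const.congr_of_eventuallyEq (e2 y h)
  have hs : HasCompactSupport (T.indicator F) := HasCompactSupport.intro hK e0
  have e := integral_mul_fderiv_eq_neg_fderiv_mul_of_integrable (μ := volume)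
    (f := fun _ : V n => (1 : ℂ)) (g := T.indicator F) (v := v) (by simp)
    (by
      simp only [one_mul]
      exact ((hc.continuous_fderiv (by simp)).clm_apply continuous_const).integrable_of_hasCompactSupport
        (hs.fderiv_apply ℝ v))
    (by
      simp only [one_mul]
      exact hc.continuous.integrable_of_hasCompactSupport hs)
    (fun _ _ => differentiableAt_const _) (fun x _ => hc.differentiable (by simp) x)
  simp only [one_mul, fderiv_fun_const, Pi.zero_apply, zero_apply, zero_mul,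
    integral_zero, neg_zero] at e
  refine Eq.trans ?_ ((setIntegral_eq_integral_of_forall_compl_eq_zero (s := T)
    fun y hy => by simp [(e2 y hy).fderiv_eq]).trans e)
  exact setIntegral_congr_fun hT.measurableSet fun y hy => by simp [(e1 y hy).fderiv_eq]

theorem int_dz (t : V n) : IntegrableOn (dz t F) T :=
  ((int_fderiv hT hK hKT hF h0 t).sub
    ((int_fderiv hT hK hKT hF h0 (I • t)).const_mul I)).div_const 2

theorem stokes_dz (t : V n) : ∫ y in T, dz t F y = 0 := by
  simp only [dz]
  rw [integral_div, integral_sub (int_fderiv hT hK hKT hF h0 t)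
    ((int_fderiv hT hK hKT hF h0 (I • t)).const_mul I), integral_const_mul,
    stokes_flat hT hK hKT hF h0, stokes_flat hT hK hKT hF h0]
  simp

end flat

/-- half of the divergence -/
def hdiv (W : V n → V n) (y : V n) : ℝ := (∑ m, dz (bs m) (fun y => W y m) y).re

theorem hdiv_cont {W : V n → V n} {y : V n} (hW : ∀ m, ContDiffAt ℝ ∞ (fun y => W y m) y) :
    ContinuousAt (hdiv W) y := by
  refine continuous_re.continuousAt.comp (tendsto_finsetSum _ fun m _ => ?_)
  have h := fun v => ((hW m).fderiv_right (m := ∞) le_rfl).continuousAt.clm_apply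
    (continuousAt_const (y := v))
  exact ((h _).sub (continuousAt_const.mul (h _))).div_const 2

theorem hdiv_mul {W : V n → V n} {χ : V n → ℝ} {y : V n}
    (hW : ∀ m, ContDiffAt ℝ ∞ (fun y => W y m) y) (hχ : ContDiffAt ℝ ∞ χ y) :
    (∑ m, dz (bs m) (fun y => χ y * W y m) y).re = χ y * hdiv W y + fderiv ℝ χ y (W y) / 2 := by
  have h1 : DifferentiableAt ℝ χ y := hχ.differentiableAt (by simp)
  have e : ∀ m, dz (bs m) (fun y => χ y * W y m) y = χ y * dz (bs m) (fun y => W y m) y +
      W y m * (fderiv ℝ χ y (bs m) - I * fderiv ℝ χ y (I • bs m)) / 2 := fun m => by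
    rw [dz, dz, fderiv_fun_mul ((contDiffAt_lin ofReal_lin hχ).differentiableAt (by simp))
      ((hW m).differentiableAt (by simp))]
    simp only [add_apply, smul_apply, smul_eq_mul, fderiv_lin ofReal_lin h1]
    ring
  have e2 : W y = ∑ m, W y m • bs m := by
    funext j
    simp [bs, Pi.single_apply]
  simp only [e, Finset.sum_add_distrib, ← Finset.mul_sum, add_re, re_ofReal_mul, hdiv]
  congr 1
  conv_rhs => rw [e2, map_sum, Finset.sum_div]
  rw [re_sum]
  refine Finset.sum_congr rfl fun m _ => ?_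
  rw [smul_split (W y m), map_add, (fderiv ℝ χ y).map_smul, (fderiv ℝ χ y).map_smul]
  simp

theorem stokes_cut {T K : Set (V n)} (hT : IsOpen T) (hK : IsCompact K) (hKT : K ⊆ T)
    {W : V n → V n} {χ : V n → ℝ} (hW : ∀ y ∈ T, ∀ m, ContDiffAt ℝ ∞ (fun y => W y m) y)
    (hχ : ∀ y ∈ T, ContDiffAt ℝ ∞ χ y) (h0 : ∀ y ∈ T \ K, χ y = 0) :
    ∫ y in T, χ y * hdiv W y = -(∫ y in T, fderiv ℝ χ y (W y)) / 2 := by
  have hF : ∀ m, ∀ y ∈ T, ContDiffAt ℝ ∞ (fun y => χ y * W y m) y := fun m y hy =>
    (contDiffAt_lin ofReal_lin (hχ y hy)).mul (hW y hy m)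
  have hF0 : ∀ m, ∀ y ∈ T \ K, χ y * W y m = 0 := fun m y hy => by simp [h0 y hy]
  have e : ∫ y in T, ∑ m, dz (bs m) (fun y => χ y * W y m) y = 0 := by
    rw [integral_finsetSum _ fun m _ => int_dz hT hK hKT (hF m) (hF0 m) _]
    exact Finset.sum_eq_zero fun m _ => stokes_dz hT hK hKT (hF m) (hF0 m) _
  have e2 := reCLM.integral_comp_comm (μ := volume.restrict T)
    (integrable_finsetSum Finset.univ fun m _ => int_dz hT hK hKT (hF m) (hF0 m) (bs m))
  simp only [reCLM_apply] at e2
  rw [e, zero_re, setIntegral_congr_fun hT.measurableSet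
    (g := fun y => χ y * hdiv W y + fderiv ℝ χ y (W y) / 2)
    fun y hy => hdiv_mul (hW y hy) (hχ y hy), integral_add, integral_div] at e2
  · linarith
  · exact integrableOn_of hT hK hKT
      (fun y hy => (hχ y hy).continuousAt.mul (hdiv_cont (hW y hy))) fun y hy => by simp [h0 y hy]
  · refine (integrableOn_of hT hK hKT (fun y hy =>
      ((hχ y hy).fderiv_right (m := ∞) le_rfl).continuousAt.clm_apply
        (continuousAt_pi.2 fun m => (hW y hy m).continuousAt)) fun y hy => ?_).div_const 2
    simp [(ev_zero hT hK h0 hy).fderiv_eq]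

end Pool.Agent.P.MP_3e99c6_gt
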