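import Pool.Agent.P.MP_3e99c6_gt.Herm

/-! Transition maps. -/

open scoped ContDiff Topology Manifold
open Complex Filter Set

noncomputable section

namespace Pool.Agent.P.MP_3e99c6_gt

variable {n : ℕ} {M : Type*} [TopologicalSpace M] [ChartedSpace (V n) M]

/-- The transition map. -/
def tr (p q : M) (z : V n) : V n := chartAt (V n) q ((chartAt (V n) p).symm z)

theorem ComplexMfd.real (hC : ComplexMfd n M) : IsManifold 𝓘(ℝ, V n) ∞ M :=
  isManifold_of_contDiffOn _ _ _ fun _ _ he he' =>
    (((mem_groupoid_of_pregroupoid.1 (hC.compatible he he')).1 :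
      ContDiffOn ℂ ω _ _).restrict_scalars ℝ).of_le le_top

variable {p q r : M} {y : V n}

theorem ev_src (hy : y ∈ (chartAt (V n) p).target) {N : Set M} (hN : IsOpen N)
    (hq : (chartAt (V n) p).symm y ∈ N) :
    ∀ᶠ z in 𝓝 y, z ∈ (chartAt (V n) p).target ∧ (chartAt (V n) p).symm z ∈ N :=
  ((chartAt (V n) p).open_target.eventually_mem hy).and
    (((chartAt (V n) p).continuousAt_symm hy).eventually (hN.eventually_mem hq))

theorem tr_cd (hC : ComplexMfd n M) (hy : y ∈ (chartAt (V n) p).target)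
    (hq : (chartAt (V n) p).symm y ∈ (chartAt (V n) q).source) : ContDiffAt ℂ ω (tr p q) y := by
  have e := contDiffWithinAt_ext_coord_change (I := 𝓘(ℂ, V n)) (n := ω) q p (y := y)
    (by simp [hy, hq])
  rw [ModelWithCorners.range_eq_univ, contDiffWithinAt_univ] at e
  exact e

theorem tr_diff (hC : ComplexMfd n M) (hy : y ∈ (chartAt (V n) p).target)
    (hq : (chartAt (V n) p).symm y ∈ (chartAt (V n) q).source) : DifferentiableAt ℝ (tr p q) y :=
  ((tr_cd hC hy hq).differentiableAt (by simp)).restrictScalars ℝ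

theorem tr_fderiv (hC : ComplexMfd n M) (hy : y ∈ (chartAt (V n) p).target)
    (hq : (chartAt (V n) p).symm y ∈ (chartAt (V n) q).source) :
    fderiv ℝ (tr p q) y = (fderiv ℂ (tr p q) y).restrictScalars ℝ :=
  ((tr_cd hC hy hq).differentiableAt (by simp)).fderiv_restrictScalars ℝ

theorem tr_mem (hq : (chartAt (V n) p).symm y ∈ (chartAt (V n) q).source) :
    tr p q y ∈ (chartAt (V n) q).target := (chartAt (V n) q).map_source hq

theorem symm_tr (hq : (chartAt (V n) p).symm y ∈ (chartAt (V n) q).source) :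
    (chartAt (V n) q).symm (tr p q y) = (chartAt (V n) p).symm y := (chartAt (V n) q).left_inv hq

theorem fderiv_chart {E : Type} [NormedAddCommGroup E] [NormedSpace ℝ E] (hC : ComplexMfd n M)
    (hy : y ∈ (chartAt (V n) p).target)
    (hq : (chartAt (V n) p).symm y ∈ (chartAt (V n) q).source) {f : M → E}
    (hf : DifferentiableAt ℝ (fun z => f ((chartAt (V n) q).symm z)) (tr p q y)) (a : V n) :
    fderiv ℝ (fun z => f ((chartAt (V n) p).symm z)) y a =
      fderiv ℝ (fun z => f ((chartAt (V n) q).symm z)) (tr p q y) (fderiv ℝ (tr p q) y a) := by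
  have e : (fun z => f ((chartAt (V n) p).symm z)) =ᶠ[𝓝 y]
      (fun z => f ((chartAt (V n) q).symm z)) ∘ tr p q := by
    filter_upwards [ev_src hy (chartAt (V n) q).open_source hq] with z hz
    rw [Function.comp_apply, symm_tr hz.2]
  rw [e.fderiv_eq, fderiv_comp y hf (tr_diff hC hy hq)]
  rfl

theorem tr_comp (hC : ComplexMfd n M) (hy : y ∈ (chartAt (V n) p).target)
    (hq : (chartAt (V n) p).symm y ∈ (chartAt (V n) q).source)
    (hr : (chartAt (V n) p).symm y ∈ (chartAt (V n) r).source) (a : V n) :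
    fderiv ℝ (tr p r) y a = fderiv ℝ (tr q r) (tr p q y) (fderiv ℝ (tr p q) y a) :=
  fderiv_chart hC hy hq (f := chartAt (V n) r)
    (tr_diff hC (tr_mem hq) (by rwa [symm_tr hq])) a

theorem tr_self (hy : y ∈ (chartAt (V n) p).target) (a : V n) : fderiv ℝ (tr p p) y a = a := by
  have e : tr p p =ᶠ[𝓝 y] id := by
    filter_upwards [(chartAt (V n) p).open_target.mem_nhds hy] with z hz
    exact (chartAt (V n) p).right_inv hz
  rw [e.fderiv_eq, fderiv_id]
  rfl

theorem tr_inj (hC : ComplexMfd n M) (hy : y ∈ (chartAt (V n) p).target)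
    (hq : (chartAt (V n) p).symm y ∈ (chartAt (V n) q).source) :
    Function.Injective (fderiv ℝ (tr p q) y) := fun a b h => by
  have hp := (chartAt (V n) p).map_target hy
  rw [← tr_self hy a, ← tr_self hy b, tr_comp hC hy hq hp, tr_comp hC hy hq hp, h]

theorem tr_surj (hC : ComplexMfd n M) (hy : y ∈ (chartAt (V n) p).target)
    (hq : (chartAt (V n) p).symm y ∈ (chartAt (V n) q).source) :
    Function.Surjective (fderiv ℝ (tr p q) y) :=
  LinearMap.surjective_of_injective (f := (fderiv ℝ (tr p q) y : V n →ₗ[ℝ] V n)) (tr_inj hC hy hq)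

theorem inChart_apply (g : M → Bil n) (p : M) (y a b : V n) : inChart g p y a b =
    g ((chartAt (V n) p).symm y) (fderiv ℝ (tr p ((chartAt (V n) p).symm y)) y a)
      (fderiv ℝ (tr p ((chartAt (V n) p).symm y)) y b) := rfl

theorem inChart_tr (hC : ComplexMfd n M) (g : M → Bil n) (hy : y ∈ (chartAt (V n) p).target)
    (hq : (chartAt (V n) p).symm y ∈ (chartAt (V n) q).source) (a b : V n) :
    inChart g p y a b =
      inChart g q (tr p q y) (fderiv ℝ (tr p q) y a) (fderiv ℝ (tr p q) y b) := by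
  have hr := mem_chart_source (V n) ((chartAt (V n) p).symm y)
  rw [inChart_apply, inChart_apply, symm_tr hq, tr_comp hC hy hq hr, tr_comp hC hy hq hr]

theorem IsHermitian.hermOn (hC : ComplexMfd n M) {g : M → Bil n} (hg : IsHermitian g) (p : M) :
    HermOn (inChart g p) (chartAt (V n) p).target where
  op := (chartAt (V n) p).open_target
  smooth := hg.smooth p
  symm y _ v w := hg.symm _ _ _
  cx y hy v w := by
    rw [inChart_apply, inChart_apply, tr_fderiv hC hy (mem_chart_source _ _)]
    simp only [ContinuousLinearMap.coe_restrictScalars', map_smul, hg.cx]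
  pos y hy v hv := hg.pos _ _ fun h => hv (tr_inj hC hy (mem_chart_source _ _)
    (h.trans (map_zero _).symm))

theorem det_tr (hC : ComplexMfd n M) {g : M → Bil n} (hg : IsHermitian g)
    (hy : y ∈ (chartAt (V n) p).target)
    (hq : (chartAt (V n) p).symm y ∈ (chartAt (V n) q).source) :
    (hM (inChart g p y)).det.re =
      |(fderiv ℝ (tr p q) y).det| * (hM (inChart g q (tr p q y))).det.re := by
  rw [tr_fderiv hC hy hq]
  refine ((hg.hermOn hC q).hm (tr_mem hq)).det_comp _ fun a b => ?_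
  rw [inChart_tr hC g hy hq, tr_fderiv hC hy hq]
  rfl

theorem cd_chart (hC : ComplexMfd n M) {N : Set M} (hN : IsOpen N) {u : M → ℝ}
    (hu : ContMDiffOn 𝓘(ℝ, V n) 𝓘(ℝ, ℝ) ∞ u N) (hy : y ∈ (chartAt (V n) p).target)
    (hq : (chartAt (V n) p).symm y ∈ N) :
    ContDiffAt ℝ ∞ (fun z => u ((chartAt (V n) p).symm z)) y := by
  have := hC.real
  have h1 : ContMDiffAt 𝓘(ℝ, V n) 𝓘(ℝ, V n) ∞ (chartAt (V n) p).symm y :=
    contMDiffOn_chart_symm.contMDiffAt ((chartAt (V n) p).open_target.mem_nhds hy)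
  exact contMDiffAt_iff_contDiffAt.1 ((hu.contMDiffAt (hN.mem_nhds hq)).comp y h1)

end Pool.Agent.P.MP_3e99c6_gt
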