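import Pool.Agent.P.MP_3e99c6_gt.Stokes
import Pool.Agent.P.MP_3e99c6_gt.Trans

/-! A vector density on a compact manifold with nonpositive divergence has divergence zero. -/

open scoped ContDiff Topology Manifold
open Complex Filter MeasureTheory Set

noncomputable section

namespace Pool.Agent.P.MP_3e99c6_gt

variable {n : ℕ} {M : Type*} [TopologicalSpace M] [ChartedSpace (V n) M]

theorem change_chart (hC : ComplexMfd n M) (p q : M) {A A' : V n → ℝ}
    (h : ∀ y ∈ (chartAt (V n) p).target, (chartAt (V n) p).symm y ∈ (chartAt (V n) q).source →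
      A y = |(fderiv ℝ (tr p q) y).det| * A' (tr p q y))
    (h1 : ∀ y ∈ (chartAt (V n) p).target, (chartAt (V n) p).symm y ∉ (chartAt (V n) q).source →
      A y = 0)
    (h2 : ∀ y ∈ (chartAt (V n) q).target, (chartAt (V n) q).symm y ∉ (chartAt (V n) p).source →
      A' y = 0) :
    ∫ y in (chartAt (V n) p).target, A y = ∫ y in (chartAt (V n) q).target, A' y := by
  let e := (chartAt (V n) p).symm ≫ₕ chartAt (V n) q
  have hs : ∀ y, y ∈ e.source ↔ y ∈ (chartAt (V n) p).target ∧
      (chartAt (V n) p).symm y ∈ (chartAt (V n) q).source := fun y => Iff.rfl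
  have ht : ∀ y, y ∈ e.target ↔ y ∈ (chartAt (V n) q).target ∧
      (chartAt (V n) q).symm y ∈ (chartAt (V n) p).source := fun y => Iff.rfl
  rw [setIntegral_eq_of_subset_of_forall_sdiff_eq_zero (s := e.source)
      (chartAt (V n) p).open_target.measurableSet (fun y hy => ((hs y).1 hy).1)
      fun y hy => h1 y hy.1 fun h => hy.2 ((hs y).2 ⟨hy.1, h⟩),
    setIntegral_eq_of_subset_of_forall_sdiff_eq_zero (s := e.target)
      (chartAt (V n) q).open_target.measurableSet (fun y hy => ((ht y).1 hy).1)
      fun y hy => h2 y hy.1 fun h => hy.2 ((ht y).2 ⟨hy.1, h⟩),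
    integral_target_eq_integral_abs_det_fderiv_smul volume (f := e)
      (f' := fun y => fderiv ℝ (tr p q) y)
      fun y hy => (tr_diff hC ((hs y).1 hy).1 ((hs y).1 hy).2).hasFDerivAt]
  exact setIntegral_congr_fun e.open_source.measurableSet fun y hy =>
    h y ((hs y).1 hy).1 ((hs y).1 hy).2

theorem no_neg_div [T2Space M] [CompactSpace M] (hC : ComplexMfd n M) (W : M → V n → V n)
    (hW : ∀ p, ∀ y ∈ (chartAt (V n) p).target, ∀ m, ContDiffAt ℝ ∞ (fun y => W p y m) y)
    (hT : ∀ p q, ∀ y ∈ (chartAt (V n) p).target,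
      (chartAt (V n) p).symm y ∈ (chartAt (V n) q).source →
      fderiv ℝ (tr p q) y (W p y) = |(fderiv ℝ (tr p q) y).det| • W q (tr p q y))
    (hD : ∀ p, ∀ y ∈ (chartAt (V n) p).target, hdiv (W p) y ≤ 0) (x : M) :
    ∃ p, x ∈ (chartAt (V n) p).source ∧ hdiv (W p) (chartAt (V n) p x) = 0 := by
  have := hC.real
  obtain ⟨χ, hχ⟩ := SmoothPartitionOfUnity.exists_isSubordinate_chartAt_source 𝓘(ℝ, V n) M
  have hfin := χ.locallyFinite.finite_nonempty_of_compact
  set S := hfin.toFinset with hS
  have hsum : ∀ x, ∑ p ∈ S, χ p x = 1 := fun x => by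
    rw [← χ.sum_eq_one (mem_univ x), finsum_eq_sum_of_support_subset]
    intro p hp
    exact (hfin.mem_toFinset).2 ⟨x, hp⟩
  have hop := fun p : M => (chartAt (V n) p).open_target
  have hK : ∀ p, IsCompact (chartAt (V n) p '' tsupport (χ p)) := fun p =>
    (isClosed_tsupport _).isCompact.image_of_continuousOn
      ((chartAt (V n) p).continuousOn.mono (hχ p))
  have hKT : ∀ p, chartAt (V n) p '' tsupport (χ p) ⊆ (chartAt (V n) p).target := by
    rintro p _ ⟨x, hx, rfl⟩
    exact (chartAt (V n) p).map_source (hχ p hx)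
  have h0 : ∀ p, ∀ y ∈ (chartAt (V n) p).target \ chartAt (V n) p '' tsupport (χ p),
      χ p ((chartAt (V n) p).symm y) = 0 := fun p y hy =>
    image_eq_zero_of_notMem_tsupport fun h => hy.2 ⟨_, h, (chartAt (V n) p).right_inv hy.1⟩
  have hcd : ∀ p r, ∀ y ∈ (chartAt (V n) r).target,
      ContDiffAt ℝ ∞ (fun z => χ p ((chartAt (V n) r).symm z)) y := fun p r y hy =>
    cd_chart hC isOpen_univ (χ p).contMDiff.contMDiffOn hy (mem_univ _)
  let E : M → M → M → V n → ℝ := fun p q r y => χ q ((chartAt (V n) r).symm y) *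
    fderiv ℝ (fun z => χ p ((chartAt (V n) r).symm z)) y (W r y)
  have hEc : ∀ p q r, ∀ y ∈ (chartAt (V n) r).target, ContinuousAt (E p q r) y :=
    fun p q r y hy => (hcd q r y hy).continuousAt.mul
      (((hcd p r y hy).fderiv_right (m := ∞) le_rfl).continuousAt.clm_apply
        (continuousAt_pi.2 fun m => (hW r y hy m).continuousAt))
  have i1 : ∀ p q, IntegrableOn (E p q p) (chartAt (V n) p).target := fun p q =>
    integrableOn_of (hop p) (hK p) (hKT p) (hEc p q p) fun y hy => by
      simp [E, (ev_zero (hop p) (hK p) (h0 p) hy).fderiv_eq]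
  have i2 : ∀ p q, IntegrableOn (E p q q) (chartAt (V n) q).target := fun p q =>
    integrableOn_of (hop q) (hK q) (hKT q) (hEc p q q) fun y hy => by simp [E, h0 q y hy]
  have e1 : ∀ p, ∫ y in (chartAt (V n) p).target, χ p ((chartAt (V n) p).symm y) * hdiv (W p) y =
      -(∑ q ∈ S, ∫ y in (chartAt (V n) q).target, E p q q y) / 2 := fun p => by
    rw [stokes_cut (hop p) (hK p) (hKT p) (hW p) (hcd p p) (h0 p)]
    congr 2
    have e : ∀ q, ∫ y in (chartAt (V n) q).target, E p q q y =
        ∫ y in (chartAt (V n) p).target, E p q p y := fun q => by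
      refine (change_chart hC p q (fun y hy hq => ?_) (fun y _ hq => ?_) fun y hy hq => ?_).symm
      · simp only [E]
        rw [fderiv_chart hC hy hq ((hcd p q _ (tr_mem hq)).differentiableAt (by simp)),
          hT p q y hy hq, map_smul, symm_tr hq, smul_eq_mul]
        ring
      · simp [E, image_eq_zero_of_notMem_tsupport fun h => hq (hχ q h)]
      · have e : (fun z => χ p ((chartAt (V n) q).symm z)) =ᶠ[𝓝 y] fun _ => 0 := by
          filter_upwards [ev_src hy (isClosed_tsupport (χ p)).isOpen_compl fun h => hq (hχ p h)]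
            with z hz
          exact image_eq_zero_of_notMem_tsupport hz.2
        simp [E, e.fderiv_eq]
    simp only [e]
    rw [← integral_finsetSum _ fun q _ => i1 p q]
    congr 1
    funext y
    simp only [E, ← Finset.sum_mul, hsum, one_mul]
  have e2 : ∑ p ∈ S, ∫ y in (chartAt (V n) p).target,
      χ p ((chartAt (V n) p).symm y) * hdiv (W p) y = 0 := by
    simp only [e1, ← Finset.sum_div, Finset.sum_neg_distrib]
    rw [Finset.sum_comm, Finset.sum_eq_zero, neg_zero, zero_div]
    intro q _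
    rw [← integral_finsetSum _ fun p _ => i2 p q]
    refine setIntegral_eq_zero_of_forall_eq_zero fun y hy => ?_
    have e := fderiv_fun_sum (u := S) fun p _ => (hcd p q y hy).differentiableAt (by simp)
    simp only [hsum, fderiv_fun_const, Pi.zero_apply] at e
    simp only [E, ← Finset.mul_sum]
    rw [← _root_.sum_apply, ← e]
    simp
  have hneg : ∀ p, ∀ y ∈ (chartAt (V n) p).target,
      χ p ((chartAt (V n) p).symm y) * hdiv (W p) y ≤ 0 := fun p y hy =>
    mul_nonpos_of_nonneg_of_nonpos (χ.nonneg p _) (hD p y hy)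
  obtain ⟨p, hp⟩ := χ.exists_pos_of_mem (mem_univ x)
  have hx : x ∈ (chartAt (V n) p).source := hχ p (subset_tsupport _ hp.ne')
  have e3 := (Finset.sum_eq_zero_iff_of_nonpos fun p _ =>
    setIntegral_nonpos (hop p).measurableSet (hneg p)).1 e2 p (hfin.mem_toFinset.2 ⟨x, hp.ne'⟩)
  have hc : ∀ y ∈ (chartAt (V n) p).target,
      ContinuousAt (fun y => -(χ p ((chartAt (V n) p).symm y) * hdiv (W p) y)) y := fun y hy =>
    ((hcd p p y hy).continuousAt.mul (hdiv_cont (hW p y hy))).neg
  have e4 := (setIntegral_eq_zero_iff_of_nonneg_ae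
    ((ae_restrict_iff' (hop p).measurableSet).2 (.of_forall fun y hy => neg_nonneg.2 (hneg p y hy)))
    (integrableOn_of (hop p) (hK p) (hKT p) hc fun y hy => by simp [h0 p y hy])).1
    (by rw [integral_neg, e3, neg_zero])
  have e5 := Measure.eqOn_open_of_ae_eq e4 (hop p) (fun y hy => (hc y hy).continuousWithinAt)
    continuousOn_const ((chartAt (V n) p).map_source hx)
  refine ⟨p, hx, ?_⟩
  simpa [(chartAt (V n) p).left_inv hx, hp.ne'] using e5

end Pool.Agent.P.MP_3e99c6_gt
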